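import Pool.Agent.Y744.PCR.Abs

/-! The abstract rigidity theorem along a filter (after `Pool.Agent.Y744.PCR.Abs`), with the
analytic input only along the filter. -/

open MeasureTheory Filter Topology Real

namespace Pool.Agent.L5helper12.TW

open Pool.Agent.Y744

/-- passage to the limit in the integrals -/
lemma lim_int_u {A : ℝ → ℝ → ℝ} {T0 C : ℝ} (hmono : ∀ T, T0 ≤ T → Monotone (A T))
    (hb : ∀ T, T0 ≤ T → ∀ y, |A T y| ≤ C * (1 + y ^ 2)) {w : ℝ → ℝ} (hw : Measurable w) {D : ℝ}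
    (hwd : ∀ y, |w y| ≤ D / (1 + y ^ 2) ^ 2) {I : ℝ}
    {u : Filter ℝ} [NeBot u] (hI : Tendsto (fun T => ∫ y, A T y * w y) u (𝓝 I))
    (hu : u ≤ atTop) {A' : ℝ → ℝ} (hA' : Monotone A')
    (hlim : ∀ y, Tendsto (fun T => A T y) u (𝓝 (A' y))) : ∫ y, A' y * w y = I := by
  have hC : 0 ≤ C := by
    have := (abs_nonneg _).trans (hb T0 le_rfl 0)
    simpa using this
  set q : ℕ → ℝ := TopologicalSpace.denseSeq ℝ with hq
  have hqd : DenseRange q := TopologicalSpace.denseRange_denseSeq ℝ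
  have hex : ∀ n : ℕ, ∃ T : ℝ, (max (n : ℝ) T0 ≤ T ∧
      ∀ j ∈ Finset.range (n + 1), |A T (q j) - A' (q j)| < 1 / ((n : ℝ) + 1)) ∧
      |(∫ y, A T y * w y) - I| < 1 / ((n : ℝ) + 1) := by
    intro n
    have h3 : ∀ᶠ T in u, |(∫ y, A T y * w y) - I| < 1 / ((n : ℝ) + 1) := by
      have := (Metric.tendsto_nhds.1 hI) (1 / ((n : ℝ) + 1)) (by positivity)
      simpa [Real.dist_eq] using this
    have h1 : ∀ᶠ T in u, max (n : ℝ) T0 ≤ T := hu (eventually_ge_atTop _)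
    have h2 : ∀ᶠ T in u, ∀ j ∈ Finset.range (n + 1), |A T (q j) - A' (q j)| < 1 / ((n : ℝ) + 1) := by
      rw [Filter.eventually_all_finset]
      intro j _
      have := (Metric.tendsto_nhds.1 (hlim (q j))) (1 / ((n : ℝ) + 1)) (by positivity)
      simpa [Real.dist_eq] using this
    exact ((h1.and h2).and h3).exists
  choose t ht using hex
  have ht1 : ∀ n : ℕ, max (n : ℝ) T0 ≤ t n := fun n => (ht n).1.1
  have ht2 : ∀ n : ℕ, ∀ j ∈ Finset.range (n + 1), |A (t n) (q j) - A' (q j)| < 1 / ((n : ℝ) + 1) :=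
    fun n => (ht n).1.2
  have ht3 : Tendsto (fun n => ∫ y, A (t n) y * w y) atTop (𝓝 I) := by
    rw [Metric.tendsto_nhds]
    intro ε hε
    have h1 : ∀ᶠ n : ℕ in atTop, 1 / ((n : ℝ) + 1) < ε :=
      (tendsto_order.1 tendsto_one_div_add_atTop_nhds_zero_nat).2 ε hε
    filter_upwards [h1] with n hn
    rw [Real.dist_eq]
    exact (ht n).2.trans hn
  have htn : ∀ n : ℕ, (n : ℝ) ≤ t n := fun n => (le_max_left _ _).trans (ht1 n)
  have htT : ∀ n : ℕ, T0 ≤ t n := fun n => (le_max_right _ _).trans (ht1 n)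
  have htt : Tendsto t atTop atTop := tendsto_atTop_mono htn tendsto_natCast_atTop_atTop
  have hj : ∀ j, Tendsto (fun n => A (t n) (q j)) atTop (𝓝 (A' (q j))) := by
    intro j
    rw [Metric.tendsto_nhds]
    intro ε hε
    have h1 : ∀ᶠ n : ℕ in atTop, 1 / ((n : ℝ) + 1) < ε :=
      (tendsto_order.1 tendsto_one_div_add_atTop_nhds_zero_nat).2 ε hε
    filter_upwards [h1, eventually_ge_atTop j] with n hn hnj
    rw [Real.dist_eq]
    exact (ht2 n j (Finset.mem_range.2 (by omega))).trans hn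
  have hcont : ∀ x, ContinuousAt A' x → Tendsto (fun n => A (t n) x) atTop (𝓝 (A' x)) := by
    intro x hx
    rw [tendsto_order]
    constructor
    · intro a ha
      have h1 : ∀ᶠ y in 𝓝 x, a < A' y := hx.eventually_const_lt ha
      obtain ⟨δ, hδ, h2⟩ := Metric.eventually_nhds_iff.1 h1
      obtain ⟨_, ⟨j, rfl⟩, hj1, hj2⟩ := hqd.exists_between (show x - δ < x by linarith)
      have h3 : a < A' (q j) := h2 (by rw [Real.dist_eq, abs_lt]; constructor <;> linarith)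
      filter_upwards [(tendsto_order.1 (hj j)).1 a h3] with n hn
      exact hn.trans_le (hmono _ (htT n) hj2.le)
    · intro a ha
      have h1 : ∀ᶠ y in 𝓝 x, A' y < a := hx.eventually_lt_const ha
      obtain ⟨δ, hδ, h2⟩ := Metric.eventually_nhds_iff.1 h1
      obtain ⟨_, ⟨j, rfl⟩, hj1, hj2⟩ := hqd.exists_between (show x < x + δ by linarith)
      have h3 : A' (q j) < a := h2 (by rw [Real.dist_eq, abs_lt]; constructor <;> linarith)
      filter_upwards [(tendsto_order.1 (hj j)).2 a h3] with n hn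
      exact (hmono _ (htT n) hj1.le).trans_lt hn
  have hae : ∀ᵐ x, ContinuousAt A' x := by
    have := hA'.countable_not_continuousAt
    exact this.ae_notMem volume |>.mono fun x hx => by
      by_contra hc
      exact hx hc
  have hD : Integrable fun y : ℝ => C * D * (1 + y ^ 2)⁻¹ :=
    integrable_inv_one_add_sq.const_mul _
  have h1 : Tendsto (fun n => ∫ y, A (t n) y * w y) atTop (𝓝 (∫ y, A' y * w y)) := by
    refine tendsto_integral_of_dominated_convergence _ (fun n => ?_) hD (fun n => ?_) ?_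
    · exact ((hmono _ (htT n)).measurable.mul hw).aestronglyMeasurable
    · refine Eventually.of_forall fun y => ?_
      rw [Real.norm_eq_abs, abs_mul]
      have h1 : 0 < 1 + y ^ 2 := by positivity
      calc |A (t n) y| * |w y| ≤ (C * (1 + y ^ 2)) * (D / (1 + y ^ 2) ^ 2) := by
            gcongr
            · exact hb _ (htT n) y
            · exact hwd y
        _ = C * D * (1 + y ^ 2)⁻¹ := by field_simp
    · filter_upwards [hae] with x hx
      exact (hcont x hx).mul_const _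
  exact tendsto_nhds_unique h1 ht3

theorem rigid_u {A : ℝ → ℝ → ℝ} {T0 C0 κ : ℝ} (hκ : 0 < κ) (hmono : ∀ T, T0 ≤ T → Monotone (A T))
    (hneg : ∀ T y, y < 0 → A T y = 0) (hb : ∀ T, T0 ≤ T → ∀ y, |A T y| ≤ C0 * (1 + y ^ 2))
    (hdiag : ∀ ε, 0 < ε → ∀ᶠ T in atTop, 1 - ε ≤ A T 0)
    {W : ℝ → ℝ → ℝ → ℝ}
    (hW1 : ∀ T, T0 ≤ T → ∀ a ℓ, 0 < a → 0 < ℓ → A T (a + ℓ) - A T a ≤ W T a ℓ)
    (hW2 : ∀ T, T0 ≤ T → ∀ a ℓ η, 0 < a → 0 < ℓ → 0 < η → W T a ℓ ≤ A T (a + ℓ) - A T (a - η))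
    {l : Filter ℝ} (hl : l ≤ atTop)
    (hmont : ∀ K, TK κ K → ∀ h, 0 < h →
      Tendsto (fun T => ∫ y, A T y * (ct K (y + h) - ct K (y - h))) l
        (𝓝 (∫ y, AG y * (ct K (y + h) - ct K (y - h)))))
    {l1 l2 s1 s2 C c a0 : ℝ} (hl1 : 0 < l1) (hl2 : 0 < l2)
    (hirr : Irrational (l1 / l2)) (hs1 : s1 = 1 ∨ s1 = -1) (hs2 : s2 = 1 ∨ s2 = -1)
    (hC : 0 ≤ C) (hc : 0 < c) (ha0 : 0 < a0)
    (hyp1 : ∀ a, a0 ≤ a → ∀ ε, 0 < ε → ∀ᶠ T in l,
      -(C * Real.exp (-(c * a))) - ε ≤ s1 * (W T a l1 - 2 * (gp (a + l1) - gp a)))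
    (hyp2 : ∀ a, a0 ≤ a → ∀ ε, 0 < ε → ∀ᶠ T in l,
      -(C * Real.exp (-(c * a))) - ε ≤ s2 * (W T a l2 - 2 * (gp (a + l2) - gp a))) :
    ∀ x, Tendsto (fun T => A T x) l (𝓝 (AG x)) := by
  intro x
  rw [tendsto_iff_ultrafilter]
  intro g hg
  have hgt : (g : Filter ℝ) ≤ atTop := hg.trans hl
  have hT : ∀ᶠ T in (g : Filter ℝ), T0 ≤ T := hgt (eventually_ge_atTop _)
  have hex : ∀ y, ∃ L, Tendsto (fun T => A T y) (g : Filter ℝ) (𝓝 L) := by
    intro y
    have h1 : ((g.map fun T => A T y : Ultrafilter ℝ) : Filter ℝ) ≤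
        𝓟 (Set.Icc (-(C0 * (1 + y ^ 2))) (C0 * (1 + y ^ 2))) := by
      rw [le_principal_iff]
      have h2 : ∀ᶠ T in (g : Filter ℝ), A T y ∈
          Set.Icc (-(C0 * (1 + y ^ 2))) (C0 * (1 + y ^ 2)) := by
        filter_upwards [hT] with T hT1
        exact abs_le.1 (hb T hT1 y)
      exact h2
    obtain ⟨L, _, hL⟩ := isCompact_Icc.ultrafilter_le_nhds _ h1
    exact ⟨L, hL⟩
  choose A' hlim using hex
  have hA' : Monotone A' := by
    intro a b hab
    refine le_of_tendsto_of_tendsto (hlim a) (hlim b) ?_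
    filter_upwards [hT] with T hT1 using hmono T hT1 hab
  have hneg' : ∀ y, y < 0 → A' y = 0 := by
    intro y hy
    refine tendsto_nhds_unique (hlim y) ?_
    have : (fun T => A T y) = fun _ => 0 := funext fun T => hneg T y hy
    rw [this]
    exact tendsto_const_nhds
  have hb' : ∀ y, |A' y| ≤ C0 * (1 + y ^ 2) := by
    intro y
    refine le_of_tendsto (hlim y).abs ?_
    filter_upwards [hT] with T hT1 using hb T hT1 y
  have h0 : 1 ≤ A' 0 := by
    refine le_of_forall_pos_le_add fun ε hε => ?_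
    have h1 : ∀ᶠ T in (g : Filter ℝ), 1 - ε ≤ A T 0 := hgt (hdiag ε hε)
    have := ge_of_tendsto (hlim 0) h1
    linarith
  have hm : ∀ K, TK κ K → ∀ h, 0 < h →
      ∫ y, A' y * (ct K (y + h) - ct K (y - h)) = ∫ y, AG y * (ct K (y + h) - ct K (y - h)) := by
    intro K hK h hh
    obtain ⟨D, hD⟩ := test_decay hK h
    refine lim_int_u hmono hb ?_ hD ((hmont K hK h hh).mono_left hg) hgt hA' hlim
    exact (hK.ct_cont.measurable.comp (by fun_prop)).sub (hK.ct_cont.measurable.comp (by fun_prop))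
  have c1 := cond_limit hW1 hW2 hgt hlim hl1 hs1 ha0
    (fun a ha ε hε => hg (hyp1 a ha ε hε))
  have c2 := cond_limit hW1 hW2 hgt hlim hl2 hs2 ha0
    (fun a ha ε hε => hg (hyp2 a ha ε hε))
  have p1 := periodic hκ hA' hneg' hb' hm hl1 hs1 hC hc ha0 c1
  have p2 := periodic hκ hA' hneg' hb' hm hl2 hs2 hC hc ha0 c2
  have := limit_eq hA' hneg' hb' h0 hirr p1 p2 x
  rw [← this]
  exact hlim x


end Pool.Agent.L5helper12.TW
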