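import Pool.Agent.L5helper12.TW.Tele
import Pool.Agent.L5helper12.TW.Rig
import Pool.Agent.Y744.PCR.Win

/-! # The criterion without the Riemann hypothesis (after `Pool.Agent.Y744.PCR`) -/

open MeasureTheory Filter Topology Real

namespace Pool.Agent.L5helper12.TW

open Pool.Agent.Y744 hiding rigid lim_int PP_bound scale_err cross_small step_lim tele_lim mont_lim
  Aa_bound exists_limit single_Aa one_length rigid_Aa criterion blk_lim
open H370 TH803TW Pool.Agent.Results.MP_103a5c_nt.BohrSetPairs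

/-- Montgomery's theorem on a short interval -/
def Mont (κ : ℝ) (l : Filter ℝ) : Prop := ∀ K, TK κ K → ∀ h, 0 < h →
  Tendsto (fun T => ∫ y, Aa T y * (ct K (y + h) - ct K (y - h))) l
    (𝓝 (∫ y, AG y * (ct K (y + h) - ct K (y - h))))

lemma Mont.mono {κ : ℝ} {l l' : Filter ℝ} (h : Mont κ l) (hl : l' ≤ l) : Mont κ l' :=
  fun K hK t ht => (h K hK t ht).mono_left hl

lemma Kav_lip {κ : ℝ} {K : ℝ → ℝ} (hK : TK κ K) {h : ℝ} (hh : 0 < h) :
    ∃ C, ∀ x y, |Kav K h x - Kav K h y| ≤ C * |x - y| := by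
  have hpi := Real.pi_pos
  obtain ⟨C1, hC1⟩ := ContDiff.lipschitzWith_of_hasCompactSupport (𝕂 := ℝ) hK.hcs hK.smooth
    (by simp)
  obtain ⟨B, hB⟩ := hK.hcs.exists_bound_of_continuous hK.cont
  have hB0 : 0 ≤ B := (norm_nonneg _).trans (hB 0)
  set S : ℝ → ℝ := fun α => 2 * h * Real.sinc (2 * π * h * α) with hS
  have hS1 : ∀ α, |S α| ≤ 2 * h := by
    intro α
    simp only [hS]
    rw [abs_mul, abs_of_pos (by positivity)]
    exact mul_le_of_le_one_right (by positivity) (Real.abs_sinc_le_one _)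
  have hS2 : ∀ α β, |S α - S β| ≤ 2 * π * h * (2 * h) * |α - β| := by
    intro α β
    have e : ∀ α, S α = ∫ u in (0 - h)..(0 + h), Real.cos (2 * π * u * α) := by
      intro α
      rw [inner_cos]
      simp [hS]
    rw [e, e, ← intervalIntegral.integral_sub
      ((by fun_prop : Continuous fun u : ℝ => Real.cos (2 * π * u * α)).intervalIntegrable _ _)
      ((by fun_prop : Continuous fun u : ℝ => Real.cos (2 * π * u * β)).intervalIntegrable _ _)]
    have h1 := intervalIntegral.norm_integral_le_of_norm_le_const (a := 0 - h) (b := 0 + h)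
      (f := fun u => Real.cos (2 * π * u * α) - Real.cos (2 * π * u * β))
      (C := 2 * π * h * |α - β|) (fun u hu => by
        rw [Set.uIoc_of_le (by linarith)] at hu
        have hu1 : |u| ≤ h := by
          rw [abs_le]
          constructor <;> linarith [hu.1, hu.2]
        rw [Real.norm_eq_abs]
        have h2 : |Real.cos (2 * π * u * α) - Real.cos (2 * π * u * β)| ≤
            |2 * π * u * α - 2 * π * u * β| := by
          have h3 := Real.cos_sub_cos (2 * π * u * α) (2 * π * u * β)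
          rw [h3]
          have h4 := Real.abs_sin_le_one ((2 * π * u * α + 2 * π * u * β) / 2)
          have h5 : |Real.sin ((2 * π * u * α - 2 * π * u * β) / 2)| ≤
              |(2 * π * u * α - 2 * π * u * β) / 2| := Real.abs_sin_le_abs
          rw [abs_mul, abs_mul, abs_neg, abs_of_pos (by norm_num : (0 : ℝ) < 2)]
          rw [abs_div, abs_of_pos (by norm_num : (0 : ℝ) < 2)] at h5
          have h6 := abs_nonneg (Real.sin ((2 * π * u * α - 2 * π * u * β) / 2))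
          nlinarith
        refine h2.trans ?_
        have e1 : 2 * π * u * α - 2 * π * u * β = 2 * π * u * (α - β) := by ring
        rw [e1, abs_mul, abs_mul, abs_of_pos (by positivity : 0 < 2 * π)]
        gcongr)
    rw [Real.norm_eq_abs] at h1
    have e2 : |(0 : ℝ) + h - (0 - h)| = 2 * h := by
      rw [abs_of_nonneg (by linarith)]
      ring
    rw [e2] at h1
    linarith
  refine ⟨C1 * (2 * h) + B * (2 * π * h * (2 * h)), fun x y => ?_⟩
  have e : Kav K h x - Kav K h y = (K x - K y) * S x + K y * (S x - S y) := by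
    unfold Kav
    simp only [hS]
    ring
  rw [e]
  have h1 : |K x - K y| ≤ C1 * |x - y| := by
    have := hC1.dist_le_mul x y
    rwa [Real.dist_eq, Real.dist_eq] at this
  have h2 : |K y| ≤ B := by
    have := hB y
    rwa [Real.norm_eq_abs] at this
  calc |(K x - K y) * S x + K y * (S x - S y)| ≤ |K x - K y| * |S x| + |K y| * |S x - S y| := by
        refine (abs_add_le _ _).trans ?_
        rw [abs_mul (K x - K y), abs_mul (K y)]
    _ ≤ (C1 * |x - y|) * (2 * h) + B * (2 * π * h * (2 * h) * |x - y|) := by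
        gcongr
        · exact hS1 x
        · exact hS2 x y
    _ = _ := by ring

lemma T4_fav {κ κ' : ℝ} {K : ℝ → ℝ} (hK : TK κ' K) (hκ : κ' < κ) (hκ0 : 0 < κ) {h : ℝ}
    (hh : 0 < h) : T4 (Kav K h) κ (fav K h) where
  lip := Kav_lip hK hh
  supp := fun x hx => Kav_supp hK x (by linarith)
  evenR := Kav_even hK
  eq := by
    intro y
    rw [fav_eq hK hh]
    unfold ct
    rw [intervalIntegral.integral_of_le (by linarith), ← integral_Icc_eq_integral_Ioc]
    refine setIntegral_eq_integral_of_forall_compl_eq_zero fun x hx => ?_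
    rw [Kav_supp hK x, zero_mul]
    by_contra hc
    push Not at hc
    exact hx (abs_le.1 (by linarith))
  decay := fav_decay hK hh
  even := fav_even K h
  scale := fav_scale hK h

/-- **the analytic input** -/
theorem mont_off : ∃ κ : ℝ, 0 < κ ∧ ∀ l : Filter ℝ, l ≤ atTop → OffS l → Mont κ l := by
  obtain ⟨δ, hδ, hδ1, hm⟩ := mont_lim
  refine ⟨δ / 6, by positivity, fun l hl hoff K hK h hh => ?_⟩
  have h1 := (hm (δ / 3) (by positivity) (by linarith) _ _
    (T4_fav hK (show δ / 6 < δ / 3 by linarith) (by positivity) hh) l hl hoff).neg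
  rw [AG_mont hK (by linarith) hh]
  refine h1.congr fun T => ?_
  rw [Aa_int hK hh]
  rw [div_eq_inv_mul]

/-- growth of the counting function -/
lemma Aa_bd : ∃ C0 T0 : ℝ, 20 ≤ T0 ∧ ∀ T : ℝ, T0 ≤ T → ∀ y,
    |Aa T y| ≤ C0 * (1 + y ^ 2) := by
  obtain ⟨C, B0, V0, hC, hB0, hV0, -, hloc⟩ := PP_bd
  have hpi := Real.pi_pos
  refine ⟨3200 * (B0 + C) * (2 * π), V0, hV0, fun T hT y => ?_⟩
  have hT20 : 20 ≤ T := hV0.trans hT
  have hX := Xf_pos (V := T) (by linarith)
  have hL1 : 1 ≤ Real.log T := by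
    rw [Real.le_log_iff_exp_le (by linarith)]
    linarith [Real.exp_one_lt_d9]
  rcases lt_or_ge y 0 with hy | hy
  · rw [Aa_neg T y hy, abs_zero]
    positivity
  · unfold Aa
    rw [abs_of_nonneg (mul_nonneg (inv_nonneg.2 hX.le) (PC_nonneg _ _)), inv_mul_le_iff₀ hX]
    have h1 : PC T {x | |x| ≤ y} ≤ (1 + y ^ 2) * ∑ s ∈ Zt T, ∑ s' ∈ Zt T, mz s * mz s' *
        |(fun x : ℝ => 1 / (1 + x ^ 2)) ((s.im - s'.im) * Real.log T / (2 * π))| := by
      unfold PC
      rw [Finset.mul_sum]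
      refine Finset.sum_le_sum fun s _ => ?_
      rw [Finset.mul_sum]
      refine Finset.sum_le_sum fun s' _ => ?_
      have hm : 0 ≤ mz s * mz s' := mul_nonneg (mz_nonneg _) (mz_nonneg _)
      show mz s * mz s' * Set.indicator {x | |x| ≤ y} (fun _ => (1 : ℝ)) (dd T s s') ≤
        (1 + y ^ 2) * (mz s * mz s' * |1 / (1 + (dd T s s') ^ 2)|)
      set x := dd T s s'
      have h2 : Set.indicator {x | |x| ≤ y} (fun _ => (1 : ℝ)) x ≤
          (1 + y ^ 2) * (1 / (1 + x ^ 2)) := by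
        by_cases hx : |x| ≤ y
        · rw [Set.indicator_of_mem (show x ∈ {x | |x| ≤ y} from hx), mul_one_div,
            le_div_iff₀ (by positivity), one_mul]
          have : x ^ 2 ≤ y ^ 2 := by
            rw [← sq_abs x]
            exact pow_le_pow_left₀ (abs_nonneg _) hx 2
          linarith
        · rw [Set.indicator_of_notMem (show x ∉ {x | |x| ≤ y} from hx)]
          positivity
      rw [abs_of_nonneg (by positivity)]
      have h3 := mul_le_mul_of_nonneg_left h2 hm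
      linarith
    have h2 := QS_abs_bound (x := fun s : ℂ => s.im) (Zt T) (Zt T) mz_nonneg
      (f := fun x : ℝ => 1 / (1 + x ^ 2)) (K := 1) (fun x => by
        rw [abs_of_nonneg (by positivity)]) (Λ := Real.log T) (by linarith) one_pos
    have h3 := hloc T hT (Real.log T) le_rfl
    have h4 : B0 ≤ B0 * (T * Real.log T) := by
      have : 1 ≤ T * Real.log T := by nlinarith
      nlinarith
    calc PC T {x | |x| ≤ y} ≤ _ := h1
      _ ≤ (1 + y ^ 2) * (3200 * ((B0 + C) * (T * Real.log T))) := by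
          refine mul_le_mul_of_nonneg_left (h2.trans ?_) (by positivity)
          linarith
      _ = Xf T * (3200 * (B0 + C) * (2 * π) * (1 + y ^ 2)) := by
          unfold Xf
          field_simp

/-- the limit function along an ultrafilter -/
lemma exists_limit {κ : ℝ} (g : Ultrafilter ℝ) (hgt : (g : Filter ℝ) ≤ atTop)
    (hmont : Mont κ (g : Filter ℝ)) :
    ∃ (A' : ℝ → ℝ) (C0 : ℝ), Monotone A' ∧ (∀ y, y < 0 → A' y = 0) ∧
      (∀ y, |A' y| ≤ C0 * (1 + y ^ 2)) ∧ 1 ≤ A' 0 ∧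
      (∀ y, Tendsto (fun T => Aa T y) (g : Filter ℝ) (𝓝 (A' y))) ∧
      (∀ K, TK κ K → ∀ h, 0 < h →
        ∫ y, A' y * (ct K (y + h) - ct K (y - h)) = ∫ y, AG y * (ct K (y + h) - ct K (y - h))) := by
  obtain ⟨C0, T0, hT0, hb⟩ := Aa_bd
  have hmono : ∀ T, T0 ≤ T → Monotone (Aa T) := fun T hT => Aa_mono (by linarith)
  have hT : ∀ᶠ T in (g : Filter ℝ), T0 ≤ T := hgt (eventually_ge_atTop _)
  have hex : ∀ y, ∃ L, Tendsto (fun T => Aa T y) (g : Filter ℝ) (𝓝 L) := by
    intro y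
    have h1 : ((g.map fun T => Aa T y : Ultrafilter ℝ) : Filter ℝ) ≤
        𝓟 (Set.Icc (-(C0 * (1 + y ^ 2))) (C0 * (1 + y ^ 2))) := by
      rw [le_principal_iff]
      have h2 : ∀ᶠ T in (g : Filter ℝ), Aa T y ∈
          Set.Icc (-(C0 * (1 + y ^ 2))) (C0 * (1 + y ^ 2)) := by
        filter_upwards [hT] with T hT1
        exact abs_le.1 (hb T hT1 y)
      exact h2
    obtain ⟨L, _, hL⟩ := isCompact_Icc.ultrafilter_le_nhds _ h1
    exact ⟨L, hL⟩
  choose A' hlim using hex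
  have hA' : Monotone A' := by
    intro a b hab
    refine le_of_tendsto_of_tendsto (hlim a) (hlim b) ?_
    filter_upwards [hT] with T hT1 using hmono T hT1 hab
  refine ⟨A', C0, hA', fun y hy => ?_, fun y => ?_, ?_, hlim, fun K hK h hh => ?_⟩
  · refine tendsto_nhds_unique (hlim y) ?_
    have : (fun T => Aa T y) = fun _ => 0 := funext fun T => Aa_neg T y hy
    rw [this]
    exact tendsto_const_nhds
  · refine le_of_tendsto (hlim y).abs ?_
    filter_upwards [hT] with T hT1 using hb T hT1 y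
  · refine le_of_forall_pos_le_add fun ε hε => ?_
    have h1 : ∀ᶠ T in (g : Filter ℝ), 1 - ε ≤ Aa T 0 := hgt (Aa_diag hε)
    have := ge_of_tendsto (hlim 0) h1
    linarith
  · obtain ⟨D, hD⟩ := test_decay hK h
    refine lim_int_u hmono hb ?_ hD (hmont K hK h hh) hgt hA' hlim
    exact (hK.ct_cont.measurable.comp (by fun_prop)).sub
        (hK.ct_cont.measurable.comp (by fun_prop))

/-- one length: the counting function -/
lemma single_Aa {κ : ℝ} (hκ : 0 < κ) {l : Filter ℝ} (hl : l ≤ atTop) (hmont : Mont κ l)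
    {ℓ s C c a0 : ℝ}
    (hℓ : 0 < ℓ) (hs : s = 1 ∨ s = -1) (hC : 0 ≤ C) (hc : 0 < c) (ha0 : 0 < a0)
    (hyp : ∀ a, a0 ≤ a → ∀ ε, 0 < ε → ∀ᶠ T in l,
      -(C * Real.exp (-(c * a))) - ε ≤ s * (Ww T a ℓ - 2 * (gp (a + ℓ) - gp a))) (x : ℝ) {ε : ℝ}
    (hε : 0 < ε) : ∀ᶠ T in l, |Aa T x - AG x| ≤ Me ℓ + ε := by
  have key : {T | |Aa T x - AG x| ≤ Me ℓ + ε} ∈ l := by
    rw [Filter.mem_iff_ultrafilter]
    intro g hg
    have hgt : (g : Filter ℝ) ≤ atTop := hg.trans hl
    obtain ⟨A', C0, hA', hneg, hb, h0, hlim, hm⟩ := exists_limit g hgt (hmont.mono hg)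
    have c1 := cond_limit (T0 := 2) (W := Ww) (fun T hT a ℓ ha hℓ => Ww_lower (by linarith))
      (fun T hT a ℓ η ha hℓ hη => Ww_upper (by linarith) hη hℓ) hgt hlim hℓ hs ha0
      (fun a ha ε hε => hg (hyp a ha ε hε))
    have p1 := periodic (κ := κ) hκ hA' hneg hb hm hℓ hs hC hc ha0 c1
    have h1 := single_all hA' hneg h0 hℓ p1 x
    have h2 : Tendsto (fun T => |Aa T x - AG x|) (g : Filter ℝ) (𝓝 |A' x - AG x|) :=
      ((hlim x).sub_const _).abs
    have h3 : ∀ᶠ T in (g : Filter ℝ), |Aa T x - AG x| < Me ℓ + ε :=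
      (tendsto_order.1 h2).2 _ (by linarith)
    exact h3.mono fun T hT => le_of_lt hT
  exact key

/-- **the rigidity theorem for the counting functions** -/
theorem rigid_Aa {κ : ℝ} (hκ : 0 < κ) {l : Filter ℝ} (hl : l ≤ atTop) (hmont : Mont κ l)
    {l1 l2 s1 s2 C c a0 : ℝ} (hl1 : 0 < l1) (hl2 : 0 < l2)
    (hirr : Irrational (l1 / l2)) (hs1 : s1 = 1 ∨ s1 = -1) (hs2 : s2 = 1 ∨ s2 = -1)
    (hC : 0 ≤ C) (hc : 0 < c) (ha0 : 0 < a0)
    (hyp1 : ∀ a, a0 ≤ a → ∀ ε, 0 < ε → ∀ᶠ T in l,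
      -(C * Real.exp (-(c * a))) - ε ≤ s1 * (Ww T a l1 - 2 * (gp (a + l1) - gp a)))
    (hyp2 : ∀ a, a0 ≤ a → ∀ ε, 0 < ε → ∀ᶠ T in l,
      -(C * Real.exp (-(c * a))) - ε ≤ s2 * (Ww T a l2 - 2 * (gp (a + l2) - gp a))) :
    ∀ x, Tendsto (fun T => Aa T x) l (𝓝 (AG x)) := by
  obtain ⟨C0, T0, hT0, hb⟩ := Aa_bd
  exact rigid_u (κ := κ) hκ (T0 := T0) (fun T hT => Aa_mono (by linarith))
    (fun T y hy => Aa_neg T y hy) hb (fun ε hε => Aa_diag hε)
    (W := Ww) (fun T hT a ℓ ha hℓ => Ww_lower (by linarith))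
    (fun T hT a ℓ η ha hℓ hη => Ww_upper (by linarith) hη hℓ) hl hmont hl1 hl2 hirr hs1 hs2 hC hc
    ha0 hyp1 hyp2

/-- **the criterion** -/
theorem criterion {κ : ℝ} (hκ : 0 < κ) {l : Filter ℝ} (hl : l ≤ atTop) (hmont : Mont κ l)
    {l1 l2 s1 s2 : ℝ}
    (hl1 : 0 < l1) (hl2 : 0 < l2) (hirr : Irrational (l1 / l2)) (hs1 : s1 = 1 ∨ s1 = -1)
    (hs2 : s2 = 1 ∨ s2 = -1) :
    (∀ α β, α < β → Tendsto (fun T => Nr T α β) l (𝓝 (pr α β))) ↔
      (OneS l l1 s1 ∧ OneS l l2 s2) := by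
  constructor
  · intro h
    have key : ∀ ℓ s : ℝ, 0 < ℓ → (s = 1 ∨ s = -1) → OneS l ℓ s := by
      intro ℓ s hℓ hs
      refine ⟨1, 1, 1, one_pos, one_pos, one_pos, fun a ha ε hε => ?_⟩
      have h1 := h a (a + ℓ) (by linarith)
      have e : pr a (a + ℓ) = gp (a + ℓ) - gp a := by
        unfold pr
        rw [Set.indicator_of_notMem (by
          rintro ⟨h2, h3⟩
          linarith)]
        ring
      rw [e] at h1
      filter_upwards [(Metric.tendsto_nhds.1 h1) ε hε] with T hT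
      rw [Real.dist_eq] at hT
      have h2 := abs_lt.1 hT
      have h3 := Real.exp_pos (-(1 * a))
      rcases hs with rfl | rfl <;> linarith [h2.1, h2.2]
    exact ⟨key l1 s1 hl1 hs1, key l2 s2 hl2 hs2⟩
  · rintro ⟨⟨C1, c1, a1, hC1, hc1, ha1, h1⟩, C2, c2, a2, hC2, hc2, ha2, h2⟩
    have hexp : ∀ (C c' c a : ℝ), 0 < C → c' ≤ c → 0 < a → ∀ C' : ℝ, C ≤ C' →
        C * Real.exp (-(c * a)) ≤ C' * Real.exp (-(c' * a)) := by
      intro C c' c a hC hcc ha C' hCC
      refine mul_le_mul hCC (Real.exp_le_exp.2 ?_) (Real.exp_pos _).le (by linarith)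
      nlinarith
    have hneg : ∀ s : ℝ, (s = 1 ∨ s = -1) → (-s = 1 ∨ -s = -1) := by
      rintro s (rfl | rfl)
      · right; rfl
      · left; norm_num
    have conv : ∀ (ℓ s C c a0 : ℝ), 0 < C → 0 < a0 → min c1 c2 ≤ c → C ≤ max C1 C2 →
        a0 ≤ max a1 a2 →
        (∀ a, a0 ≤ a → ∀ ε, 0 < ε → ∀ᶠ T in l,
          s * (Nr T a (a + ℓ) - (gp (a + ℓ) - gp a)) ≤ C * Real.exp (-(c * a)) + ε) →
        ∀ a, max a1 a2 ≤ a → ∀ ε, 0 < ε → ∀ᶠ T in l,
          -(2 * max C1 C2 * Real.exp (-(min c1 c2 * a))) - ε ≤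
            -s * (Ww T a ℓ - 2 * (gp (a + ℓ) - gp a)) := by
      intro ℓ s C c a0 hC ha0 hcc hCC haa h a ha ε hε
      have hapos : 0 < a := by linarith
      filter_upwards [h a (haa.trans ha) (ε / 2) (by positivity)] with T hT
      rw [Ww_eq hapos]
      have h3 := hexp C (min c1 c2) c a hC hcc hapos _ hCC
      nlinarith
    refine fun α β hαβ => Nr_all hl (rigid_Aa hκ hl hmont hl1 hl2 hirr (hneg s1 hs1) (hneg s2 hs2)
      (C := 2 * max C1 C2) (c := min c1 c2) (a0 := max a1 a2) (by positivity) (lt_min hc1 hc2)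
      (lt_max_of_lt_left ha1)
      (conv l1 s1 C1 c1 a1 hC1 ha1 (min_le_left _ _) (le_max_left _ _) (le_max_left _ _) h1)
      (conv l2 s2 C2 c2 a2 hC2 ha2 (min_le_right _ _) (le_max_right _ _) (le_max_right _ _) h2)) hαβ

/-- **one length** -/
theorem one_length_min {κ : ℝ} (hκ : 0 < κ) {l : Filter ℝ} (hl : l ≤ atTop) (hmont : Mont κ l)
    {ℓ s : ℝ}
    (hℓ : 0 < ℓ) (hs : s = 1 ∨ s = -1) (h : OneS l ℓ s) {α β : ℝ} (hαβ : α < β) {ε : ℝ}
    (hε : 0 < ε) : ∀ᶠ T in l, |Nr T α β - pr α β| ≤ min ℓ (π ^ 2 / 9 * ℓ ^ 3) + ε := by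
  obtain ⟨C, c, a0, hC, hc, ha0, h1⟩ := h
  have hs' : -s = 1 ∨ -s = -1 := by
    rcases hs with rfl | rfl
    · right; rfl
    · left; norm_num
  have h2 : ∀ a, a0 ≤ a → ∀ ε, 0 < ε → ∀ᶠ T in l,
      -(2 * C * Real.exp (-(c * a))) - ε ≤ -s * (Ww T a ℓ - 2 * (gp (a + ℓ) - gp a)) := by
    intro a ha ε hε
    filter_upwards [h1 a ha (ε / 2) (by positivity)] with T hT
    rw [Ww_eq (by linarith)]
    nlinarith
  have h3 := fun x ε (hε : 0 < ε) => single_Aa hκ hl hmont hℓ hs' (C := 2 * C) (by positivity) hc ha0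
    h2 x hε
  filter_upwards [Nr_close hl h3 hαβ hε] with T hT
  have h4 : Me ℓ ≤ min ℓ (π ^ 2 / 9 * ℓ ^ 3) := by
    refine le_min ?_ (Me_le hℓ)
    unfold Me
    refine max_le (gp_le hℓ.le) ?_
    have := gp_le (x := ℓ / 2) (by positivity)
    linarith
  linarith


end Pool.Agent.L5helper12.TW
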