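import Pool.Agent.L5helper12.TW.Ker
import Pool.Agent.L5helper84.UV.Mom3
import Pool.Agent.Y744.PCR.NTb

set_option autoImplicit false

/-! # Unconditional bounds for a dyadic block -/

namespace Pool.Agent.L5helper12.TW

open Complex Filter Topology MeasureTheory Set
open Pool.Agent.Q97.UM (SS ZD)
open H370 TH803TW
open Pool.Agent.Y744 (mz mz_nonneg Zt Zb mem_Zt mem_Zb)
open Pool.Agent.L5helper84.UV (SS_cube SS_nonneg SS_cont)

lemma Zb_sub_ZD {V : ℝ} (hV : 16 ≤ V) : Zb V (2 * V) ⊆ ZD V := by
  unfold Pool.Agent.Y744.Zb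
  exact Pool.Agent.L5helper84.UV.Zf_sub_ZD hV le_rfl le_rfl

lemma loc_le_SS {δ T : ℝ} (hT : 16 ≤ T) {S : Finset ℂ} (hS : S ⊆ ZD T) {w : ℂ → ℝ}
    {c : ℝ} (hc : 0 ≤ c)
    (hw : ∀ s ∈ S, w s ≤ c * (mz s * Real.exp (2 * δ * (Real.log T * |s.re - 1 / 2|)))) (t : ℝ) :
    loc S w (Real.log T) t ≤ c * SS δ T t := by
  have hL : 0 ≤ Real.log T := Real.log_nonneg (by linarith)
  unfold loc Pool.Agent.Q97.UM.SS
  rw [Finset.mul_sum]
  refine le_trans (Finset.sum_le_sum fun s hs => ?_)
    (Finset.sum_le_sum_of_subset_of_nonneg hS fun s _ _ => by positivity)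
  have h1 := hw s hs
  have h2 : 0 ≤ 1 / (1 + Real.log T * |s.im - t|) ^ 2 := by positivity
  refine (mul_le_mul_of_nonneg_right h1 h2).trans (le_of_eq ?_)
  show c * ((mult riemannZeta s : ℝ) * _) * _ = c * ((mult riemannZeta s : ℝ) * _)
  ring

/-- multiplicity off the line -/
noncomputable def wo (s : ℂ) : ℝ := if s.re = 1 / 2 then 0 else mz s

lemma wo_nonneg (s : ℂ) : 0 ≤ wo s := by
  unfold wo
  split_ifs
  · exact le_rfl
  · exact mz_nonneg s

lemma wo_le (s : ℂ) : wo s ≤ mz s := by
  unfold wo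
  split_ifs
  · exact mz_nonneg s
  · exact le_rfl

/-- the weights of the off-line part -/
noncomputable def bw (κ L : ℝ) (s : ℂ) : ℝ :=
  mz s * (((s.re - 1 / 2) * L) ^ 2 * Real.exp (2 * κ * |(s.re - 1 / 2) * L|))

lemma bw_nonneg (κ L : ℝ) (s : ℂ) : 0 ≤ bw κ L s := by
  unfold bw
  have := mz_nonneg s
  positivity

lemma bw_le {κ δ L : ℝ} (hκ : 0 < κ) (hδ : 3 * κ ≤ δ) (hL : 0 ≤ L) (s : ℂ) :
    bw κ L s ≤ 2 / κ ^ 2 * (wo s * Real.exp (δ * (L * |s.re - 1 / 2|))) := by
  unfold bw wo
  by_cases h : s.re = 1 / 2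
  · rw [if_pos h, h]
    simp
  · rw [if_neg h]
    have hm := mz_nonneg s
    have e1 : |(s.re - 1 / 2) * L| = L * |s.re - 1 / 2| := by
      rw [abs_mul, abs_of_nonneg hL, mul_comm]
    have e2 : ((s.re - 1 / 2) * L) ^ 2 = (L * |s.re - 1 / 2|) ^ 2 := by
      rw [← e1, sq_abs]
    rw [e1, e2]
    set x := L * |s.re - 1 / 2| with hx
    have hx0 : 0 ≤ x := by positivity
    have h1 : x ^ 2 ≤ 2 / κ ^ 2 * Real.exp (κ * x) := by
      have h2 : (κ * x) ^ 2 / 2 ≤ Real.exp (κ * x) := by
        have := Real.quadratic_le_exp_of_nonneg (x := κ * x) (by positivity)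
        have h3 : 0 ≤ κ * x := by positivity
        linarith
      rw [div_mul_eq_mul_div, le_div_iff₀ (by positivity)]
      nlinarith
    have h3 : Real.exp (κ * x) * Real.exp (2 * κ * x) ≤ Real.exp (δ * x) := by
      rw [← Real.exp_add]
      refine Real.exp_le_exp.2 ?_
      nlinarith
    calc mz s * (x ^ 2 * Real.exp (2 * κ * x)) ≤
        mz s * ((2 / κ ^ 2 * Real.exp (κ * x)) * Real.exp (2 * κ * x)) := by gcongr
      _ = mz s * (2 / κ ^ 2 * (Real.exp (κ * x) * Real.exp (2 * κ * x))) := by ring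
      _ ≤ mz s * (2 / κ ^ 2 * Real.exp (δ * x)) := by gcongr
      _ = _ := by ring

/-- the square of the local sum off the line -/
lemma loc_bw_sq {κ δ T : ℝ} (hκ : 0 < κ) (hδ : 3 * κ ≤ δ) (hT : 16 ≤ T) {S : Finset ℂ}
    (hS : S ⊆ ZD T) {lam : ℝ} (hlam : 0 < lam) (t : ℝ) :
    loc S (bw κ (Real.log T)) (Real.log T) t ^ 2 ≤
      4 / κ ^ 4 * (lam * loc S wo (Real.log T) t + 1 / lam * SS δ T t ^ 3) := by
  have hL : 0 ≤ Real.log T := Real.log_nonneg (by linarith)
  set L := Real.log T with hLd
  have h1 : loc S (bw κ L) L t ≤ 2 / κ ^ 2 * ∑ s ∈ S,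
      wo s * Real.exp (δ * (L * |s.re - 1 / 2|)) * (1 / (1 + L * |s.im - t|) ^ 2) := by
    unfold loc
    rw [Finset.mul_sum]
    refine Finset.sum_le_sum fun s _ => ?_
    refine (mul_le_mul_of_nonneg_right (bw_le hκ hδ hL s) (by positivity)).trans (le_of_eq ?_)
    ring
  have h2 : (∑ s ∈ S, wo s * Real.exp (δ * (L * |s.re - 1 / 2|)) *
      (1 / (1 + L * |s.im - t|) ^ 2)) ^ 2 ≤ (loc S wo L t) *
      ∑ s ∈ S, mz s * Real.exp (2 * δ * (L * |s.re - 1 / 2|)) * (1 / (1 + L * |s.im - t|) ^ 2) := by
    unfold loc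
    refine Finset.sum_sq_le_sum_mul_sum_of_sq_le_mul S (fun s _ => mul_nonneg (wo_nonneg s)
      (by positivity)) (fun s _ => ?_) (fun s _ => le_of_eq ?_)
    · have := mz_nonneg s
      positivity
    · have e : Real.exp (2 * δ * (L * |s.re - 1 / 2|)) = Real.exp (δ * (L * |s.re - 1 / 2|)) ^ 2 := by
        rw [← Real.exp_nat_mul]
        congr 1
        push_cast
        ring
      rw [e]
      unfold wo
      split_ifs
      · ring
      · ring
  have h3 : ∑ s ∈ S, mz s * Real.exp (2 * δ * (L * |s.re - 1 / 2|)) *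
      (1 / (1 + L * |s.im - t|) ^ 2) ≤ SS δ T t := by
    have := loc_le_SS (δ := δ) hT hS (w := fun s => mz s * Real.exp (2 * δ * (L * |s.re - 1 / 2|)))
      zero_le_one (fun s _ => by rw [one_mul]) t
    rw [one_mul] at this
    exact this
  have h4 : loc S wo L t ≤ SS δ T t := by
    have := loc_le_SS (δ := δ) hT hS (w := wo) zero_le_one (fun s _ => ?_) t
    · rw [one_mul] at this
      exact this
    · rw [one_mul]
      refine (wo_le s).trans ?_
      have h5 : 1 ≤ Real.exp (2 * δ * (L * |s.re - 1 / 2|)) := Real.one_le_exp (by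
        have : 0 < δ := by linarith
        positivity)
      have := mz_nonneg s
      nlinarith
  have h5 := SS_nonneg (δ := δ) (T := T) t
  have h6 := loc_nonneg (S := S) wo_nonneg L t
  have h7 : loc S wo L t * SS δ T t ≤ lam * loc S wo L t + 1 / lam * SS δ T t ^ 3 := by
    rcases le_or_gt (SS δ T t) lam with h | h
    · have : 0 ≤ 1 / lam * SS δ T t ^ 3 := by positivity
      nlinarith
    · have h8 : loc S wo L t * SS δ T t ≤ SS δ T t * SS δ T t :=
        mul_le_mul_of_nonneg_right h4 h5
      have h9 : SS δ T t * SS δ T t ≤ 1 / lam * SS δ T t ^ 3 := by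
        rw [one_div, ← div_eq_inv_mul, le_div_iff₀ hlam]
        have : 0 ≤ SS δ T t * SS δ T t := by positivity
        nlinarith
      have : 0 ≤ lam * loc S wo L t := by positivity
      linarith
  have h0 : 0 ≤ loc S (bw κ L) L t := loc_nonneg (bw_nonneg κ L) L t
  calc loc S (bw κ L) L t ^ 2 ≤ (2 / κ ^ 2 * ∑ s ∈ S,
      wo s * Real.exp (δ * (L * |s.re - 1 / 2|)) * (1 / (1 + L * |s.im - t|) ^ 2)) ^ 2 :=
        pow_le_pow_left₀ h0 h1 2
    _ = 4 / κ ^ 4 * (∑ s ∈ S,
      wo s * Real.exp (δ * (L * |s.re - 1 / 2|)) * (1 / (1 + L * |s.im - t|) ^ 2)) ^ 2 := by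
        ring
    _ ≤ 4 / κ ^ 4 * (loc S wo L t * SS δ T t) := by
        refine mul_le_mul_of_nonneg_left (h2.trans ?_) (by positivity)
        exact mul_le_mul_of_nonneg_left h3 h6
    _ ≤ _ := mul_le_mul_of_nonneg_left h7 (by positivity)

/-- **pairs of zeros off the line, and close pairs** -/
theorem blk_pairs : ∃ δ C V0 : ℝ, 0 < δ ∧ δ ≤ 1 ∧ 0 < C ∧ 20 ≤ V0 ∧
    (∀ V : ℝ, V0 ≤ V → PP1 (Zb V (2 * V)) mz (fun s => s.im) (Real.log V) ≤
      C * (V * Real.log V)) ∧
    (∀ κ : ℝ, 0 < κ → 3 * κ ≤ δ → ∀ η : ℝ, 0 < η → ∃ ρ : ℝ, 0 < ρ ∧ ∀ V : ℝ, V0 ≤ V →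
      ∀ S : Finset ℂ, S ⊆ Zb V (2 * V) → ∑ s ∈ S, wo s ≤ ρ * (V * Real.log V) →
      ∑ s ∈ S, ∑ s' ∈ S, bw κ (Real.log V) s * bw κ (Real.log V) s' *
        (1 / (1 + (κ * (Real.log V * (s.im - s'.im))) ^ 2)) ≤ η * (V * Real.log V)) := by
  obtain ⟨δ, C, hδ, hδ1, hC, hS⟩ := SS_cube
  obtain ⟨V1, hV1⟩ := (hS.and (eventually_ge_atTop 20)).exists_forall_of_atTop
  refine ⟨δ, 80 * (8 + C), max V1 20, hδ, hδ1, by positivity, le_max_right _ _,
    fun V hV => ?_, fun κ hκ hκδ η hη => ?_⟩
  · obtain ⟨hc, hV20⟩ := hV1 V ((le_max_left _ _).trans hV)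
    have hL1 : 1 ≤ Real.log V := by
      rw [Real.le_log_iff_exp_le (by linarith)]
      linarith [Real.exp_one_lt_d9]
    have hL0 : 0 < Real.log V := by linarith
    have h1 := pair_loc (δ := 1) (L := Real.log V) one_pos hL0 (A := V / 4) (B := 8 * V)
      (S := Zb V (2 * V)) (w := mz) (fun s hs => by
        rw [mem_Zb (by linarith)] at hs
        have := hs.2.2.1
        linarith) (fun s hs => by
        rw [mem_Zb (by linarith)] at hs
        have := hs.2.2.2.1
        have h2 : 1 / Real.log V ≤ 1 := by rw [div_le_one hL0]; exact hL1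
        linarith) mz_nonneg
    have h2 : PP1 (Zb V (2 * V)) mz (fun s => s.im) (Real.log V) ≤
        2 * ∑ s ∈ Zb V (2 * V), ∑ s' ∈ Zb V (2 * V), mz s * mz s' *
          (1 / (1 + (1 * (Real.log V * (s.im - s'.im))) ^ 2)) := by
      unfold PP1
      rw [Finset.mul_sum]
      refine Finset.sum_le_sum fun s _ => ?_
      rw [Finset.mul_sum]
      refine Finset.sum_le_sum fun s' _ => ?_
      have hm : 0 ≤ mz s * mz s' := mul_nonneg (mz_nonneg _) (mz_nonneg _)
      show mz s * mz s' * (if |s.im - s'.im| ≤ 1 / Real.log V then (1 : ℝ) else 0) ≤ _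
      split_ifs with h
      · have h3 : (1 * (Real.log V * (s.im - s'.im))) ^ 2 ≤ 1 := by
          rw [one_mul, ← sq_abs, abs_mul, abs_of_pos hL0]
          have h4 : Real.log V * |s.im - s'.im| ≤ 1 := by
            rw [le_div_iff₀ hL0] at h
            linarith
          have h5 : 0 ≤ Real.log V * |s.im - s'.im| := by positivity
          nlinarith
        have h4 : (1 : ℝ) ≤ 2 * (1 / (1 + (1 * (Real.log V * (s.im - s'.im))) ^ 2)) := by
          rw [mul_one_div, le_div_iff₀ (by positivity)]
          linarith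
        nlinarith
      · rw [mul_zero]
        positivity
    have h3 : ∫ t in (V / 4)..(8 * V), loc (Zb V (2 * V)) mz (Real.log V) t ^ 2 ≤
        (8 + C) * V := by
      have hc1 := SS_cont (δ := δ) (T := V) (by linarith)
      calc ∫ t in (V / 4)..(8 * V), loc (Zb V (2 * V)) mz (Real.log V) t ^ 2 ≤
          ∫ t in (V / 4)..(8 * V), (1 + SS δ V t ^ 3) := by
            refine intervalIntegral.integral_mono_on (by linarith)
              (((loc_cont _ _ hL0.le).pow 2).intervalIntegrable _ _)
              ((continuous_const.add (hc1.pow 3)).intervalIntegrable _ _) fun t _ => ?_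
            have h4 : loc (Zb V (2 * V)) mz (Real.log V) t ≤ SS δ V t := by
              have := loc_le_SS (δ := δ) (T := V) (by linarith) (Zb_sub_ZD (by linarith)) (w := mz)
                zero_le_one (fun s _ => ?_) t
              · rw [one_mul] at this
                exact this
              · rw [one_mul]
                have h5 : 1 ≤ Real.exp (2 * δ * (Real.log V * |s.re - 1 / 2|)) :=
                  Real.one_le_exp (by positivity)
                have := mz_nonneg s
                nlinarith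
            have h5 : 0 ≤ loc (Zb V (2 * V)) mz (Real.log V) t := loc_nonneg mz_nonneg _ t
            have h6 := pow_le_pow_left₀ h5 h4 2
            have h7 := SS_nonneg (δ := δ) (T := V) t
            rcases le_or_gt (SS δ V t) 1 with h | h
            · have : 0 ≤ SS δ V t ^ 3 := by positivity
              nlinarith
            · have : SS δ V t ^ 2 ≤ SS δ V t ^ 3 := by
                have h8 : 0 ≤ SS δ V t ^ 2 := sq_nonneg _
                nlinarith
              linarith
        _ = (8 * V - V / 4) + ∫ t in (V / 4)..(8 * V), SS δ V t ^ 3 := by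
            have i2 : IntervalIntegrable (fun t => SS δ V t ^ 3) volume (V / 4) (8 * V) :=
              (hc1.pow 3).intervalIntegrable _ _
            rw [intervalIntegral.integral_add intervalIntegrable_const i2,
              intervalIntegral.integral_const, smul_eq_mul, mul_one]
        _ ≤ (8 + C) * V := by linarith
    have h4 : (0 : ℝ) ≤ 4 * (8 + 2 / 1 ^ 2) * Real.log V := by positivity
    have h5 := h1.trans (mul_le_mul_of_nonneg_left h3 h4)
    calc PP1 (Zb V (2 * V)) mz (fun s => s.im) (Real.log V) ≤ _ := h2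
      _ ≤ 2 * (4 * (8 + 2 / 1 ^ 2) * Real.log V * ((8 + C) * V)) := by linarith
      _ = 80 * (8 + C) * (V * Real.log V) := by ring
  · set D : ℝ := 4 * (8 + 2 / κ ^ 2) * (4 / κ ^ 4) with hD
    have hD0 : 0 < D := by positivity
    set lam : ℝ := 2 * D * C / η with hlam
    have hlam0 : 0 < lam := by positivity
    refine ⟨η / (2 * D * lam * Real.pi), by positivity, fun V hV S hSub hoff => ?_⟩
    obtain ⟨hc, hV20⟩ := hV1 V ((le_max_left _ _).trans hV)
    have hL1 : 1 ≤ Real.log V := by
      rw [Real.le_log_iff_exp_le (by linarith)]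
      linarith [Real.exp_one_lt_d9]
    have hL0 : 0 < Real.log V := by linarith
    have h1 := pair_loc (δ := κ) (L := Real.log V) hκ hL0 (A := V / 4) (B := 8 * V)
      (S := S) (w := bw κ (Real.log V)) (fun s hs => by
        have hs := hSub hs
        rw [mem_Zb (by linarith)] at hs
        have := hs.2.2.1
        linarith) (fun s hs => by
        have hs := hSub hs
        rw [mem_Zb (by linarith)] at hs
        have := hs.2.2.2.1
        have h2 : 1 / Real.log V ≤ 1 := by rw [div_le_one hL0]; exact hL1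
        linarith) (bw_nonneg _ _)
    have hc1 := SS_cont (δ := δ) (T := V) (by linarith)
    have hlc := loc_cont S wo hL0.le
    have h3 : ∫ t in (V / 4)..(8 * V), loc S (bw κ (Real.log V)) (Real.log V) t ^ 2 ≤
        4 / κ ^ 4 * (lam * (Real.pi / Real.log V * (η / (2 * D * lam * Real.pi) *
          (V * Real.log V))) + 1 / lam * (C * V)) := by
      calc ∫ t in (V / 4)..(8 * V), loc S (bw κ (Real.log V)) (Real.log V) t ^ 2 ≤
          ∫ t in (V / 4)..(8 * V), 4 / κ ^ 4 * (lam * loc S wo (Real.log V) t +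
            1 / lam * SS δ V t ^ 3) := by
            refine intervalIntegral.integral_mono_on (by linarith)
              (((loc_cont _ _ hL0.le).pow 2).intervalIntegrable _ _) ?_ fun t _ => ?_
            · exact (continuous_const.mul ((continuous_const.mul hlc).add
                (continuous_const.mul (hc1.pow 3)))).intervalIntegrable _ _
            · exact loc_bw_sq hκ hκδ (by linarith) (hSub.trans (Zb_sub_ZD (by linarith))) hlam0 t
        _ = 4 / κ ^ 4 * (lam * (∫ t in (V / 4)..(8 * V), loc S wo (Real.log V) t) +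
            1 / lam * ∫ t in (V / 4)..(8 * V), SS δ V t ^ 3) := by
            have i1 : IntervalIntegrable (fun t => lam * loc S wo (Real.log V) t) volume
              (V / 4) (8 * V) := (continuous_const.mul hlc).intervalIntegrable _ _
            have i2 : IntervalIntegrable (fun t => 1 / lam * SS δ V t ^ 3) volume (V / 4) (8 * V) :=
              (continuous_const.mul (hc1.pow 3)).intervalIntegrable _ _
            rw [intervalIntegral.integral_const_mul, intervalIntegral.integral_add i1 i2,
              intervalIntegral.integral_const_mul, intervalIntegral.integral_const_mul]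
        _ ≤ _ := by
            have h4 := loc_int hL0 (A := V / 4) (B := 8 * V) (by linarith) (S := S) wo_nonneg
            have h5 : Real.pi / Real.log V * ∑ s ∈ S, wo s ≤ Real.pi / Real.log V *
                (η / (2 * D * lam * Real.pi) * (V * Real.log V)) :=
              mul_le_mul_of_nonneg_left hoff (by positivity)
            have h6 := h4.trans h5
            gcongr
    have h4 : (0 : ℝ) ≤ 4 * (8 + 2 / κ ^ 2) * Real.log V := by positivity
    refine (h1.trans (mul_le_mul_of_nonneg_left h3 h4)).trans (le_of_eq ?_)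
    have hpi := Real.pi_pos
    have e1 : 4 * (8 + 2 / κ ^ 2) * Real.log V * (4 / κ ^ 4 * (lam * (Real.pi / Real.log V *
        (η / (2 * D * lam * Real.pi) * (V * Real.log V))) + 1 / lam * (C * V))) =
        D * (Real.log V * (lam * (Real.pi / Real.log V * (η / (2 * D * lam * Real.pi) *
          (V * Real.log V))) + 1 / lam * (C * V))) := by
      rw [hD]; ring
    rw [e1]
    have e2 : D * (Real.log V * (lam * (Real.pi / Real.log V * (η / (2 * D * lam * Real.pi) *
          (V * Real.log V))))) = η / 2 * (V * Real.log V) := by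
      field_simp
    have e3 : D * (Real.log V * (1 / lam * (C * V))) = η / 2 * (V * Real.log V) := by
      rw [hlam]
      field_simp
    rw [mul_add (Real.log V), mul_add D, e2, e3]
    ring

end Pool.Agent.L5helper12.TW
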