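import Mathlib

set_option autoImplicit false

/-! # Combinations of two incommensurable lengths -/

namespace Pool.Agent.L5helper12.TW

open Filter Topology MeasureTheory Set

lemma small_diff {l1 l2 : ℝ} (h1 : 0 < l1) (h2 : 0 < l2) (hirr : Irrational (l1 / l2)) {δ : ℝ}
    (hδ : 0 < δ) : ∃ n1 n2 : ℕ, 0 < n1 * l1 - n2 * l2 ∧ n1 * l1 - n2 * l2 < δ := by
  have hd := dense_addSubgroupClosure_pair_iff.2 hirr
  obtain ⟨u, hu1, hu2⟩ := hd.exists_between (show (0 : ℝ) < min δ (min l1 l2) by positivity)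
  obtain ⟨hu0, hu3⟩ := hu2
  have hu4 : u < δ := hu3.trans_le (min_le_left _ _)
  have hu5 : u < l1 := hu3.trans_le ((min_le_right _ _).trans (min_le_left _ _))
  have hu6 : u < l2 := hu3.trans_le ((min_le_right _ _).trans (min_le_right _ _))
  obtain ⟨p, q, hpq⟩ := AddSubgroup.mem_closure_pair.1 hu1
  rw [zsmul_eq_mul, zsmul_eq_mul] at hpq
  have hirr' : ∀ a b : ℤ, a ≠ 0 → (a : ℝ) * l1 + b * l2 ≠ 0 := by
    intro a b ha h
    apply hirr
    refine ⟨(-b : ℚ) / a, ?_⟩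
    have ha' : (a : ℝ) ≠ 0 := by exact_mod_cast ha
    push_cast
    rw [div_eq_div_iff ha' h2.ne']
    linarith
  rcases le_or_gt 0 p with hp | hp
  · obtain ⟨n, rfl⟩ := Int.eq_ofNat_of_zero_le hp
    rcases le_or_gt 0 q with hq | hq
    · exfalso
      obtain ⟨m, rfl⟩ := Int.eq_ofNat_of_zero_le hq
      push_cast at hpq
      rcases Nat.eq_zero_or_pos n with hn | hn
      · rcases Nat.eq_zero_or_pos m with hm | hm
        · rw [hn, hm] at hpq
          simp at hpq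
          linarith
        · have : (1 : ℝ) ≤ m := by exact_mod_cast hm
          have h3 : (0 : ℝ) ≤ n := Nat.cast_nonneg n
          nlinarith
      · have : (1 : ℝ) ≤ n := by exact_mod_cast hn
        have h3 : (0 : ℝ) ≤ m := Nat.cast_nonneg m
        nlinarith
    · refine ⟨n, (-q).toNat, ?_⟩
      have e : (((-q).toNat : ℕ) : ℝ) = -(q : ℝ) := by
        have : (((-q).toNat : ℕ) : ℤ) = -q := Int.toNat_of_nonneg (by omega)
        have h3 := congrArg (fun z : ℤ => (z : ℝ)) this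
        push_cast at h3
        exact_mod_cast h3
      rw [e]
      push_cast at hpq
      constructor <;> linarith
  · -- `u = q l2 - |p| l1`
    set k : ℕ := ⌊l1 / u⌋₊ with hk
    have hk1 : (k : ℝ) ≤ l1 / u := Nat.floor_le (by positivity)
    have hk2 : l1 / u < k + 1 := Nat.lt_floor_add_one _
    rw [le_div_iff₀ hu0] at hk1
    rw [div_lt_iff₀ hu0] at hk2
    have hk3 : 1 ≤ k := by
      rw [hk]
      apply Nat.le_floor
      rw [Nat.cast_one, le_div_iff₀ hu0]
      linarith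
    have hk4 : (1 : ℝ) ≤ k := by exact_mod_cast hk3
    have hq : 0 ≤ q := by
      by_contra hq
      push Not at hq
      have h3 : (p : ℝ) < 0 := by exact_mod_cast hp
      have h4 : (q : ℝ) < 0 := by exact_mod_cast hq
      nlinarith
    obtain ⟨a, ha⟩ := Int.eq_ofNat_of_zero_le hq
    obtain ⟨b, hb⟩ := Int.eq_ofNat_of_zero_le (show 0 ≤ -p by omega)
    have hb' : (p : ℝ) = -(b : ℝ) := by
      have : p = -(b : ℤ) := by omega
      rw [this]; push_cast; ring
    have ha' : (q : ℝ) = (a : ℝ) := by rw [ha]; push_cast; ring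
    refine ⟨1 + k * b, k * a, ?_⟩
    have e : ((1 + k * b : ℕ) : ℝ) * l1 - ((k * a : ℕ) : ℝ) * l2 = l1 - k * u := by
      rw [← hpq, hb', ha']
      push_cast
      ring
    rw [e]
    have hne : l1 - k * u ≠ 0 := by
      rw [← e]
      have := hirr' (1 + k * b : ℤ) (-(k * a : ℤ)) (by positivity)
      push_cast at this ⊢
      intro h
      apply this
      linarith
    constructor
    · rcases lt_or_eq_of_le (show 0 ≤ l1 - k * u by linarith) with h | h
      · exact h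
      · exact absurd h.symm hne
    · linarith

/-- differences of multiples -/
lemma dens_diff {l1 l2 : ℝ} (h1 : 0 < l1) (h2 : 0 < l2) (hirr : Irrational (l1 / l2)) {ε : ℝ}
    (hε : 0 < ε) {y : ℝ} (hy : 0 ≤ y) :
    ∃ n1 n2 : ℕ, 0 ≤ y - (n1 * l1 - n2 * l2) ∧ y - (n1 * l1 - n2 * l2) < ε := by
  obtain ⟨p, q, hu0, hu1⟩ := small_diff h1 h2 hirr hε
  set u := (p : ℝ) * l1 - q * l2 with hu
  set k : ℕ := ⌊y / u⌋₊ with hk
  have hk1 : (k : ℝ) ≤ y / u := Nat.floor_le (by positivity)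
  have hk2 : y / u < k + 1 := Nat.lt_floor_add_one _
  rw [le_div_iff₀ hu0] at hk1
  rw [div_lt_iff₀ hu0] at hk2
  refine ⟨k * p, k * q, ?_⟩
  have e : ((k * p : ℕ) : ℝ) * l1 - ((k * q : ℕ) : ℝ) * l2 = k * u := by
    rw [hu]
    push_cast
    ring
  rw [e]
  constructor <;> linarith

/-- sums of multiples -/
lemma dens_sum {l1 l2 : ℝ} (h1 : 0 < l1) (h2 : 0 < l2) (hirr : Irrational (l1 / l2)) {ε : ℝ}
    (hε : 0 < ε) : ∃ M : ℝ, 0 ≤ M ∧ ∀ y : ℝ, M ≤ y →
    ∃ n1 n2 : ℕ, 0 ≤ y - (n1 * l1 + n2 * l2) ∧ y - (n1 * l1 + n2 * l2) < ε := by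
  obtain ⟨p, q, hu0, hu1⟩ := small_diff h1 h2 hirr hε
  set u := (p : ℝ) * l1 - q * l2 with hu
  obtain ⟨K, hK⟩ := exists_nat_ge (l1 / u)
  rw [div_le_iff₀ hu0] at hK
  refine ⟨K * (q * l2), by positivity, fun y hy => ?_⟩
  set j : ℕ := ⌊(y - K * (q * l2)) / l1⌋₊ with hj
  have hj1 : (j : ℝ) ≤ (y - K * (q * l2)) / l1 := Nat.floor_le (div_nonneg (by linarith) h1.le)
  have hj2 : (y - K * (q * l2)) / l1 < j + 1 := Nat.lt_floor_add_one _
  rw [le_div_iff₀ h1] at hj1
  rw [div_lt_iff₀ h1] at hj2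
  set r := y - K * (q * l2) - j * l1 with hr
  have hr0 : 0 ≤ r := by rw [hr]; linarith
  have hr1 : r < l1 := by rw [hr]; linarith
  set k : ℕ := ⌊r / u⌋₊ with hk
  have hk1 : (k : ℝ) ≤ r / u := Nat.floor_le (by positivity)
  have hk2 : r / u < k + 1 := Nat.lt_floor_add_one _
  rw [le_div_iff₀ hu0] at hk1
  rw [div_lt_iff₀ hu0] at hk2
  have hkK : k ≤ K := by
    have h3 : (k : ℝ) * u < K * u := by linarith
    have h4 : (k : ℝ) < K := lt_of_mul_lt_mul_right h3 hu0.le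
    exact_mod_cast h4.le
  refine ⟨j + k * p, (K - k) * q, ?_⟩
  have e : ((j + k * p : ℕ) : ℝ) * l1 + (((K - k) * q : ℕ) : ℝ) * l2 =
      K * (q * l2) + j * l1 + k * u := by
    rw [Nat.cast_mul, Nat.cast_sub hkK, hu]
    push_cast
    ring
  rw [e]
  constructor <;> linarith

end Pool.Agent.L5helper12.TW
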