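import Pool.Agent.L5helper12.TW.Dens
import Pool.Agent.Y744.PCR.Abs

set_option autoImplicit false

/-! # One-sided bounds for two incommensurable lengths determine the diagonal -/

namespace Pool.Agent.L5helper12.TW

open Filter Topology MeasureTheory Set
open Pool.Agent.Y744 (AG gp gp_cont gp_sub gp_mono gp_nonneg gp_le gp_zero gd gd_le gd_cont AG_meas)

lemma mean_le {E : ℝ → ℝ} (hE : ∀ a b, IntervalIntegrable E volume a b) {C : ℝ}
    (hC : ∀ a, 1 ≤ a → |∫ u in (0 : ℝ)..a, E u| ≤ C) {M η c0 : ℝ} (hM : 1 ≤ M) (hη : 0 < η)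
    (h : ∀ b, M ≤ b → η * c0 ≤ ∫ u in b..(b + η), E u) : c0 ≤ 0 := by
  have h1 : ∀ K : ℕ, K * (η * c0) ≤ ∫ u in M..(M + K * η), E u := by
    intro K
    induction K with
    | zero => simp
    | succ K ih =>
      have h2 := h (M + K * η) (by
        have : 0 ≤ (K : ℝ) * η := by positivity
        linarith)
      have e : M + K * η + η = M + ((K + 1 : ℕ) : ℝ) * η := by
        push_cast
        ring
      rw [e] at h2
      rw [← intervalIntegral.integral_add_adjacent_intervals (hE M (M + K * η)) (hE _ _)]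
      push_cast at h2 ⊢
      linarith
  have h2 : ∀ K : ℕ, K * (η * c0) ≤ 2 * C := by
    intro K
    refine (h1 K).trans ?_
    have h3 := hC (M + K * η) (by
      have : 0 ≤ (K : ℝ) * η := by positivity
      linarith)
    have h4 := hC M hM
    have e : ∫ u in M..(M + K * η), E u = (∫ u in (0 : ℝ)..(M + K * η), E u) -
        ∫ u in (0 : ℝ)..M, E u := by
      rw [← intervalIntegral.integral_add_adjacent_intervals (hE 0 M) (hE M (M + K * η))]
      ring
    rw [e]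
    have := (abs_le.1 h3).2
    have := (abs_le.1 h4).1
    linarith
  by_contra hc
  push Not at hc
  obtain ⟨K, hK⟩ := exists_nat_gt (2 * C / (η * c0))
  rw [div_lt_iff₀ (by positivity)] at hK
  linarith [h2 K]

lemma mean_ge {E : ℝ → ℝ} (hE : ∀ a b, IntervalIntegrable E volume a b) {C : ℝ}
    (hC : ∀ a, 1 ≤ a → |∫ u in (0 : ℝ)..a, E u| ≤ C) {M η c0 : ℝ} (hM : 1 ≤ M) (hη : 0 < η)
    (h : ∀ b, M ≤ b → (∫ u in b..(b + η), E u) ≤ η * c0) : 0 ≤ c0 := by
  have h1 := mean_le (E := fun u => -E u) (fun a b => (hE a b).neg) (C := C) (fun a ha => by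
    rw [intervalIntegral.integral_neg, abs_neg]
    exact hC a ha) hM hη (c0 := -c0) (fun b hb => by
    rw [intervalIntegral.integral_neg]
    have := h b hb
    linarith)
  linarith

lemma AG_ii (a b : ℝ) : IntervalIntegrable AG volume a b := by
  have hm : Monotone AG := by
    intro x y hxy
    unfold Pool.Agent.Y744.AG
    by_cases hx : x < 0
    · rw [if_pos hx]
      split_ifs with hy
      · exact le_rfl
      · have := gp_nonneg (not_lt.1 hy)
        linarith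
    · rw [if_neg hx, if_neg (by linarith)]
      have := gp_mono hxy
      linarith
  exact hm.intervalIntegrable

section

variable {A' : ℝ → ℝ}

lemma E_ii (hA' : Monotone A') (a b : ℝ) :
    IntervalIntegrable (fun u => A' u - AG u) volume a b := hA'.intervalIntegrable.sub (AG_ii a b)

lemma ae_cont (hA' : Monotone A') : ∀ᵐ x, ContinuousAt A' x := by
  have := hA'.countable_not_continuousAt
  exact this.ae_notMem volume |>.mono fun x hx => by
    by_contra hc
    exact hx hc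

lemma AG_pos {x : ℝ} (hx : 0 ≤ x) : AG x = 1 + 2 * gp x := by
  unfold Pool.Agent.Y744.AG
  rw [if_neg (by linarith)]

/-- shift of a short mean, lower bounds -/
lemma shift_up (hA' : Monotone A') {ℓ : ℝ} (hℓ : 0 < ℓ)
    (h : ∀ a, 0 < a → ContinuousAt A' a → 2 * (gp (a + ℓ) - gp a) ≤ A' (a + ℓ) - A' a)
    {η : ℝ} (hη : 0 < η) {a : ℝ} (ha : 0 ≤ a) :
    ∫ u in a..(a + η), (A' u - AG u) ≤ ∫ u in (a + ℓ)..(a + ℓ + η), (A' u - AG u) := by
  have e1 : ∫ u in (a + ℓ)..(a + ℓ + η), (A' u - AG u) =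
      ∫ u in a..(a + η), (A' (u + ℓ) - AG (u + ℓ)) := by
    rw [intervalIntegral.integral_comp_add_right (fun u => A' u - AG u) ℓ]
    congr 1
    ring
  rw [e1]
  refine intervalIntegral.integral_mono_ae_restrict (by linarith) (E_ii hA' _ _) ?_ ?_
  · have := (E_ii hA' (a + ℓ) (a + η + ℓ)).comp_add_right ℓ
    simpa using this
  · have h0 : ∀ᵐ x : ℝ, x ≠ a := by
      rw [ae_iff]
      simp
    have h1 : ∀ᵐ x ∂(volume.restrict (Set.Icc a (a + η))), x ∈ Set.Icc a (a + η) :=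
      ae_restrict_mem measurableSet_Icc
    filter_upwards [ae_restrict_of_ae h0, ae_restrict_of_ae (ae_cont hA'), h1] with x hx hc hx1
    have hx0 : 0 < x := lt_of_le_of_lt ha (lt_of_le_of_ne hx1.1 (Ne.symm hx))
    have := h x hx0 hc
    rw [AG_pos hx0.le, AG_pos (by linarith)]
    linarith

lemma shift_down (hA' : Monotone A') {ℓ : ℝ} (hℓ : 0 < ℓ)
    (h : ∀ a, 0 < a → ContinuousAt A' a → A' (a + ℓ) - A' a ≤ 2 * (gp (a + ℓ) - gp a))
    {η : ℝ} (hη : 0 < η) {a : ℝ} (ha : 0 ≤ a) :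
    ∫ u in (a + ℓ)..(a + ℓ + η), (A' u - AG u) ≤ ∫ u in a..(a + η), (A' u - AG u) := by
  have e1 : ∫ u in (a + ℓ)..(a + ℓ + η), (A' u - AG u) =
      ∫ u in a..(a + η), (A' (u + ℓ) - AG (u + ℓ)) := by
    rw [intervalIntegral.integral_comp_add_right (fun u => A' u - AG u) ℓ]
    congr 1
    ring
  rw [e1]
  refine intervalIntegral.integral_mono_ae_restrict (by linarith) ?_ (E_ii hA' _ _) ?_
  · have := (E_ii hA' (a + ℓ) (a + η + ℓ)).comp_add_right ℓ
    simpa using this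
  · have h0 : ∀ᵐ x : ℝ, x ≠ a := by
      rw [ae_iff]
      simp
    have h1 : ∀ᵐ x ∂(volume.restrict (Set.Icc a (a + η))), x ∈ Set.Icc a (a + η) :=
      ae_restrict_mem measurableSet_Icc
    filter_upwards [ae_restrict_of_ae h0, ae_restrict_of_ae (ae_cont hA'), h1] with x hx hc hx1
    have hx0 : 0 < x := lt_of_le_of_lt ha (lt_of_le_of_ne hx1.1 (Ne.symm hx))
    have := h x hx0 hc
    rw [AG_pos hx0.le, AG_pos (by linarith)]
    linarith

/-- iteration -/
lemma iter_up {G : ℝ → ℝ} {ℓ : ℝ} (hℓ : 0 < ℓ) (h : ∀ a, 0 ≤ a → G a ≤ G (a + ℓ)) (n : ℕ) {a : ℝ}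
    (ha : 0 ≤ a) : G a ≤ G (a + n * ℓ) := by
  induction n with
  | zero => simp
  | succ n ih =>
    have h1 := h (a + n * ℓ) (by positivity)
    have e : a + n * ℓ + ℓ = a + ((n + 1 : ℕ) : ℝ) * ℓ := by
      push_cast
      ring
    rw [e] at h1
    exact ih.trans h1

lemma iter_down {G : ℝ → ℝ} {ℓ : ℝ} (hℓ : 0 < ℓ) (h : ∀ a, 0 ≤ a → G (a + ℓ) ≤ G a) (n : ℕ)
    {a : ℝ} (ha : 0 ≤ a) : G (a + n * ℓ) ≤ G a := by
  have := iter_up (G := fun x => -G x) hℓ (fun a ha => neg_le_neg (h a ha)) n ha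
  linarith

/-- the short mean near zero -/
lemma near_zero (hA' : Monotone A') {ε η a : ℝ} (hη : 0 < η) (ha : 0 ≤ a)
    (haε : a ≤ ε) : η * (A' 0 - 1 - 2 * (ε + η)) ≤ ∫ u in a..(a + η), (A' u - AG u) := by
  have e1 : ∫ u in a..(a + η), (A' 0 - 1 - 2 * (ε + η)) = η * (A' 0 - 1 - 2 * (ε + η)) := by
    rw [intervalIntegral.integral_const, smul_eq_mul, add_sub_cancel_left]
  rw [← e1]
  refine intervalIntegral.integral_mono_on (by linarith) intervalIntegrable_const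
    (E_ii hA' _ _) fun x hx => ?_
  have hx0 : 0 ≤ x := ha.trans hx.1
  rw [AG_pos hx0]
  have h1 := hA' hx0
  have h2 := gp_le hx0
  have h3 := hx.2
  linarith

/-- the short mean to the left of `ℓ` -/
lemma near_ell (hA' : Monotone A') {ℓ η a ω : ℝ} (hη : 0 < η) (ha : 0 ≤ a)
    (haℓ : a + η ≤ ℓ) (haω : ℓ - a ≤ ω) (h0 : A' ℓ + A' 0 ≤ 2 + 2 * gp ℓ) :
    ∫ u in a..(a + η), (A' u - AG u) ≤ η * (1 - A' 0 + 2 * ω) := by
  have e1 : ∫ u in a..(a + η), (1 - A' 0 + 2 * ω) = η * (1 - A' 0 + 2 * ω) := by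
    rw [intervalIntegral.integral_const, smul_eq_mul, add_sub_cancel_left]
  rw [← e1]
  refine intervalIntegral.integral_mono_on (by linarith) (E_ii hA' _ _) intervalIntegrable_const
    fun x hx => ?_
  have hx0 : 0 ≤ x := ha.trans hx.1
  have hxℓ : x ≤ ℓ := hx.2.trans haℓ
  rw [AG_pos hx0]
  have h1 := hA' hxℓ
  have h2 : gp ℓ - gp x ≤ ℓ - x := by
    rw [gp_sub]
    have : ∫ u in x..ℓ, gd u ≤ ∫ u in x..ℓ, (1 : ℝ) :=
      intervalIntegral.integral_mono_on hxℓ (gd_cont.intervalIntegrable _ _)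
        intervalIntegrable_const fun u _ => gd_le u
    simpa using this
  have h3 := hx.1
  linarith

/-- **the diagonal is at most one**: lower bound for one of the lengths -/
theorem diag_lower (hA' : Monotone A') {C : ℝ}
    (hC : ∀ a, 1 ≤ a → |∫ u in (0 : ℝ)..a, (A' u - AG u)| ≤ C) {l1 l2 : ℝ} (hl1 : 0 < l1)
    (hl2 : 0 < l2) (hirr : Irrational (l1 / l2))
    (h1 : ∀ a, 0 < a → ContinuousAt A' a → 2 * (gp (a + l1) - gp a) ≤ A' (a + l1) - A' a)
    (h2 : (∀ a, 0 < a → ContinuousAt A' a → 2 * (gp (a + l2) - gp a) ≤ A' (a + l2) - A' a) ∨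
      (∀ a, 0 < a → ContinuousAt A' a → A' (a + l2) - A' a ≤ 2 * (gp (a + l2) - gp a))) :
    A' 0 ≤ 1 := by
  refine le_of_forall_pos_le_add fun ω hω => ?_
  set ε := ω / 4 with hε
  have hε0 : 0 < ε := by positivity
  set G : ℝ → ℝ := fun a => ∫ u in a..(a + ε), (A' u - AG u) with hG
  have hkey : ∃ M : ℝ, 1 ≤ M ∧ ∀ b, M ≤ b → ∃ a, 0 ≤ a ∧ a ≤ ε ∧ G a ≤ G b := by
    rcases h2 with h2 | h2
    · obtain ⟨M, hM, h⟩ := dens_sum hl1 hl2 hirr hε0
      refine ⟨max M 1, le_max_right _ _, fun b hb => ?_⟩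
      obtain ⟨n1, n2, h3, h4⟩ := h b ((le_max_left _ _).trans hb)
      refine ⟨b - (n1 * l1 + n2 * l2), h3, h4.le, ?_⟩
      have g1 := iter_up (G := G) hl1 (fun a ha => shift_up hA' hl1 h1 hε0 ha) n1 h3
      have g2 := iter_up (G := G) hl2 (fun a ha => shift_up hA' hl2 h2 hε0 ha) n2
        (a := b - (n1 * l1 + n2 * l2) + n1 * l1) (by positivity)
      have e : b - (n1 * l1 + n2 * l2) + n1 * l1 + n2 * l2 = b := by ring
      rw [e] at g2
      exact g1.trans g2
    · refine ⟨1, le_rfl, fun b hb => ?_⟩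
      obtain ⟨n1, n2, h3, h4⟩ := dens_diff hl1 hl2 hirr hε0 (y := b) (by linarith)
      refine ⟨b - (n1 * l1 - n2 * l2), h3, h4.le, ?_⟩
      have g1 := iter_up (G := G) hl1 (fun a ha => shift_up hA' hl1 h1 hε0 ha) n1 h3
      have g2 := iter_down (G := G) hl2 (fun a ha => shift_down hA' hl2 h2 hε0 ha) n2
        (a := b) (by linarith)
      have e : b - (n1 * l1 - n2 * l2) + n1 * l1 = b + n2 * l2 := by ring
      rw [e] at g1
      exact g1.trans g2
  obtain ⟨M, hM, hkey⟩ := hkey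
  have := mean_le (E_ii hA') hC hM hε0 (c0 := A' 0 - 1 - 2 * (ε + ε)) (fun b hb => by
    obtain ⟨a, ha0, ha1, ha2⟩ := hkey b hb
    exact (near_zero hA' hε0 ha0 ha1).trans ha2)
  rw [hε] at this
  linarith

/-- **the diagonal is at most one**: upper bounds -/
theorem diag_upper (hA' : Monotone A') {C : ℝ}
    (hC : ∀ a, 1 ≤ a → |∫ u in (0 : ℝ)..a, (A' u - AG u)| ≤ C) {l1 l2 : ℝ} (hl1 : 0 < l1)
    (hl2 : 0 < l2) (hirr : Irrational (l1 / l2))
    (h1 : ∀ a, 0 < a → ContinuousAt A' a → A' (a + l1) - A' a ≤ 2 * (gp (a + l1) - gp a))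
    (h2 : ∀ a, 0 < a → ContinuousAt A' a → A' (a + l2) - A' a ≤ 2 * (gp (a + l2) - gp a))
    (h0 : A' l1 + A' 0 ≤ 2 + 2 * gp l1) : A' 0 ≤ 1 := by
  refine le_of_forall_pos_le_add fun ω hω => ?_
  set ε := min (ω / 4) (l1 / 2) with hε
  have hε0 : 0 < ε := by positivity
  have hε1 : ε ≤ ω / 4 := min_le_left _ _
  have hε2 : ε ≤ l1 / 2 := min_le_right _ _
  set G : ℝ → ℝ := fun a => ∫ u in a..(a + ε), (A' u - AG u) with hG
  obtain ⟨M, hM, h⟩ := dens_sum hl1 hl2 hirr hε0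
  have := mean_ge (E_ii hA') hC (M := max (M + l1) 1) (le_max_right _ _) hε0
    (c0 := 1 - A' 0 + 2 * (2 * ε)) (fun b hb => by
    obtain ⟨n1, n2, h3, h4⟩ := h (b - (l1 - 2 * ε)) (by
      have := (le_max_left _ _).trans hb
      linarith)
    have ha : 0 ≤ b - (n1 * l1 + n2 * l2) := by linarith
    have g1 := iter_down (G := G) hl1 (fun a ha => shift_down hA' hl1 h1 hε0 ha) n1 ha
    have g2 := iter_down (G := G) hl2 (fun a ha => shift_down hA' hl2 h2 hε0 ha) n2
      (a := b - (n1 * l1 + n2 * l2) + n1 * l1) (by positivity)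
    have e : b - (n1 * l1 + n2 * l2) + n1 * l1 + n2 * l2 = b := by ring
    rw [e] at g2
    exact (g2.trans g1).trans (near_ell hA' hε0 ha (by linarith) (by linarith) h0))
  linarith

end

end Pool.Agent.L5helper12.TW
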