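import Pool.Agent.L5helper12.TW.Mont

set_option autoImplicit false

/-! # The block theorem -/

namespace Pool.Agent.L5helper12.TW

open Complex Filter Topology MeasureTheory Set
open H370 H370.A2 TH803TW
open Pool.Agent.Y750.OM
open Pool.Agent.Y744 (mz mz_nonneg Zt Zb mem_Zt mem_Zb QS Xf Xf_pos QS_abs_bound QS_le_abs
  split_pairs near_bound)
open Pool.Agent.Results.MP_103a5c_nt.BohrSetPairs (mont)

variable {R : ℝ → ℝ} {κ : ℝ} {f : ℝ → ℝ}

lemma T4.decay1 (h : T4 R κ f) : ∃ K, 0 ≤ K ∧ ∀ y, |f y| ≤ K / (1 + y ^ 2) := by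
  obtain ⟨D, hD, h1⟩ := h.decay
  refine ⟨D, hD, fun y => (h1 y).trans ?_⟩
  refine div_le_div_of_nonneg_left hD (by positivity) ?_
  nlinarith [sq_nonneg y, sq_nonneg (y ^ 2)]

lemma aux_sq {L e q : ℝ} (hL : 1 ≤ L) (he : 0 ≤ e) (h : 8 * q ≤ L * e) : q ≤ e / 8 * L ^ 2 := by
  have h1 : L ≤ L ^ 2 := by nlinarith
  have h2 : L * e ≤ L ^ 2 * e := mul_le_mul_of_nonneg_right h1 he
  linarith

lemma aux_mul {L V e m : ℝ} (hL : 0 ≤ L) (h : 8 * m ≤ V * e) : L * m ≤ e / 8 * (V * L) := by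
  have := mul_le_mul_of_nonneg_left h hL
  linarith

lemma aux_sum {q1 q2 q3 q4 m x r e : ℝ} (hr : 0 ≤ r) (he : e = 8 * r) (h1 : |q1 - m| ≤ r)
    (h2 : |q1 - q2| ≤ r + r) (h3 : |q2 - q3| ≤ r) (h4 : |q4 - q3| ≤ r) (h5 : |m - x| ≤ r) :
    |q4 - x| ≤ e := by
  rw [abs_le] at *
  constructor <;> linarith [h1.1, h1.2, h2.1, h2.2, h3.1, h3.2, h4.1, h4.2, h5.1, h5.2]

lemma edge_mass : ∃ V1 : ℝ, 20 ≤ V1 ∧ ∀ V : ℝ, V1 ≤ V → ∀ B : Finset ℂ,
    (∀ s ∈ B, s ∈ Zb V (2 * V) ∧ (s.im ≤ V + 1 ∨ 2 * V - 1 < s.im)) →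
    (∑ s ∈ B, mz s) ^ 2 ≤ 3 * V := by
  classical
  obtain ⟨V1, hV1, h⟩ := near_bound
  refine ⟨V1, hV1, fun V hV B hB => ?_⟩
  have hV20 : 20 ≤ V := hV1.trans hV
  have h1 := h V hV
  have h2 := h (2 * V) (by linarith)
  have e := Finset.sum_filter_add_sum_filter_not B (fun s : ℂ => s.im ≤ V + 1) (f := mz)
  have b1 : ∑ s ∈ B.filter (fun s : ℂ => s.im ≤ V + 1), mz s ≤
      ∑ s ∈ Zb (V - 1) (V - 1 + 3), mz s := by
    refine Finset.sum_le_sum_of_subset_of_nonneg (fun s hs => ?_) fun s _ _ => mz_nonneg s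
    obtain ⟨h3, h4⟩ := Finset.mem_filter.1 hs
    have h5 := (hB s h3).1
    rw [mem_Zb (by linarith)] at h5 ⊢
    obtain ⟨a1, a2, a3, a4, a5⟩ := h5
    exact ⟨a1, a2, by linarith, by linarith, a5⟩
  have b2 : ∑ s ∈ B.filter (fun s : ℂ => ¬ s.im ≤ V + 1), mz s ≤
      ∑ s ∈ Zb (2 * V - 1) (2 * V - 1 + 3), mz s := by
    refine Finset.sum_le_sum_of_subset_of_nonneg (fun s hs => ?_) fun s _ _ => mz_nonneg s
    obtain ⟨h3, h4⟩ := Finset.mem_filter.1 hs
    have h5 := (hB s h3).1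
    have h6 := (hB s h3).2.resolve_left h4
    rw [mem_Zb (by linarith)] at h5 ⊢
    obtain ⟨a1, a2, a3, a4, a5⟩ := h5
    exact ⟨a1, a2, h6, by linarith, a5⟩
  have c1 : 0 ≤ ∑ s ∈ B.filter (fun s : ℂ => s.im ≤ V + 1), mz s :=
    Finset.sum_nonneg fun s _ => mz_nonneg s
  have c2 : 0 ≤ ∑ s ∈ B.filter (fun s : ℂ => ¬ s.im ≤ V + 1), mz s :=
    Finset.sum_nonneg fun s _ => mz_nonneg s
  have d1 := pow_le_pow_left₀ c1 b1 2
  have d2 := pow_le_pow_left₀ c2 b2 2
  rw [← e]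
  nlinarith [sq_nonneg ((∑ s ∈ B.filter (fun s : ℂ => s.im ≤ V + 1), mz s) -
    ∑ s ∈ B.filter (fun s : ℂ => ¬ s.im ≤ V + 1), mz s)]

/-- the edges of a block do not matter -/
lemma edge_small {C V0 : ℝ} (hC : 0 < C) (hV0 : 20 ≤ V0)
    (hblk : ∀ V : ℝ, V0 ≤ V → PP1 (Zb V (2 * V)) mz (fun s => s.im) (Real.log V) ≤
      C * (V * Real.log V)) {K : ℝ} (hK : 0 ≤ K) (hf : ∀ y, |f y| ≤ K / (1 + y ^ 2))
    (hfe : ∀ x, f (-x) = f x) {η : ℝ} (hη : 0 < η) :
    ∃ V1 : ℝ, 20 ≤ V1 ∧ ∀ V : ℝ, V1 ≤ V →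
      |QS (Zb V (2 * V)) (Zb V (2 * V)) mz (fun s => s.im) f (Real.log V) -
        QS (Zf riemannZeta (V + 1) (2 * V - 1)) (Zf riemannZeta (V + 1) (2 * V - 1)) mz
          (fun s => s.im) f (Real.log V)| ≤ η * (V * Real.log V) := by
  classical
  obtain ⟨V2, hV2, hedge⟩ := edge_mass
  set lam : ℝ := η / (6400 * (K + 1) * C) with hlam
  have hlam0 : 0 < lam := by positivity
  obtain ⟨V3, hV3⟩ := (Real.tendsto_log_atTop.eventually_ge_atTop
    (2 * (9600 * K + 9600 * K / lam) / η)).exists_forall_of_atTop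
  refine ⟨max (max V0 V2) V3, hV0.trans ((le_max_left _ _).trans (le_max_left _ _)),
    fun V hV => ?_⟩
  have hVV0 : V0 ≤ V := ((le_max_left _ _).trans (le_max_left _ _)).trans hV
  have hVV2 : V2 ≤ V := ((le_max_right _ _).trans (le_max_left _ _)).trans hV
  have e1 := hV3 V ((le_max_right _ _).trans hV)
  have hV20 : 20 ≤ V := hV0.trans hVV0
  have hL1 : 1 ≤ Real.log V := by
    rw [Real.le_log_iff_exp_le (by linarith)]
    linarith [Real.exp_one_lt_d9]
  have hL0 : 0 < Real.log V := by linarith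
  set Y := V * Real.log V with hY
  set L := Real.log V with hL
  set Z := Zb V (2 * V) with hZ
  set A := Zf riemannZeta (V + 1) (2 * V - 1) with hA
  set B := Z \ A with hB
  have hAZ : A ⊆ Z := by
    intro s hs
    rw [hA, mem_Zf good_zeta (by linarith)] at hs
    rw [hZ, mem_Zb (by linarith)]
    obtain ⟨a1, a2, a3, a4, a5⟩ := hs
    exact ⟨a1, a2, by linarith, by linarith, a5⟩
  have hU : Z = A ∪ B := by rw [hB, Finset.union_sdiff_of_subset hAZ]
  have hd : Disjoint A B := by rw [hB]; exact Finset.disjoint_sdiff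
  have hBm : ∀ s ∈ B, s ∈ Zb V (2 * V) ∧ (s.im ≤ V + 1 ∨ 2 * V - 1 < s.im) := by
    intro s hs
    rw [hB, Finset.mem_sdiff] at hs
    refine ⟨hs.1, ?_⟩
    by_contra hc
    push Not at hc
    apply hs.2
    have h1 := hs.1
    rw [hZ, mem_Zb (by linarith)] at h1
    rw [hA, mem_Zf good_zeta (by linarith)]
    obtain ⟨a1, a2, a3, a4, a5⟩ := h1
    exact ⟨a1, a2, hc.1, hc.2, a5⟩
  have hmass := hedge V hVV2 B hBm
  have hPB : PP1 B mz (fun s => s.im) L ≤ 3 * V := (PP1_le_sq B mz_nonneg L).trans hmass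
  have hPA : PP1 A mz (fun s => s.im) L ≤ C * Y := (PP1_mono hAZ mz_nonneg L).trans (hblk V hVV0)
  have hsp := split_pairs hU hd (fun s s' : ℂ => mz s * mz s' *
    f ((s.im - s'.im) * L / (2 * Real.pi))) (fun s s' => by
      show mz s * mz s' * f ((s.im - s'.im) * L / (2 * Real.pi)) =
        mz s' * mz s * f ((s'.im - s.im) * L / (2 * Real.pi))
      rw [← hfe, mul_comm (mz s)]
      congr 2
      ring)
  have hdiff : QS Z Z mz (fun s => s.im) f L - QS A A mz (fun s => s.im) f L =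
      QS B B mz (fun s => s.im) f L + 2 * QS A B mz (fun s => s.im) f L := by
    unfold QS
    rw [hsp]
    ring
  rw [hdiff]
  have n1 := (QS_le_abs (x := fun s : ℂ => s.im) B B mz_nonneg f L).trans
    (QS_abs_bound (x := fun s : ℂ => s.im) B B mz_nonneg hf hL0 one_pos)
  have n2 := (QS_le_abs (x := fun s : ℂ => s.im) A B mz_nonneg f L).trans
    (QS_abs_bound (x := fun s : ℂ => s.im) A B mz_nonneg hf hL0 hlam0)
  have hPB0 : 0 ≤ PP1 B mz (fun s => s.im) L := PP1_nonneg B mz_nonneg L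
  have hPA0 : 0 ≤ PP1 A mz (fun s => s.im) L := PP1_nonneg A mz_nonneg L
  have m1 : 1600 * K * (1 * PP1 B mz (fun s => s.im) L + 1 / 1 * PP1 B mz (fun s => s.im) L) ≤
      9600 * K * V := by
    have : 1600 * K * (1 * PP1 B mz (fun s => s.im) L + 1 / 1 * PP1 B mz (fun s => s.im) L) =
      3200 * K * PP1 B mz (fun s => s.im) L := by ring
    rw [this]
    have h2 := mul_le_mul_of_nonneg_left hPB (show 0 ≤ 3200 * K by positivity)
    linarith
  have m2 : 1600 * K * (lam * PP1 A mz (fun s => s.im) L + 1 / lam * PP1 B mz (fun s => s.im) L) ≤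
      η / 4 * Y + 4800 * K / lam * V := by
    have h1 : lam * PP1 A mz (fun s => s.im) L ≤ lam * (C * Y) :=
      mul_le_mul_of_nonneg_left hPA hlam0.le
    have h2 : 1 / lam * PP1 B mz (fun s => s.im) L ≤ 1 / lam * (3 * V) :=
      mul_le_mul_of_nonneg_left hPB (by positivity)
    have h3 : 1600 * K * (lam * (C * Y)) ≤ η / 4 * Y := by
      have hY0 : 0 ≤ Y := by positivity
      have h4 : 1600 * K * (lam * (C * Y)) = (1600 * K * lam * C) * Y := by ring
      rw [h4]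
      refine mul_le_mul_of_nonneg_right ?_ hY0
      rw [hlam]
      have h5 : 1600 * K * (η / (6400 * (K + 1) * C)) * C = η / 4 * (K / (K + 1)) := by
        field_simp
        ring
      rw [h5]
      have h6 : K / (K + 1) ≤ 1 := by rw [div_le_one (by positivity)]; linarith
      have : 0 ≤ η / 4 := by positivity
      nlinarith
    calc 1600 * K * (lam * PP1 A mz (fun s => s.im) L + 1 / lam * PP1 B mz (fun s => s.im) L) ≤
        1600 * K * (lam * (C * Y) + 1 / lam * (3 * V)) := by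
          refine mul_le_mul_of_nonneg_left ?_ (by positivity)
          linarith
      _ = 1600 * K * (lam * (C * Y)) + 4800 * K / lam * V := by ring
      _ ≤ _ := by linarith
  have m3 : (9600 * K + 9600 * K / lam) * V ≤ η / 2 * Y := by
    rw [div_le_iff₀ hη] at e1
    rw [hY]
    have : 0 ≤ V := by linarith
    nlinarith
  calc |QS B B mz (fun s => s.im) f L + 2 * QS A B mz (fun s => s.im) f L| ≤
      |QS B B mz (fun s => s.im) f L| + 2 * |QS A B mz (fun s => s.im) f L| := by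
        refine (abs_add_le _ _).trans ?_
        rw [abs_mul, abs_of_pos (by norm_num : (0 : ℝ) < 2)]
    _ ≤ 9600 * K * V + 2 * (η / 4 * Y + 4800 * K / lam * V) := by
        have := n1.trans m1
        have := n2.trans m2
        linarith
    _ = (9600 * K + 9600 * K / lam) * V + η / 2 * Y := by ring
    _ ≤ η * Y := by linarith

/-- **Montgomery's theorem for the ordinates of a block with few zeros off the line** -/
theorem blk_main : ∃ δ : ℝ, 0 < δ ∧ δ ≤ 1 ∧ ∀ κ : ℝ, 0 < κ → 3 * κ ≤ δ →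
    ∀ (R f : ℝ → ℝ), T4 R κ f → ∀ ε : ℝ, 0 < ε → ∃ ρ : ℝ, 0 < ρ ∧ ∃ V1 : ℝ, 20 ≤ V1 ∧
    ∀ V : ℝ, V1 ≤ V → ∑ s ∈ Zb V (2 * V), wo s ≤ ρ * (V * Real.log V) →
      |QS (Zb V (2 * V)) (Zb V (2 * V)) mz (fun s => s.im) f (Real.log V) - Xf V * mont R| ≤
        ε * (V * Real.log V) := by
  obtain ⟨δ, C1, V0, hδ, hδ1, hC1, hV0, hblk, hoff⟩ := blk_pairs
  obtain ⟨Cp, hCp, hJD⟩ := JD_planch
  have hpi := Real.pi_pos
  have hpi3 := Real.pi_gt_three
  refine ⟨δ, hδ, hδ1, fun κ hκ hκδ R f h ε hε => ?_⟩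
  have hκ1 : κ < 1 := by linarith
  obtain ⟨B, hB, hRB⟩ := h.bound
  obtain ⟨K, hlip⟩ := h.lip
  obtain ⟨D, hD, hfD⟩ := h.decay
  obtain ⟨K1, hK1, hfK⟩ := h.decay1
  set A0 : ℝ := |R 0| + ∫ α in (-κ)..κ, |α| * |R α| with hA0
  have hA00 : 0 ≤ A0 := by
    have : 0 ≤ ∫ α in (-κ)..κ, |α| * |R α| :=
      intervalIntegral.integral_nonneg (by linarith) fun α _ => by positivity
    have := abs_nonneg (R 0)
    linarith
  set c : ℝ := ε / (8 * (A0 + 1)) with hc
  have hc0 : 0 < c := by positivity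
  set η : ℝ := ε / (8 * ((1 + 1 / c) * B * (Cp * κ ^ 5))) with hη
  have hη0 : 0 < η := by positivity
  obtain ⟨ρ, hρ, hoff⟩ := hoff κ hκ hκδ η hη0
  obtain ⟨T1, hT1, hpsi1⟩ := psi_full κ (ε / 8) hκ hκ1 (by positivity) R K hlip h.supp
  obtain ⟨T2, hT2, hpsi2⟩ := psi_full κ 1 hκ hκ1 one_pos (fun x => |R x|) K (fun x y =>
    (abs_abs_sub_abs_le_abs_sub _ _).trans (hlip x y)) (fun x hx => by
      show |R x| = 0
      rw [h.supp x hx, abs_zero])
  obtain ⟨V2, hV2, hedge⟩ := edge_small hC1 hV0 hblk hK1 hfK h.even (η := ε / 8) (by positivity)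
  obtain ⟨V3, hV3⟩ := ((Real.tendsto_log_atTop.eventually_ge_atTop (1 / κ)).and
    ((Real.tendsto_log_atTop.eventually_ge_atTop (8 * (Real.pi ^ 2 * D * 3200 * C1) / ε)).and
    (eventually_ge_atTop (8 * |mont R| / ε)))).exists_forall_of_atTop
  refine ⟨ρ, hρ, max (max V0 V2) (max (max T1 T2) V3),
    hV0.trans ((le_max_left _ _).trans (le_max_left _ _)), fun V hV hsm => ?_⟩
  have hVV0 : V0 ≤ V := ((le_max_left _ _).trans (le_max_left _ _)).trans hV
  have hVV2 : V2 ≤ V := ((le_max_right _ _).trans (le_max_left _ _)).trans hV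
  have hVT1 : T1 ≤ V :=
    (((le_max_left _ _).trans (le_max_left _ _)).trans (le_max_right _ _)).trans hV
  have hVT2 : T2 ≤ V :=
    (((le_max_right _ _).trans (le_max_left _ _)).trans (le_max_right _ _)).trans hV
  obtain ⟨e1, e2, e3⟩ := hV3 V (((le_max_right _ _).trans (le_max_right _ _)).trans hV)
  have hV20 : 20 ≤ V := hV0.trans hVV0
  have hL1 : 1 ≤ Real.log V := by
    rw [Real.le_log_iff_exp_le (by linarith)]
    linarith [Real.exp_one_lt_d9]
  have hL0 : 0 < Real.log V := by linarith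
  set Y := V * Real.log V with hY
  set L := Real.log V with hL
  set Z := Zb V (2 * V) with hZ
  set A := Zf riemannZeta (V + 1) (2 * V - 1) with hA
  set M := (V - 2) * L / (2 * Real.pi) with hM
  have hY0 : 0 < Y := by positivity
  have hM0 : 0 ≤ M := by
    rw [hM]
    have : 0 ≤ V - 2 := by linarith
    positivity
  have hMY : M ≤ Y := by
    rw [hM, div_le_iff₀ (by positivity), hY]
    have h1 : (V - 2) * L ≤ V * L := mul_le_mul_of_nonneg_right (by linarith) hL0.le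
    have h2 : V * L ≤ V * L * (2 * Real.pi) := by nlinarith
    linarith
  have hAZ : A ⊆ Z := by
    intro s hs
    rw [hA, mem_Zf good_zeta (by linarith)] at hs
    rw [hZ, mem_Zb (by linarith)]
    obtain ⟨a1, a2, a3, a4, a5⟩ := hs
    exact ⟨a1, a2, by linarith, by linarith, a5⟩
  -- the terms
  have t1 := (hpsi1 V hVT1).2
  rw [h.mont_eq hκ hκ1] at t1
  have t2 := (hpsi2 V hVT2).2
  have t2' : ∫ α in (-κ)..κ, |R α| * JN riemannZeta (V + 1) (2 * V - 1) (α * L) ≤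
      Y * (A0 + 1) := by
    have h1 := (abs_le.1 t2).2
    have h2 : (∫ α in (-κ)..κ, |R α| * JN riemannZeta (V + 1) (2 * V - 1) (α * L)) ≤
        M * (A0 + 1) := by
      have e : M * (A0 + 1) = M * (|R 0| + ∫ α in (-κ)..κ, |α| * |R α|) + 1 * M := by
        rw [hA0]; ring
      rw [e]
      linarith
    exact h2.trans (mul_le_mul_of_nonneg_right hMY (by linarith))
  have hκL : 1 ≤ κ * L := by
    rw [div_le_iff₀ hκ] at e1
    linarith
  obtain ⟨j1, j2⟩ := hJD κ L hκ hκL (V + 1) (2 * V - 1) (by linarith)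
  have t3 := JJ_JB h hκ hB hRB hc0 (L := L) (U1 := V + 1) (U2 := 2 * V - 1) (by linarith) j1
  have hoffA : ∑ s ∈ A, wo s ≤ ρ * (V * Real.log V) :=
    (Finset.sum_le_sum_of_subset_of_nonneg hAZ fun s _ _ => wo_nonneg s).trans hsm
  have t3' := hoff V hVV0 A hAZ hoffA
  have t3'' : (1 + 1 / c) * B * (∫ α in (-κ)..κ, JD A mz L α) ≤ ε / 8 * Y := by
    have h1 : (∫ α in (-κ)..κ, JD A mz L α) ≤ Cp * κ ^ 5 * (η * Y) :=
      j2.trans (mul_le_mul_of_nonneg_left t3' (by positivity))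
    calc (1 + 1 / c) * B * (∫ α in (-κ)..κ, JD A mz L α) ≤
        (1 + 1 / c) * B * (Cp * κ ^ 5 * (η * Y)) := mul_le_mul_of_nonneg_left h1 (by positivity)
      _ = ε / 8 * Y := by
        rw [hη]
        field_simp
  have t3''' : c * (∫ α in (-κ)..κ, |R α| * JN riemannZeta (V + 1) (2 * V - 1) (α * L)) ≤
      ε / 8 * Y := by
    calc c * (∫ α in (-κ)..κ, |R α| * JN riemannZeta (V + 1) (2 * V - 1) (α * L)) ≤
        c * (Y * (A0 + 1)) := mul_le_mul_of_nonneg_left t2' hc0.le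
      _ = ε / 8 * Y := by
        rw [hc]
        field_simp
  rw [JB_int h A L] at t3
  have t4 := gauss_rem hD hfD A hL0
  have hPA : PP1 A mz (fun s => s.im) L ≤ C1 * Y := (PP1_mono hAZ mz_nonneg L).trans (hblk V hVV0)
  have t4' : Real.pi ^ 2 * D / L ^ 2 * (3200 * PP1 A mz (fun s => s.im) L) ≤ ε / 8 * Y := by
    calc Real.pi ^ 2 * D / L ^ 2 * (3200 * PP1 A mz (fun s => s.im) L) ≤
        Real.pi ^ 2 * D / L ^ 2 * (3200 * (C1 * Y)) := by gcongr
      _ = (Real.pi ^ 2 * D * 3200 * C1) / L ^ 2 * Y := by ring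
      _ ≤ ε / 8 * Y := by
        refine mul_le_mul_of_nonneg_right ?_ hY0.le
        rw [div_le_iff₀ (by positivity)]
        rw [div_le_iff₀ hε] at e2
        exact aux_sq hL1 hε.le e2
  have t5 := hedge V hVV2
  have t6 : |M * mont R - Xf V * mont R| ≤ ε / 8 * Y := by
    have h1 : M * mont R - Xf V * mont R = -(L / Real.pi * mont R) := by
      unfold Pool.Agent.Y744.Xf
      rw [hM]
      field_simp
      ring
    rw [h1, abs_neg, abs_mul, abs_of_pos (by positivity)]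
    rw [div_le_iff₀ hε] at e3
    have h2 : L / Real.pi ≤ L := div_le_self hL0.le (by linarith)
    exact (mul_le_mul_of_nonneg_right h2 (abs_nonneg _)).trans (aux_mul hL0.le e3)
  -- assembly
  set q1 := ∫ α in (-κ)..κ, R α * JN riemannZeta (V + 1) (2 * V - 1) (α * L) with hq1
  set q2 := ∑ s ∈ A, ∑ s' ∈ A, mz s * mz s' * (f ((s.im - s'.im) * L / (2 * Real.pi)) *
        Real.exp (-(s.im - s'.im) ^ 2 / 4)) with hq2
  set q3 := QS A A mz (fun s => s.im) f L with hq3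
  set q4 := QS Z Z mz (fun s => s.im) f L with hq4
  have u1 : |q1 - M * mont R| ≤ ε / 8 * Y := t1.trans (mul_le_mul_of_nonneg_left hMY (by positivity))
  have u3 : |q1 - q2| ≤ ε / 8 * Y + ε / 8 * Y := t3.trans (add_le_add t3''' t3'')
  have u4 : |q2 - q3| ≤ ε / 8 * Y := t4.trans t4'
  exact aux_sum (by positivity) (by ring) u1 u3 u4 t5 t6

end Pool.Agent.L5helper12.TW
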