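import Mathlib

set_option autoImplicit false

/-! # Pair sums and local sums -/

namespace Pool.Agent.L5helper12.TW

open Complex Filter Topology MeasureTheory Set

/-- local sum -/
noncomputable def loc (S : Finset ℂ) (w : ℂ → ℝ) (L t : ℝ) : ℝ :=
  ∑ s ∈ S, w s * (1 / (1 + L * |s.im - t|) ^ 2)

lemma loc_cont (S : Finset ℂ) (w : ℂ → ℝ) {L : ℝ} (hL : 0 ≤ L) : Continuous (loc S w L) := by
  unfold loc
  refine continuous_finsetSum _ fun s _ => continuous_const.mul ?_
  refine continuous_const.div (by fun_prop) fun t => ?_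
  positivity

lemma loc_nonneg {S : Finset ℂ} {w : ℂ → ℝ} (hw : ∀ s, 0 ≤ w s) (L t : ℝ) : 0 ≤ loc S w L t := by
  unfold loc
  refine Finset.sum_nonneg fun s _ => mul_nonneg (hw s) (by positivity)

/-- one pair -/
lemma pair_one {δ L : ℝ} (hδ : 0 < δ) (hL : 0 < L) {A B g g' : ℝ} (h1 : A ≤ g) (h2 : g + 1 / L ≤ B) :
    1 / (1 + (δ * (L * (g - g'))) ^ 2) ≤ 4 * (8 + 2 / δ ^ 2) * L *
      ∫ t in A..B, 1 / (1 + L * |g - t|) ^ 2 * (1 / (1 + L * |g' - t|) ^ 2) := by
  have hcK : ∀ g : ℝ, Continuous fun t : ℝ => 1 / (1 + L * |g - t|) ^ 2 := by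
    intro g
    refine continuous_const.div (by fun_prop) fun t => ?_
    positivity
  have hc : Continuous fun t : ℝ => 1 / (1 + L * |g - t|) ^ 2 * (1 / (1 + L * |g' - t|) ^ 2) :=
    (hcK g).mul (hcK g')
  have hL1 : 0 < 1 / L := by positivity
  have e1 : ∫ t in g..(g + 1 / L), 1 / 4 * (1 / (2 + L * |g - g'|) ^ 2) =
      1 / L * (1 / 4 * (1 / (2 + L * |g - g'|) ^ 2)) := by
    rw [intervalIntegral.integral_const, smul_eq_mul, add_sub_cancel_left]
  have h3 : ∫ t in g..(g + 1 / L), 1 / 4 * (1 / (2 + L * |g - g'|) ^ 2) ≤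
      ∫ t in g..(g + 1 / L), 1 / (1 + L * |g - t|) ^ 2 * (1 / (1 + L * |g' - t|) ^ 2) := by
    refine intervalIntegral.integral_mono_on (by linarith) (continuous_const.intervalIntegrable _ _)
      (hc.intervalIntegrable _ _) fun t ht => ?_
    have h4 : L * |g - t| ≤ 1 := by
      rw [abs_sub_comm, abs_of_nonneg (by linarith [ht.1])]
      have : t - g ≤ 1 / L := by linarith [ht.2]
      calc L * (t - g) ≤ L * (1 / L) := by gcongr
        _ = 1 := by field_simp
    have h5 : L * |g' - t| ≤ L * |g - g'| + 1 := by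
      have : |g' - t| ≤ |g - g'| + |g - t| := by
        have e : g' - t = -(g - g') + (g - t) := by ring
        rw [e]
        refine (abs_add_le _ _).trans ?_
        rw [abs_neg]
      nlinarith
    have h6 : 0 ≤ L * |g - t| := by positivity
    have h7 : 0 ≤ L * |g' - t| := by positivity
    have h8 : 0 ≤ L * |g - g'| := by positivity
    refine mul_le_mul ?_ ?_ (by positivity) (by positivity)
    · rw [div_le_div_iff₀ (by norm_num) (by positivity)]
      nlinarith
    · refine one_div_le_one_div_of_le (by positivity) ?_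
      refine pow_le_pow_left₀ (by positivity) ?_ 2
      linarith
  have h4 : ∫ t in g..(g + 1 / L), 1 / (1 + L * |g - t|) ^ 2 * (1 / (1 + L * |g' - t|) ^ 2) ≤
      ∫ t in A..B, 1 / (1 + L * |g - t|) ^ 2 * (1 / (1 + L * |g' - t|) ^ 2) := by
    refine intervalIntegral.integral_mono_interval h1 (by linarith) h2
      (Eventually.of_forall fun t => ?_) (hc.intervalIntegrable _ _)
    show 0 ≤ 1 / (1 + L * |g - t|) ^ 2 * (1 / (1 + L * |g' - t|) ^ 2)
    positivity
  rw [e1] at h3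
  have h5 := h3.trans h4
  have h6 : 4 * (8 + 2 / δ ^ 2) * L * (1 / L * (1 / 4 * (1 / (2 + L * |g - g'|) ^ 2))) =
      (8 + 2 / δ ^ 2) / (2 + L * |g - g'|) ^ 2 := by
    field_simp
  refine le_trans ?_ (mul_le_mul_of_nonneg_left h5 (by positivity))
  rw [h6]
  have h8 : 0 ≤ L * |g - g'| := by positivity
  rw [div_le_div_iff₀ (by positivity) (by positivity), one_mul]
  have e2 : (δ * (L * (g - g'))) ^ 2 = δ ^ 2 * (L * |g - g'|) ^ 2 := by
    rw [mul_pow, mul_pow L, mul_pow L, sq_abs]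
  rw [e2]
  set x := L * |g - g'| with hx
  have h9 : (8 + 2 / δ ^ 2) * (1 + δ ^ 2 * x ^ 2) = 8 + 2 / δ ^ 2 + 8 * δ ^ 2 * x ^ 2 + 2 * x ^ 2 := by
    field_simp
    ring
  rw [h9]
  have h10 : 0 < 2 / δ ^ 2 := by positivity
  have h11 : 0 ≤ δ ^ 2 * x ^ 2 := by positivity
  nlinarith [sq_nonneg (x - 2)]

/-- **from pair sums to local sums** -/
theorem pair_loc {δ L : ℝ} (hδ : 0 < δ) (hL : 0 < L) {A B : ℝ} {S : Finset ℂ}
    (h1 : ∀ s ∈ S, A ≤ s.im) (h2 : ∀ s ∈ S, s.im + 1 / L ≤ B) {w : ℂ → ℝ} (hw : ∀ s, 0 ≤ w s) :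
    ∑ s ∈ S, ∑ s' ∈ S, w s * w s' * (1 / (1 + (δ * (L * (s.im - s'.im))) ^ 2)) ≤
      4 * (8 + 2 / δ ^ 2) * L * ∫ t in A..B, loc S w L t ^ 2 := by
  have hcK : ∀ g : ℝ, Continuous fun t : ℝ => 1 / (1 + L * |g - t|) ^ 2 := by
    intro g
    refine continuous_const.div (by fun_prop) fun t => ?_
    positivity
  have e1 : ∀ t, loc S w L t ^ 2 = ∑ s ∈ S, ∑ s' ∈ S, (w s * w s') *
      (1 / (1 + L * |s.im - t|) ^ 2 * (1 / (1 + L * |s'.im - t|) ^ 2)) := by
    intro t
    unfold loc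
    rw [sq, Finset.sum_mul_sum]
    refine Finset.sum_congr rfl fun s _ => Finset.sum_congr rfl fun s' _ => ?_
    ring
  have hi : ∀ s s' : ℂ, IntervalIntegrable (fun t : ℝ => (w s * w s') *
      (1 / (1 + L * |s.im - t|) ^ 2 * (1 / (1 + L * |s'.im - t|) ^ 2))) volume A B := fun s s' =>
    (continuous_const.mul ((hcK s.im).mul (hcK s'.im))).intervalIntegrable _ _
  have hi2 : ∀ s : ℂ, IntervalIntegrable (fun t : ℝ => ∑ s' ∈ S, (w s * w s') *
      (1 / (1 + L * |s.im - t|) ^ 2 * (1 / (1 + L * |s'.im - t|) ^ 2))) volume A B := fun s =>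
    (continuous_finsetSum _ fun s' _ =>
      continuous_const.mul ((hcK s.im).mul (hcK s'.im))).intervalIntegrable _ _
  simp_rw [e1]
  rw [intervalIntegral.integral_finsetSum fun s _ => hi2 s, Finset.mul_sum]
  refine Finset.sum_le_sum fun s hs => ?_
  rw [intervalIntegral.integral_finsetSum fun s' _ => hi s s', Finset.mul_sum]
  refine Finset.sum_le_sum fun s' hs' => ?_
  rw [intervalIntegral.integral_const_mul]
  have h3 := pair_one (g' := s'.im) hδ hL (h1 s hs) (h2 s hs)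
  have h4 := mul_le_mul_of_nonneg_left h3 (mul_nonneg (hw s) (hw s'))
  refine h4.trans (le_of_eq ?_)
  ring

/-- the integral of the local sum -/
lemma loc_int {L : ℝ} (hL : 0 < L) {A B : ℝ} (hAB : A ≤ B) {S : Finset ℂ} {w : ℂ → ℝ}
    (hw : ∀ s, 0 ≤ w s) : ∫ t in A..B, loc S w L t ≤ Real.pi / L * ∑ s ∈ S, w s := by
  have hcK : ∀ g : ℝ, Continuous fun t : ℝ => 1 / (1 + L * |g - t|) ^ 2 := by
    intro g
    refine continuous_const.div (by fun_prop) fun t => ?_
    positivity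
  unfold loc
  rw [intervalIntegral.integral_finsetSum fun s _ =>
    (continuous_const.mul (hcK s.im)).intervalIntegrable _ _, Finset.mul_sum]
  refine Finset.sum_le_sum fun s _ => ?_
  rw [intervalIntegral.integral_const_mul, mul_comm (Real.pi / L)]
  refine mul_le_mul_of_nonneg_left ?_ (hw s)
  have e : ∀ t : ℝ, (1 + (L * (t - s.im)) ^ 2)⁻¹ =
      (fun z : ℝ => (1 + z ^ 2)⁻¹) (L * t - L * s.im) := by
    intro t
    simp only
    congr 2
    ring
  have hint : Integrable fun t : ℝ => (1 + (L * (t - s.im)) ^ 2)⁻¹ := by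
    simp_rw [e]
    have h1 : Integrable (fun z : ℝ => (fun z : ℝ => (1 + z ^ 2)⁻¹) (z - L * s.im)) :=
      integrable_inv_one_add_sq.comp_sub_right _
    exact h1.comp_mul_left' hL.ne'
  have hval : ∫ t : ℝ, (1 + (L * (t - s.im)) ^ 2)⁻¹ = Real.pi / L := by
    simp_rw [e]
    rw [Measure.integral_comp_mul_left (fun z : ℝ => (fun z : ℝ => (1 + z ^ 2)⁻¹) (z - L * s.im)),
      integral_sub_right_eq_self (fun z : ℝ => (1 + z ^ 2)⁻¹), integral_univ_inv_one_add_sq,
      abs_of_pos (by positivity), smul_eq_mul]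
    field_simp
  calc ∫ t in A..B, 1 / (1 + L * |s.im - t|) ^ 2 ≤ ∫ t in A..B, (1 + (L * (t - s.im)) ^ 2)⁻¹ := by
        refine intervalIntegral.integral_mono_on hAB ((hcK s.im).intervalIntegrable _ _)
          hint.intervalIntegrable fun t _ => ?_
        rw [one_div]
        refine inv_anti₀ (by positivity) ?_
        have e2 : (L * (t - s.im)) ^ 2 = (L * |s.im - t|) ^ 2 := by
          rw [mul_pow, mul_pow, sq_abs]
          ring
        rw [e2]
        have : 0 ≤ L * |s.im - t| := by positivity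
        nlinarith
    _ ≤ ∫ t : ℝ, (1 + (L * (t - s.im)) ^ 2)⁻¹ := by
        rw [intervalIntegral.integral_of_le hAB]
        exact setIntegral_le_integral hint (Eventually.of_forall fun t => by positivity)
    _ = Real.pi / L := hval

end Pool.Agent.L5helper12.TW
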