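import Pool.Agent.L5helper12.TW.Crit
import Pool.Agent.L5helper12.TW.Diag
import Pool.Agent.L5helper84.UV.Half

set_option autoImplicit false

/-! # The mean of the counting function, and the diagonal along a filter -/

namespace Pool.Agent.L5helper12.TW

open Filter Topology MeasureTheory
open Pool.Agent.Y744 (AG gp gp_cont gp_sub gp_mono gp_nonneg gp_le gp_zero gd gd_le gd_cont AG_meas
  mz mz_nonneg Zt mem_Zt Xf Xf_pos PC PC_abs dd Aa Aa_mono Aa_neg Aa_diag Ww Ww_lower Ww_upper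
  AG_bound cond_limit)
open Pool.Agent.L5helper84.UV (Pn Ph kp pair_mean Fm)

lemma Ph_gp (u : ℝ) : Ph u = gp u := by
  unfold Pool.Agent.L5helper84.UV.Ph Pool.Agent.Y744.gp
  refine intervalIntegral.integral_congr_ae ?_
  have h0 : ∀ᵐ x : ℝ, x ≠ 0 := by
    rw [ae_iff]
    simp
  filter_upwards [h0] with x hx _
  unfold Pool.Agent.L5helper84.UV.Fm Pool.Agent.Y744.gd
  have hpi := Real.pi_pos
  rw [Real.sinc_of_ne_zero (by positivity)]

lemma PC_Pn {T : ℝ} (hT : 1 < T) (u : ℝ) :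
    PC T (Set.Icc 0 u) = Pn (Zt T) (2 * Real.pi / Real.log T * u) := by
  have hL : 0 < Real.log T := Real.log_pos hT
  have hpi := Real.pi_pos
  unfold Pool.Agent.Y744.PC Pool.Agent.L5helper84.UV.Pn
  refine Finset.sum_congr rfl fun s _ => Finset.sum_congr rfl fun s' _ => ?_
  show mz s * mz s' * _ = mz s * mz s' * _
  congr 1
  unfold Pool.Agent.L5helper84.UV.kp
  have e1 : dd T s s' ∈ Set.Icc 0 u ↔
      (0 ≤ s.im - s'.im ∧ s.im - s'.im ≤ 2 * Real.pi / Real.log T * u) := by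
    unfold Pool.Agent.Y744.dd
    rw [Set.mem_Icc, div_le_iff₀ (by positivity), div_mul_eq_mul_div (2 * Real.pi) (Real.log T) u,
      le_div_iff₀ hL, mul_comm u, div_nonneg_iff]
    constructor
    · rintro ⟨h1, h2⟩
      refine ⟨?_, h2⟩
      rcases h1 with h1 | h1
      · nlinarith [h1.1]
      · linarith [h1.2]
    · rintro ⟨h1, h2⟩
      exact ⟨Or.inl ⟨by positivity, by positivity⟩, h2⟩
  by_cases h : dd T s s' ∈ Set.Icc 0 u
  · rw [Set.indicator_of_mem h, if_pos (e1.1 h)]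
  · rw [Set.indicator_of_notMem h, if_neg (fun h' => h (e1.2 h'))]

lemma PC_zero {T : ℝ} (hT : 1 < T) : PC T {x | |x| ≤ 0} = Pn (Zt T) 0 := by
  have h1 := PC_Pn hT 0
  rw [mul_zero] at h1
  rw [← h1]
  congr 1
  ext x
  simp only [Set.mem_ofPred_eq, abs_nonpos_iff, Set.mem_Icc]
  constructor
  · rintro rfl
    exact ⟨le_rfl, le_rfl⟩
  · rintro ⟨h2, h3⟩
    exact le_antisymm h3 h2

/-- the mean of the counting function -/
theorem mean_Aa : ∃ C : ℝ, 0 < C ∧ ∀ a : ℝ, 1 ≤ a → ∀ᶠ T in atTop,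
    |∫ u in (0 : ℝ)..a, (Aa T u - AG u)| ≤ C := by
  obtain ⟨C, X0, hC, hX0, h⟩ := pair_mean
  have hpi := Real.pi_pos
  refine ⟨2 * C, by positivity, fun a ha => ?_⟩
  filter_upwards [eventually_ge_atTop X0, Real.tendsto_log_atTop.eventually_ge_atTop (a ^ 2)]
    with T hT hL
  have hT1 : 1 < T := by linarith
  have hX := Xf_pos hT1
  have h1 := h T hT (Zt T) (fun s => mem_Zt) a ha hL
  have e0 : T * Real.log T / (2 * Real.pi) = Xf T := rfl
  rw [e0] at h1
  have e1 : ∫ u in (0 : ℝ)..a, (Pn (Zt T) (2 * Real.pi / Real.log T * u) - Pn (Zt T) 0 / 2 -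
        Xf T * (1 / 2 + Ph u)) = (Xf T / 2) * ∫ u in (0 : ℝ)..a, (Aa T u - AG u) := by
    rw [← intervalIntegral.integral_const_mul]
    refine intervalIntegral.integral_congr fun u hu => ?_
    rw [Set.uIcc_of_le (by linarith)] at hu
    show Pn (Zt T) (2 * Real.pi / Real.log T * u) - Pn (Zt T) 0 / 2 -
        Xf T * (1 / 2 + Ph u) = Xf T / 2 * (Aa T u - AG u)
    unfold Pool.Agent.Y744.Aa
    rw [PC_abs T hu.1, PC_Pn hT1, PC_zero hT1, AG_pos hu.1, Ph_gp]
    field_simp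
  rw [e1, abs_mul, abs_of_pos (by positivity)] at h1
  have h2 : Xf T / 2 * |∫ u in (0 : ℝ)..a, (Aa T u - AG u)| ≤ Xf T / 2 * (2 * C) := by
    linarith
  exact le_of_mul_le_mul_left h2 (by positivity)

/-- the mean of a limit function -/
lemma mean_limit {C : ℝ} (hC : ∀ a : ℝ, 1 ≤ a → ∀ᶠ T in atTop,
    |∫ u in (0 : ℝ)..a, (Aa T u - AG u)| ≤ C) (g : Ultrafilter ℝ) (hg : (g : Filter ℝ) ≤ atTop)
    {A' : ℝ → ℝ} (hA' : Monotone A')
    (hlim : ∀ y, Tendsto (fun T => Aa T y) (g : Filter ℝ) (𝓝 (A' y))) (a : ℝ) (ha : 1 ≤ a) :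
    |∫ u in (0 : ℝ)..a, (A' u - AG u)| ≤ C := by
  obtain ⟨C0, T0, hT0, hb⟩ := Aa_bd
  have hmono : ∀ T, T0 ≤ T → Monotone (Aa T) := fun T hT => Aa_mono (by linarith)
  set w : ℝ → ℝ := (Set.Ioc (0 : ℝ) a).indicator (fun _ => (1 : ℝ)) with hw
  have hwm : Measurable w := measurable_const.indicator measurableSet_Ioc
  have hwd : ∀ y, |w y| ≤ (1 + a ^ 2) ^ 2 / (1 + y ^ 2) ^ 2 := by
    intro y
    by_cases hy : y ∈ Set.Ioc (0 : ℝ) a
    · rw [hw, Set.indicator_of_mem hy, abs_one, le_div_iff₀ (by positivity), one_mul]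
      refine pow_le_pow_left₀ (by positivity) ?_ 2
      have := pow_le_pow_left₀ hy.1.le hy.2 2
      linarith
    · rw [hw, Set.indicator_of_notMem hy, abs_zero]
      positivity
  have hint : ∀ B : ℝ → ℝ, ∫ y, B y * w y = ∫ u in (0 : ℝ)..a, B u := by
    intro B
    rw [intervalIntegral.integral_of_le (by linarith), ← integral_indicator measurableSet_Ioc]
    refine integral_congr_ae (Eventually.of_forall fun y => ?_)
    show B y * w y = (Set.Ioc (0 : ℝ) a).indicator (fun u => B u) y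
    by_cases hy : y ∈ Set.Ioc (0 : ℝ) a
    · rw [hw, Set.indicator_of_mem hy, Set.indicator_of_mem hy, mul_one]
    · rw [hw, Set.indicator_of_notMem hy, Set.indicator_of_notMem hy, mul_zero]
  set G0 := ∫ u in (0 : ℝ)..a, AG u with hG0
  have hsub : ∀ B : ℝ → ℝ, Monotone B →
      ∫ u in (0 : ℝ)..a, (B u - AG u) = (∫ y, B y * w y) - G0 := by
    intro B hB
    rw [hint, intervalIntegral.integral_sub hB.intervalIntegrable (AG_ii _ _)]
  have hev : ∀ᶠ T in (g : Filter ℝ), (∫ y, Aa T y * w y) ∈ Set.Icc (G0 - C) (G0 + C) := by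
    filter_upwards [hg (hC a ha), hg (eventually_ge_atTop T0)] with T hT hT1
    rw [hsub _ (hmono T hT1), abs_le] at hT
    constructor <;> linarith [hT.1, hT.2]
  have h1 : ((g.map fun T => ∫ y, Aa T y * w y : Ultrafilter ℝ) : Filter ℝ) ≤
      𝓟 (Set.Icc (G0 - C) (G0 + C)) := by
    rw [le_principal_iff]
    exact hev
  obtain ⟨I, hI, hIt⟩ := isCompact_Icc.ultrafilter_le_nhds _ h1
  have h2 := lim_int_u hmono hb hwm hwd (u := (g : Filter ℝ)) hIt hg hA' hlim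
  rw [hsub _ hA', h2, abs_le]
  constructor <;> linarith [hI.1, hI.2]

/-- one-sided bounds for all windows of length `ℓ`: `s = 1` lower bounds, `s = -1` upper bounds -/
def Win (l : Filter ℝ) (ℓ s : ℝ) : Prop :=
  (∀ a, 0 < a → ∀ ε, 0 < ε → ∀ᶠ T in l, -ε ≤ s * (Ww T a ℓ - 2 * (gp (a + ℓ) - gp a))) ∧
  (s = -1 → ∀ ε, 0 < ε → ∀ᶠ T in l, PC T (Set.Icc 0 ℓ) / Xf T ≤ 1 + gp ℓ + ε)

/-- **the diagonal along a filter** -/
theorem diag_filter {l : Filter ℝ} (hl : l ≤ atTop) {l1 l2 s1 s2 : ℝ} (hl1 : 0 < l1) (hl2 : 0 < l2)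
    (hirr : Irrational (l1 / l2)) (hs1 : s1 = 1 ∨ s1 = -1) (hs2 : s2 = 1 ∨ s2 = -1)
    (h1 : Win l l1 s1) (h2 : Win l l2 s2) {η : ℝ} (hη : 0 < η) :
    ∀ᶠ T in l, Aa T 0 ≤ 1 + η := by
  obtain ⟨C, hC0, hC⟩ := mean_Aa
  obtain ⟨C0, T0, hT0, hb⟩ := Aa_bd
  have hmono : ∀ T, T0 ≤ T → Monotone (Aa T) := fun T hT => Aa_mono (by linarith)
  have key : {T | Aa T 0 ≤ 1 + η} ∈ l := by
    rw [Filter.mem_iff_ultrafilter]
    intro g hg
    have hgt : (g : Filter ℝ) ≤ atTop := hg.trans hl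
    have hT : ∀ᶠ T in (g : Filter ℝ), T0 ≤ T := hgt (eventually_ge_atTop _)
    have hT1 : ∀ᶠ T in (g : Filter ℝ), 1 < T := hgt (eventually_gt_atTop _)
    have hex : ∀ y, ∃ L, Tendsto (fun T => Aa T y) (g : Filter ℝ) (𝓝 L) := by
      intro y
      have h1 : ((g.map fun T => Aa T y : Ultrafilter ℝ) : Filter ℝ) ≤
          𝓟 (Set.Icc (-(C0 * (1 + y ^ 2))) (C0 * (1 + y ^ 2))) := by
        rw [le_principal_iff]
        have h2 : ∀ᶠ T in (g : Filter ℝ), Aa T y ∈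
            Set.Icc (-(C0 * (1 + y ^ 2))) (C0 * (1 + y ^ 2)) := by
          filter_upwards [hT] with T hT1
          exact abs_le.1 (hb T hT1 y)
        exact h2
      obtain ⟨L, _, hL⟩ := isCompact_Icc.ultrafilter_le_nhds _ h1
      exact ⟨L, hL⟩
    choose A' hlim using hex
    have hA' : Monotone A' := by
      intro a b hab
      refine le_of_tendsto_of_tendsto (hlim a) (hlim b) ?_
      filter_upwards [hT] with T hT1 using hmono T hT1 hab
    have hmean := fun a ha => mean_limit hC g hgt hA' hlim a ha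
    -- the windows
    have hwin : ∀ {ℓ s : ℝ}, 0 < ℓ → (s = 1 ∨ s = -1) → Win l ℓ s → ∀ a, 0 < a →
        ContinuousAt A' a → 0 ≤ s * (A' (a + ℓ) - A' a - 2 * (gp (a + ℓ) - gp a)) := by
      intro ℓ s hℓ hs hw a ha hca
      have := cond_limit (T0 := 2) (W := Ww) (fun T hT a ℓ ha hℓ => Ww_lower (by linarith))
        (fun T hT a ℓ η ha hℓ hη => Ww_upper (by linarith) hη hℓ) hgt hlim hℓ hs ha
        (C := 0) (c := 1) (fun b hb ε hε => by
          filter_upwards [hg (hw.1 b (lt_of_lt_of_le ha hb) ε hε)] with T hT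
          simpa using hT) a le_rfl hca
      simpa using this
    have hup : ∀ {ℓ : ℝ}, 0 < ℓ → Win l ℓ (-1) → A' ℓ + A' 0 ≤ 2 + 2 * gp ℓ := by
      intro ℓ hℓ hw
      refine le_of_forall_pos_le_add fun ε hε => ?_
      have h3 : Tendsto (fun T => Aa T ℓ + Aa T 0) (g : Filter ℝ) (𝓝 (A' ℓ + A' 0)) :=
        (hlim ℓ).add (hlim 0)
      refine le_of_tendsto h3 ?_
      filter_upwards [hg (hw.2 rfl (ε / 2) (by positivity)), hT1] with T h4 h5
      have hX := Xf_pos h5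
      have e : Aa T ℓ + Aa T 0 = 2 * (PC T (Set.Icc 0 ℓ) / Xf T) := by
        unfold Pool.Agent.Y744.Aa
        rw [PC_abs T hℓ.le]
        field_simp
        ring
      rw [e]
      linarith
    have hirr2 : Irrational (l2 / l1) := by
      have := hirr.inv
      rwa [inv_div] at this
    have hlow : ∀ {ℓ : ℝ}, (∀ a, 0 < a → ContinuousAt A' a →
        0 ≤ (1 : ℝ) * (A' (a + ℓ) - A' a - 2 * (gp (a + ℓ) - gp a))) →
        ∀ a, 0 < a → ContinuousAt A' a → 2 * (gp (a + ℓ) - gp a) ≤ A' (a + ℓ) - A' a :=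
      fun h a ha hc => by linarith [h a ha hc]
    have hupp : ∀ {ℓ : ℝ}, (∀ a, 0 < a → ContinuousAt A' a →
        0 ≤ (-1 : ℝ) * (A' (a + ℓ) - A' a - 2 * (gp (a + ℓ) - gp a))) →
        ∀ a, 0 < a → ContinuousAt A' a → A' (a + ℓ) - A' a ≤ 2 * (gp (a + ℓ) - gp a) :=
      fun h a ha hc => by linarith [h a ha hc]
    have hm0 : A' 0 ≤ 1 := by
      have w1 := hwin hl1 hs1 h1
      have w2 := hwin hl2 hs2 h2
      rcases hs1 with rfl | rfl
      · rcases hs2 with rfl | rfl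
        · exact diag_lower hA' hmean hl1 hl2 hirr (hlow w1) (Or.inl (hlow w2))
        · exact diag_lower hA' hmean hl1 hl2 hirr (hlow w1) (Or.inr (hupp w2))
      · rcases hs2 with rfl | rfl
        · exact diag_lower hA' hmean hl2 hl1 hirr2 (hlow w2) (Or.inr (hupp w1))
        · exact diag_upper hA' hmean hl1 hl2 hirr (hupp w1) (hupp w2) (hup hl1 h1)
    have h3 : ∀ᶠ T in (g : Filter ℝ), Aa T 0 < 1 + η :=
      (tendsto_order.1 (hlim 0)).2 _ (by linarith)
    exact h3.mono fun T hT => le_of_lt hT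
  exact key

end Pool.Agent.L5helper12.TW
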