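import Pool.Agent.L5helper12.TW.Blk
import Pool.Agent.Y750.OM.GSum
import Pool.Agent.Y750.OM.Pair
import Pool.Agent.Y744.PCR.NTc

set_option autoImplicit false

/-! # Montgomery's theorem for the ordinates of a dyadic block -/

namespace Pool.Agent.L5helper12.TW

open Complex Filter Topology MeasureTheory Set
open H370 H370.A2 TH803TW
open Pool.Agent.Y750.OM
open Pool.Agent.Y744 (mz mz_nonneg Zt Zb mem_Zt mem_Zb QS Xf Xf_pos)
open Pool.Agent.Results.MP_103a5c_nt.BohrSetPairs (mont)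

/-- test functions -/
structure T4 (R : ℝ → ℝ) (κ : ℝ) (f : ℝ → ℝ) : Prop where
  lip : ∃ K, ∀ x y, |R x - R y| ≤ K * |x - y|
  supp : ∀ x, κ ≤ |x| → R x = 0
  evenR : ∀ x, R (-x) = R x
  eq : ∀ y, ∫ α in (-κ)..κ, R α * Real.cos (2 * Real.pi * y * α) = f y
  decay : ∃ D, 0 ≤ D ∧ ∀ y, |f y| ≤ D / (1 + y ^ 2) ^ 2
  even : ∀ x, f (-x) = f x
  scale : ∃ C, 0 ≤ C ∧ ∀ y s, 1 ≤ s → |f (s * y) - f y| ≤ C * (s - 1) / (1 + y ^ 2)

variable {R : ℝ → ℝ} {κ : ℝ} {f : ℝ → ℝ}

lemma T4.cont (h : T4 R κ f) : Continuous R := by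
  obtain ⟨K, hK⟩ := h.lip
  have hK0 : 0 ≤ K := by
    have h1 := hK 1 0
    have h2 := abs_nonneg (R 1 - R 0)
    simp at h1
    linarith
  have : LipschitzWith K.toNNReal R := by
    refine LipschitzWith.of_dist_le_mul fun x y => ?_
    rw [Real.dist_eq, Real.dist_eq, Real.coe_toNNReal _ hK0]
    exact hK x y
  exact this.continuous

lemma T4.bound (h : T4 R κ f) : ∃ B, 0 < B ∧ ∀ x, |R x| ≤ B := by
  obtain ⟨B, hB⟩ := (isCompact_Icc (a := -κ) (b := κ)).exists_bound_of_continuousOn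
    h.cont.continuousOn
  refine ⟨|B| + 1, by positivity, fun x => ?_⟩
  by_cases hx : κ ≤ |x|
  · rw [h.supp x hx, abs_zero]
    positivity
  · push Not at hx
    have h1 := abs_lt.1 hx
    have := hB x ⟨h1.1.le, h1.2.le⟩
    rw [Real.norm_eq_abs] at this
    linarith [le_abs_self B]

lemma T4.mont_eq (h : T4 R κ f) (h0 : 0 < κ) (h1 : κ < 1) :
    R 0 + ∫ α in (-κ)..κ, |α| * R α = mont R := by
  unfold Pool.Agent.Results.MP_103a5c_nt.BohrSetPairs.mont
  congr 1
  have hc : Continuous fun α : ℝ => |α| * R α := continuous_abs.mul h.cont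
  have hc' : Continuous fun α : ℝ => α * R α := continuous_id.mul h.cont
  have e0 : ∀ α, 0 ≤ α → |α| * R α = α * R α := fun α hα => by rw [abs_of_nonneg hα]
  rw [← intervalIntegral.integral_add_adjacent_intervals (a := -κ) (b := 0) (c := κ)
    (hc.intervalIntegrable _ _) (hc.intervalIntegrable _ _)]
  have h3 : ∫ α in (-κ)..0, |α| * R α = ∫ α in (0 : ℝ)..κ, |α| * R α := by
    have := intervalIntegral.integral_comp_neg (a := 0) (b := κ) (fun α : ℝ => |α| * R α)
    rw [neg_zero] at this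
    rw [← this]
    refine intervalIntegral.integral_congr fun α _ => ?_
    show |(-α)| * R (-α) = |α| * R α
    rw [abs_neg, h.evenR]
  have h4 : ∫ α in (0 : ℝ)..κ, |α| * R α = ∫ α in (0 : ℝ)..κ, α * R α := by
    refine intervalIntegral.integral_congr fun α hα => ?_
    rw [Set.uIcc_of_le h0.le] at hα
    exact e0 α hα.1
  have h5 : ∫ α in κ..1, α * R α = 0 := by
    rw [intervalIntegral.integral_congr (g := fun _ => (0 : ℝ)) fun α hα => ?_]
    · simp
    · rw [Set.uIcc_of_le h1.le] at hα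
      show α * R α = 0
      rw [h.supp α (by rw [abs_of_nonneg (by linarith [hα.1])]; exact hα.1), mul_zero]
  rw [h3, h4, ← intervalIntegral.integral_add_adjacent_intervals (a := 0) (b := κ) (c := 1)
    (hc'.intervalIntegrable _ _) (hc'.intervalIntegrable _ _), h5]
  ring

/-- the integral of the off-line mean square -/
lemma JD_planch : ∃ C : ℝ, 0 < C ∧ ∀ κ L : ℝ, 0 < κ → 1 ≤ κ * L → ∀ A B : ℝ, 1 ≤ A →
    IntervalIntegrable (fun α => JD (Zf riemannZeta A B) mz L α) volume (-κ) κ ∧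
    ∫ α in (-κ)..κ, JD (Zf riemannZeta A B) mz L α ≤ C * κ ^ 5 *
      ∑ s ∈ Zf riemannZeta A B, ∑ s' ∈ Zf riemannZeta A B, bw κ L s * bw κ L s' *
        (1 / (1 + (κ * (L * (s.im - s'.im))) ^ 2)) := by
  let χ : ContDiffBump (0 : ℝ) := ⟨1, 2, one_pos, one_lt_two⟩
  have hχs : ∀ β : ℝ, 2 < |β| → (χ : ℝ → ℝ) β = 0 := by
    intro β hβ
    apply χ.zero_of_le_dist
    rw [Real.dist_eq, sub_zero]
    exact hβ.le
  have hχ1 : ∀ β : ℝ, |β| ≤ 1 → (χ : ℝ → ℝ) β = 1 := by
    intro β hβ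
    apply χ.one_of_mem_closedBall
    rw [Metric.mem_closedBall, Real.dist_eq, sub_zero]
    exact hβ
  obtain ⟨C, hC, h⟩ := planch (g0 := (χ : ℝ → ℝ)) χ.contDiff (rr := 2) two_pos hχs
  refine ⟨C, hC, fun κ L hκ hκL A B hA => ?_⟩
  set S := Zf riemannZeta A B with hS
  have h1 := h κ L hκ hκL S mz mz_nonneg (fun s hs => by
    rw [hS, mem_Zf good_zeta hA] at hs
    rw [abs_le]
    constructor <;> linarith [hs.1, hs.2.1])
  have e0 : ∀ s, mz s * (((s.re - 1 / 2) * L) ^ 2 * Real.exp (2 * κ * |(s.re - 1 / 2) * L|)) =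
      bw κ L s := fun s => rfl
  simp_rw [e0] at h1
  set Q := ∑ s ∈ S, ∑ s' ∈ S, bw κ L s * bw κ L s' *
        (1 / (1 + (κ * (L * (s.im - s'.im))) ^ 2)) with hQ
  have hQ0 : 0 ≤ Q := Finset.sum_nonneg fun s _ => Finset.sum_nonneg fun s' _ => by
    have := bw_nonneg κ L s
    have := bw_nonneg κ L s'
    positivity
  have hb0 : 0 ≤ C * κ ^ 5 * Q := by positivity
  have hJ0 : ∀ α, 0 ≤ JD S mz L α := fun α => JD_nonneg S mz L α
  have hsm : StronglyMeasurable (fun α => JD S mz L α) := by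
    have h2 : StronglyMeasurable (Function.uncurry fun α t : ℝ => ‖DD S mz L α t‖ ^ 2) :=
      ((DD_cont S mz L).norm.pow 2).stronglyMeasurable
    exact h2.integral_prod_right
  have hlin : ∫⁻ α in Set.Ioc (-κ) κ, ENNReal.ofReal (JD S mz L α) ≤
      ENNReal.ofReal (C * κ ^ 5 * Q) := by
    refine le_trans ?_ h1
    refine le_trans ?_ (setLIntegral_le_lintegral (Set.Ioc (-κ) κ) _)
    refine setLIntegral_mono' measurableSet_Ioc fun α hα => ?_
    have h3 : (χ : ℝ → ℝ) (α / κ) = 1 := by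
      apply hχ1
      rw [abs_div, abs_of_pos hκ, div_le_one hκ, abs_le]
      exact ⟨hα.1.le, hα.2⟩
    rw [h3]
    unfold JD
    have h4 : Integrable (fun t => ‖DD S mz L α t‖ ^ 2) := DD_int (B := B) hA L α
    rw [ofReal_integral_eq_lintegral_ofReal h4 (Eventually.of_forall fun t => by positivity)]
    refine le_of_eq (lintegral_congr fun t => ?_)
    rw [Complex.ofReal_one, one_mul]
  have hae : AEStronglyMeasurable (fun α => JD S mz L α) (volume.restrict (Set.Ioc (-κ) κ)) :=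
    hsm.aestronglyMeasurable
  have hint : Integrable (fun α => JD S mz L α) (volume.restrict (Set.Ioc (-κ) κ)) := by
    refine ⟨hae, ?_⟩
    rw [hasFiniteIntegral_iff_ofReal (Eventually.of_forall hJ0)]
    exact hlin.trans_lt ENNReal.ofReal_lt_top
  constructor
  · rw [intervalIntegrable_iff_integrableOn_Ioc_of_le (by linarith)]
    exact hint
  · rw [intervalIntegral.integral_of_le (by linarith),
      integral_eq_lintegral_of_nonneg_ae (Eventually.of_forall hJ0) hae]
    exact ENNReal.toReal_le_of_le_ofReal hb0 hlin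

/-- the pair sum with the Gaussian factor -/
lemma JB_int (h : T4 R κ f) (S : Finset ℂ) (L : ℝ) :
    (1 / Real.sqrt Real.pi) * ∫ α in (-κ)..κ, R α * JB S mz (α * L) =
      ∑ s ∈ S, ∑ s' ∈ S, mz s * mz s' * (f ((s.im - s'.im) * L / (2 * Real.pi)) *
        Real.exp (-(s.im - s'.im) ^ 2 / 4)) := by
  have hpi := Real.pi_pos
  have hRc := h.cont
  have e1 : ∀ α, R α * JB S mz (α * L) = ∑ s ∈ S, ∑ s' ∈ S, Real.sqrt Real.pi *
      (mz s * mz s' * Real.exp (-(s.im - s'.im) ^ 2 / 4)) *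
        (R α * Real.cos (2 * Real.pi * ((s.im - s'.im) * L / (2 * Real.pi)) * α)) := by
    intro α
    rw [JB_eq, ← mul_assoc, Finset.mul_sum]
    refine Finset.sum_congr rfl fun s _ => ?_
    rw [Finset.mul_sum]
    refine Finset.sum_congr rfl fun s' _ => ?_
    have e2 : 2 * Real.pi * ((s.im - s'.im) * L / (2 * Real.pi)) * α =
        α * L * (s.im - s'.im) := by
      field_simp
    rw [e2]
    ring
  simp_rw [e1]
  have hi : ∀ s s' : ℂ, Continuous (fun α => Real.sqrt Real.pi *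
      (mz s * mz s' * Real.exp (-(s.im - s'.im) ^ 2 / 4)) *
        (R α * Real.cos (2 * Real.pi * ((s.im - s'.im) * L / (2 * Real.pi)) * α))) := by
    intro s s'
    fun_prop
  rw [intervalIntegral.integral_finsetSum fun s _ =>
    (continuous_finsetSum _ fun s' _ => hi s s').intervalIntegrable _ _, Finset.mul_sum]
  refine Finset.sum_congr rfl fun s _ => ?_
  rw [intervalIntegral.integral_finsetSum fun s' _ => (hi s s').intervalIntegrable _ _,
    Finset.mul_sum]
  refine Finset.sum_congr rfl fun s' _ => ?_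
  rw [intervalIntegral.integral_const_mul, h.eq]
  have hs : Real.sqrt Real.pi ≠ 0 := (Real.sqrt_pos.2 hpi).ne'
  field_simp

/-- removing the Gaussian factor -/
lemma gauss_rem {D : ℝ} (hD : 0 ≤ D) (hf : ∀ y, |f y| ≤ D / (1 + y ^ 2) ^ 2) (S : Finset ℂ)
    {L : ℝ} (hL : 0 < L) :
    |∑ s ∈ S, ∑ s' ∈ S, mz s * mz s' * (f ((s.im - s'.im) * L / (2 * Real.pi)) *
        Real.exp (-(s.im - s'.im) ^ 2 / 4)) - QS S S mz (fun s => s.im) f L| ≤
      Real.pi ^ 2 * D / L ^ 2 * (3200 * PP1 S mz (fun s => s.im) L) := by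
  have hpi := Real.pi_pos
  have h1 := Pool.Agent.Y744.QS_abs_bound (x := fun s : ℂ => s.im) S S mz_nonneg
    (f := fun y => 1 / (1 + y ^ 2)) (K := 1) (fun y => by
      rw [abs_of_nonneg (by positivity)]) hL one_pos
  have h2 : 1600 * (1 : ℝ) * (1 * PP1 S mz (fun s => s.im) L + 1 / 1 * PP1 S mz (fun s => s.im) L) =
      3200 * PP1 S mz (fun s => s.im) L := by ring
  rw [h2] at h1
  refine le_trans ?_ (mul_le_mul_of_nonneg_left h1 (by positivity))
  unfold QS
  rw [← Finset.sum_sub_distrib, Finset.mul_sum]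
  refine (Finset.abs_sum_le_sum_abs _ _).trans (Finset.sum_le_sum fun s _ => ?_)
  rw [← Finset.sum_sub_distrib, Finset.mul_sum]
  refine (Finset.abs_sum_le_sum_abs _ _).trans (Finset.sum_le_sum fun s' _ => ?_)
  have hm : 0 ≤ mz s * mz s' := mul_nonneg (mz_nonneg _) (mz_nonneg _)
  show |mz s * mz s' * (f ((s.im - s'.im) * L / (2 * Real.pi)) *
      Real.exp (-(s.im - s'.im) ^ 2 / 4)) - mz s * mz s' *
        f ((s.im - s'.im) * L / (2 * Real.pi))| ≤ _
  set y := (s.im - s'.im) * L / (2 * Real.pi) with hy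
  have e1 : mz s * mz s' * (f y * Real.exp (-(s.im - s'.im) ^ 2 / 4)) - mz s * mz s' * f y =
      mz s * mz s' * (f y * (Real.exp (-(s.im - s'.im) ^ 2 / 4) - 1)) := by ring
  rw [e1, abs_mul, abs_of_nonneg hm, abs_mul]
  have e2 : (s.im - s'.im) ^ 2 / 4 = Real.pi ^ 2 / L ^ 2 * y ^ 2 := by
    rw [hy]
    field_simp
    ring
  have h3 : |Real.exp (-(s.im - s'.im) ^ 2 / 4) - 1| ≤ Real.pi ^ 2 / L ^ 2 * y ^ 2 := by
    have h4 : Real.exp (-(s.im - s'.im) ^ 2 / 4) ≤ 1 := by
      rw [Real.exp_le_one_iff]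
      have := sq_nonneg (s.im - s'.im)
      linarith
    rw [abs_sub_comm, abs_of_nonneg (by linarith), ← e2]
    have := Real.add_one_le_exp (-(s.im - s'.im) ^ 2 / 4)
    linarith
  have h5 : |f y| * |Real.exp (-(s.im - s'.im) ^ 2 / 4) - 1| ≤
      Real.pi ^ 2 * D / L ^ 2 * |1 / (1 + y ^ 2)| := by
    calc |f y| * |Real.exp (-(s.im - s'.im) ^ 2 / 4) - 1| ≤
        D / (1 + y ^ 2) ^ 2 * (Real.pi ^ 2 / L ^ 2 * y ^ 2) :=
          mul_le_mul (hf y) h3 (abs_nonneg _) (by positivity)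
      _ = Real.pi ^ 2 * D / L ^ 2 * (y ^ 2 / (1 + y ^ 2) ^ 2) := by ring
      _ ≤ Real.pi ^ 2 * D / L ^ 2 * |1 / (1 + y ^ 2)| := by
          refine mul_le_mul_of_nonneg_left ?_ (by positivity)
          rw [abs_of_nonneg (by positivity), div_le_div_iff₀ (by positivity) (by positivity)]
          nlinarith [sq_nonneg y, sq_nonneg (y ^ 2)]
  have h6 := mul_le_mul_of_nonneg_left h5 hm
  refine h6.trans (le_of_eq ?_)
  show mz s * mz s' * (Real.pi ^ 2 * D / L ^ 2 * |1 / (1 + y ^ 2)|) =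
    Real.pi ^ 2 * D / L ^ 2 * (mz s * mz s' * |1 / (1 + y ^ 2)|)
  ring

/-- the comparison of the two mean squares, integrated -/
lemma JJ_JB (h : T4 R κ f) (hκ : 0 < κ) {B : ℝ} (hB : 0 < B) (hR : ∀ x, |R x| ≤ B) {c : ℝ}
    (hc : 0 < c) {L : ℝ} {U1 U2 : ℝ} (hU : 1 ≤ U1)
    (hJD : IntervalIntegrable (fun α => JD (Zf riemannZeta U1 U2) mz L α) volume (-κ) κ) :
    |(∫ α in (-κ)..κ, R α * JN riemannZeta U1 U2 (α * L)) -
      (1 / Real.sqrt Real.pi) * ∫ α in (-κ)..κ, R α * JB (Zf riemannZeta U1 U2) mz (α * L)| ≤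
      c * (∫ α in (-κ)..κ, |R α| * JN riemannZeta U1 U2 (α * L)) +
        (1 + 1 / c) * B * ∫ α in (-κ)..κ, JD (Zf riemannZeta U1 U2) mz L α := by
  have hpi := Real.pi_pos
  have hsp : 1 ≤ Real.sqrt Real.pi := by
    rw [show (1 : ℝ) = Real.sqrt 1 by simp]
    exact Real.sqrt_le_sqrt (by linarith [Real.pi_gt_three])
  have hRc := h.cont
  have hJc : Continuous fun α : ℝ => JJ riemannZeta U1 U2 (α * L) :=
    (JJ_cont good_zeta (U2 := U2) hU).comp (by fun_prop)
  have hBc : Continuous fun α : ℝ => JB (Zf riemannZeta U1 U2) mz (α * L) :=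
    (JB_cont (Zf riemannZeta U1 U2) mz).comp (by fun_prop)
  have e1 : (∫ α in (-κ)..κ, R α * JN riemannZeta U1 U2 (α * L)) -
      (1 / Real.sqrt Real.pi) * ∫ α in (-κ)..κ, R α * JB (Zf riemannZeta U1 U2) mz (α * L) =
      (1 / Real.sqrt Real.pi) * ∫ α in (-κ)..κ, R α * (JJ riemannZeta U1 U2 (α * L) -
        JB (Zf riemannZeta U1 U2) mz (α * L)) := by
    have e2 : ∫ α in (-κ)..κ, R α * JN riemannZeta U1 U2 (α * L) =
        (1 / Real.sqrt Real.pi) * ∫ α in (-κ)..κ, R α * JJ riemannZeta U1 U2 (α * L) := by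
      rw [← intervalIntegral.integral_const_mul]
      refine intervalIntegral.integral_congr fun α _ => ?_
      show R α * (JJ riemannZeta U1 U2 (α * L) / Real.sqrt Real.pi) = _
      ring
    have i1 : IntervalIntegrable (fun α => R α * JJ riemannZeta U1 U2 (α * L)) volume (-κ) κ :=
      (hRc.mul hJc).intervalIntegrable _ _
    have i2 : IntervalIntegrable (fun α => R α * JB (Zf riemannZeta U1 U2) mz (α * L)) volume
      (-κ) κ := (hRc.mul hBc).intervalIntegrable _ _
    rw [e2, ← mul_sub, ← intervalIntegral.integral_sub i1 i2]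
    congr 1
    refine intervalIntegral.integral_congr fun α _ => ?_
    show R α * JJ riemannZeta U1 U2 (α * L) - R α * JB (Zf riemannZeta U1 U2) mz (α * L) = _
    ring
  have e3 : c * (∫ α in (-κ)..κ, |R α| * JN riemannZeta U1 U2 (α * L)) =
      (1 / Real.sqrt Real.pi) * ∫ α in (-κ)..κ, c * (|R α| * JJ riemannZeta U1 U2 (α * L)) := by
    rw [intervalIntegral.integral_const_mul, ← mul_assoc, mul_comm (1 / Real.sqrt Real.pi) c,
      mul_assoc]
    congr 1
    rw [← intervalIntegral.integral_const_mul]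
    refine intervalIntegral.integral_congr fun α _ => ?_
    show |R α| * (JJ riemannZeta U1 U2 (α * L) / Real.sqrt Real.pi) = _
    ring
  rw [e1, e3, abs_mul, abs_of_nonneg (by positivity)]
  have hJD0 : 0 ≤ ∫ α in (-κ)..κ, JD (Zf riemannZeta U1 U2) mz L α :=
    intervalIntegral.integral_nonneg (by linarith) fun α _ => JD_nonneg _ _ _ _
  have hi1 : IntervalIntegrable (fun α => c * (|R α| * JJ riemannZeta U1 U2 (α * L)))
      volume (-κ) κ := (continuous_const.mul (hRc.abs.mul hJc)).intervalIntegrable _ _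
  have hi2 : IntervalIntegrable (fun α => (1 + 1 / c) * B *
      JD (Zf riemannZeta U1 U2) mz L α) volume (-κ) κ := hJD.const_mul _
  have h3 : |∫ α in (-κ)..κ, R α * (JJ riemannZeta U1 U2 (α * L) -
        JB (Zf riemannZeta U1 U2) mz (α * L))| ≤
      (∫ α in (-κ)..κ, c * (|R α| * JJ riemannZeta U1 U2 (α * L))) +
        (1 + 1 / c) * B * ∫ α in (-κ)..κ, JD (Zf riemannZeta U1 U2) mz L α := by
    rw [← intervalIntegral.integral_const_mul ((1 + 1 / c) * B),
      ← intervalIntegral.integral_add hi1 hi2]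
    refine (intervalIntegral.abs_integral_le_integral_abs (by linarith)).trans ?_
    refine intervalIntegral.integral_mono_on (by linarith)
      ((hRc.mul (hJc.sub hBc)).abs.intervalIntegrable _ _) (hi1.add hi2) fun α _ => ?_
    have h4 := diff_le (B := U2) hU L α c hc
    have h5 : |R α * (JJ riemannZeta U1 U2 (α * L) - JB (Zf riemannZeta U1 U2) mz (α * L))| ≤
        |R α| * (c * JJ riemannZeta U1 U2 (α * L) + (1 + 1 / c) *
          JD (Zf riemannZeta U1 U2) mz L α) := by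
      rw [abs_mul]
      exact mul_le_mul_of_nonneg_left h4 (abs_nonneg _)
    refine h5.trans ?_
    have h6 : |R α| * JD (Zf riemannZeta U1 U2) mz L α ≤ B * JD (Zf riemannZeta U1 U2) mz L α :=
      mul_le_mul_of_nonneg_right (hR α) (JD_nonneg _ _ _ _)
    have h7 : 0 ≤ 1 + 1 / c := by positivity
    have h8 := mul_le_mul_of_nonneg_left h6 h7
    show _ ≤ c * (|R α| * JJ riemannZeta U1 U2 (α * L)) + (1 + 1 / c) * B *
      JD (Zf riemannZeta U1 U2) mz L α
    nlinarith
  have h4 := mul_le_mul_of_nonneg_left h3 (show 0 ≤ 1 / Real.sqrt Real.pi by positivity)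
  refine h4.trans ?_
  rw [mul_add]
  have h5 : 1 / Real.sqrt Real.pi ≤ 1 := by
    rw [div_le_one (by positivity)]
    exact hsp
  have h6 : 0 ≤ (1 + 1 / c) * B * ∫ α in (-κ)..κ, JD (Zf riemannZeta U1 U2) mz L α := by
    positivity
  have h7 := mul_le_mul_of_nonneg_right h5 h6
  rw [one_mul] at h7
  linarith

end Pool.Agent.L5helper12.TW
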