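import Pool.Agent.L5helper12.TW.Mean

set_option autoImplicit false

/-! # One-sided bounds for the windows of one length -/

namespace Pool.Agent.L5helper12.TW

open Filter Topology MeasureTheory Set
open Pool.Agent.Y744 (AG gp gp_cont gp_sub gp_mono gp_nonneg gp_le gp_zero gd gd_le gd_cont
  Aa Aa_mono Aa_neg Aa_diag Ww Ww_lower Ww_upper cond_limit PC Xf Xf_pos PC_abs Nr pr Nr_close)

section

variable {A' : ℝ → ℝ}

/-- a nondecreasing sequence of means is nonpositive -/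
lemma seq_le {E : ℝ → ℝ} (hE : ∀ a b, IntervalIntegrable E volume a b) {C : ℝ}
    (hC : ∀ a, 1 ≤ a → |∫ u in (0 : ℝ)..a, E u| ≤ C) {a ℓ : ℝ} (ha : 0 ≤ a) (hℓ : 0 < ℓ)
    (h : ∀ k : ℕ, ∫ u in a..(a + ℓ), E u ≤ ∫ u in (a + k * ℓ)..(a + k * ℓ + ℓ), E u) :
    ∫ u in a..(a + ℓ), E u ≤ 0 := by
  set J := ∫ u in a..(a + ℓ), E u with hJ
  have h1 : ∀ K : ℕ, K * J ≤ ∫ u in a..(a + K * ℓ), E u := by
    intro K
    induction K with
    | zero => simp
    | succ K ih =>
      have h2 := h K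
      have e : a + K * ℓ + ℓ = a + ((K + 1 : ℕ) : ℝ) * ℓ := by
        push_cast
        ring
      rw [e] at h2
      rw [← intervalIntegral.integral_add_adjacent_intervals (hE a (a + K * ℓ)) (hE _ _)]
      push_cast at h2 ⊢
      linarith
  by_contra hc
  push Not at hc
  obtain ⟨K, hK⟩ := exists_nat_gt (max (1 / ℓ) ((C + |∫ u in (0 : ℝ)..a, E u|) / J))
  have hK1 := (le_max_left _ _).trans_lt hK
  have hK2 := (le_max_right _ _).trans_lt hK
  rw [div_lt_iff₀ hℓ] at hK1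
  rw [div_lt_iff₀ hc] at hK2
  have h3 := hC (a + K * ℓ) (by linarith)
  have e : ∫ u in a..(a + K * ℓ), E u = (∫ u in (0 : ℝ)..(a + K * ℓ), E u) -
      ∫ u in (0 : ℝ)..a, E u := by
    rw [← intervalIntegral.integral_add_adjacent_intervals (hE 0 a) (hE a (a + K * ℓ))]
    ring
  have h4 := h1 K
  rw [e] at h4
  have h5 := (abs_le.1 h3).2
  have h6 := neg_abs_le (∫ u in (0 : ℝ)..a, E u)
  linarith

lemma AG_slope {a x : ℝ} (ha : 0 ≤ a) (hx : a ≤ x) : AG x ≤ AG a + 2 * (x - a) := by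
  rw [AG_pos ha, AG_pos (ha.trans hx)]
  have h2 : gp x - gp a ≤ x - a := by
    rw [gp_sub]
    have : ∫ u in a..x, gd u ≤ ∫ u in a..x, (1 : ℝ) :=
      intervalIntegral.integral_mono_on hx (gd_cont.intervalIntegrable _ _)
        intervalIntegrable_const fun u _ => gd_le u
    simpa using this
  linarith

lemma int_lin (c d a ℓ : ℝ) : ∫ u in a..(a + ℓ), (c + d * (u - a)) = ℓ * c + d * (ℓ ^ 2 / 2) := by
  have h1 : ∫ u in a..(a + ℓ), (c + d * (u - a)) = ∫ u in (0 : ℝ)..ℓ, (c + d * u) := by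
    have := intervalIntegral.integral_comp_sub_right (a := a) (b := a + ℓ)
      (fun u => c + d * u) a
    simpa using this
  have i2 : IntervalIntegrable (fun u : ℝ => d * u) volume 0 ℓ :=
    (continuous_const.mul continuous_id).intervalIntegrable _ _
  rw [h1, intervalIntegral.integral_add intervalIntegrable_const i2,
    intervalIntegral.integral_const, intervalIntegral.integral_const_mul, integral_id]
  simp

/-- from short means to values -/
lemma value_bound (hA' : Monotone A') (h0 : 1 ≤ A' 0) {ℓ p q : ℝ} (hℓ : 0 < ℓ)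
    (hp : ∀ a, 0 ≤ a → ∫ u in a..(a + ℓ), (A' u - AG u) ≤ p * ℓ)
    (hq : ∀ a, 0 ≤ a → -(q * ℓ) ≤ ∫ u in a..(a + ℓ), (A' u - AG u))
    (hpℓ : p ≤ ℓ) (hqℓ : q ≤ ℓ) {a : ℝ} (ha : 0 ≤ a) : |A' a - AG a| ≤ 2 * ℓ := by
  have hii := fun x y => (hA'.intervalIntegrable : IntervalIntegrable A' volume x y)
  rw [abs_le]
  constructor
  · rcases lt_or_ge a ℓ with h | h
    · have h1 := hA' ha
      have h2 := AG_slope le_rfl ha
      rw [AG_pos le_rfl, gp_zero] at h2
      linarith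
    · have h1 : ∫ u in (a - ℓ)..(a - ℓ + ℓ), A' u ≤ ℓ * A' a := by
        have e : ∫ u in (a - ℓ)..(a - ℓ + ℓ), A' a = ℓ * A' a := by
          rw [intervalIntegral.integral_const, smul_eq_mul]
          ring
        rw [← e]
        refine intervalIntegral.integral_mono_on (by linarith) (hii _ _) intervalIntegrable_const
          fun x hx => hA' (by linarith [hx.2])
      have h2 := hq (a - ℓ) (by linarith)
      rw [intervalIntegral.integral_sub (hii _ _) (AG_ii _ _)] at h2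
      have h3 : ℓ * AG a - ℓ ^ 2 ≤ ∫ u in (a - ℓ)..(a - ℓ + ℓ), AG u := by
        have e := int_lin (AG a - 2 * ℓ) 2 (a - ℓ) ℓ
        have h4 : ∫ u in (a - ℓ)..(a - ℓ + ℓ), (AG a - 2 * ℓ + 2 * (u - (a - ℓ))) ≤
            ∫ u in (a - ℓ)..(a - ℓ + ℓ), AG u := by
          refine intervalIntegral.integral_mono_on (by linarith)
            ((by fun_prop : Continuous fun u : ℝ =>
              AG a - 2 * ℓ + 2 * (u - (a - ℓ))).intervalIntegrable _ _) (AG_ii _ _) fun x hx => ?_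
          have := AG_slope (a := x) (x := a) (by linarith [hx.1]) (by linarith [hx.2])
          linarith
        rw [e] at h4
        nlinarith
      have h5 : ℓ * (AG a - 2 * ℓ) ≤ ℓ * A' a := by nlinarith
      have := le_of_mul_le_mul_left h5 hℓ
      linarith
  · have h1 : ℓ * A' a ≤ ∫ u in a..(a + ℓ), A' u := by
      have e : ∫ u in a..(a + ℓ), A' a = ℓ * A' a := by
        rw [intervalIntegral.integral_const, smul_eq_mul]
        ring
      rw [← e]
      refine intervalIntegral.integral_mono_on (by linarith) intervalIntegrable_const (hii _ _)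
        fun x hx => hA' hx.1
    have h2 := hp a ha
    rw [intervalIntegral.integral_sub (hii _ _) (AG_ii _ _)] at h2
    have h3 : ∫ u in a..(a + ℓ), AG u ≤ ℓ * AG a + ℓ ^ 2 := by
      have e := int_lin (AG a) 2 a ℓ
      have h4 : ∫ u in a..(a + ℓ), AG u ≤ ∫ u in a..(a + ℓ), (AG a + 2 * (u - a)) := by
        refine intervalIntegral.integral_mono_on (by linarith) (AG_ii _ _)
          ((by fun_prop : Continuous fun u : ℝ => AG a + 2 * (u - a)).intervalIntegrable _ _)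
          fun x hx => ?_
        exact AG_slope ha hx.1
      rw [e] at h4
      linarith
    have h5 : ℓ * A' a ≤ ℓ * (AG a + 2 * ℓ) := by nlinarith
    have := le_of_mul_le_mul_left h5 hℓ
    linarith

lemma red_mod {ℓ : ℝ} (hℓ : 0 < ℓ) {a : ℝ} (ha : 0 ≤ a) :
    ∃ (r : ℝ) (k : ℕ), 0 ≤ r ∧ r < ℓ ∧ a = r + k * ℓ := by
  refine ⟨a - ⌊a / ℓ⌋₊ * ℓ, ⌊a / ℓ⌋₊, ?_, ?_, by ring⟩
  · have : (⌊a / ℓ⌋₊ : ℝ) ≤ a / ℓ := Nat.floor_le (by positivity)
    rw [le_div_iff₀ hℓ] at this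
    linarith
  · have : a / ℓ < ⌊a / ℓ⌋₊ + 1 := Nat.lt_floor_add_one _
    rw [div_lt_iff₀ hℓ] at this
    linarith

/-- lower bounds for one length -/
theorem one_lower (hA' : Monotone A') (h0 : 1 ≤ A' 0) {C : ℝ}
    (hC : ∀ a, 1 ≤ a → |∫ u in (0 : ℝ)..a, (A' u - AG u)| ≤ C) {ℓ : ℝ} (hℓ : 0 < ℓ)
    (h1 : ∀ a, 0 < a → ContinuousAt A' a → 2 * (gp (a + ℓ) - gp a) ≤ A' (a + ℓ) - A' a)
    {a : ℝ} (ha : 0 ≤ a) : |A' a - AG a| ≤ 2 * ℓ := by
  have hE := E_ii hA'
  have hup : ∀ η : ℝ, 0 < η → ∀ (k : ℕ) (a : ℝ), 0 ≤ a → ∫ u in a..(a + η), (A' u - AG u) ≤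
      ∫ u in (a + k * ℓ)..(a + k * ℓ + η), (A' u - AG u) := fun η hη k a ha =>
    iter_up (G := fun a => ∫ u in a..(a + η), (A' u - AG u)) hℓ
      (fun a ha => shift_up hA' hℓ h1 hη ha) k ha
  refine value_bound hA' h0 hℓ (p := 0) (q := ℓ) (fun a ha => ?_) (fun a ha => ?_) hℓ.le le_rfl ha
  · rw [zero_mul]
    exact seq_le hE hC ha hℓ fun k => hup ℓ hℓ k a ha
  · obtain ⟨r, k, hr0, hr1, hak⟩ := red_mod hℓ ha
    have h2 := hup ℓ hℓ k r hr0
    rw [← hak] at h2
    refine le_trans ?_ h2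
    have e1 : ∫ u in r..(r + ℓ), (A' u - AG u) = (∫ u in r..ℓ, (A' u - AG u)) +
        ∫ u in ℓ..(r + ℓ), (A' u - AG u) :=
      (intervalIntegral.integral_add_adjacent_intervals (hE _ _) (hE _ _)).symm
    have e2 : ∫ u in (0 : ℝ)..ℓ, (A' u - AG u) = (∫ u in (0 : ℝ)..r, (A' u - AG u)) +
        ∫ u in r..ℓ, (A' u - AG u) :=
      (intervalIntegral.integral_add_adjacent_intervals (hE _ _) (hE _ _)).symm
    have h3 : ∫ u in (0 : ℝ)..r, (A' u - AG u) ≤ ∫ u in ℓ..(r + ℓ), (A' u - AG u) := by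
      rcases hr0.eq_or_lt with h | h
      · rw [← h]; simp
      · have := hup r h 1 0 le_rfl
        rw [zero_add, zero_add, Nat.cast_one, one_mul, add_comm ℓ r] at this
        exact this
    have h4 : -(ℓ * ℓ) ≤ ∫ u in (0 : ℝ)..ℓ, (A' u - AG u) := by
      have e := int_lin 0 (-2) 0 ℓ
      have h5 : ∫ u in (0 : ℝ)..(0 + ℓ), (0 + (-2) * (u - 0)) ≤
          ∫ u in (0 : ℝ)..(0 + ℓ), (A' u - AG u) := by
        refine intervalIntegral.integral_mono_on (by linarith)
          ((by fun_prop : Continuous fun u : ℝ => 0 + (-2) * (u - 0)).intervalIntegrable _ _)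
          (hE _ _) fun x hx => ?_
        have h6 := hA' hx.1
        have h7 := AG_slope le_rfl hx.1
        rw [AG_pos le_rfl, gp_zero] at h7
        linarith
      rw [e, zero_add] at h5
      nlinarith
    rw [e1]
    linarith

/-- upper bounds for one length -/
theorem one_upper (hA' : Monotone A') (h0 : 1 ≤ A' 0) {C : ℝ}
    (hC : ∀ a, 1 ≤ a → |∫ u in (0 : ℝ)..a, (A' u - AG u)| ≤ C) {ℓ : ℝ} (hℓ : 0 < ℓ)
    (h1 : ∀ a, 0 < a → ContinuousAt A' a → A' (a + ℓ) - A' a ≤ 2 * (gp (a + ℓ) - gp a))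
    (h2 : A' ℓ + A' 0 ≤ 2 + 2 * gp ℓ)
    {a : ℝ} (ha : 0 ≤ a) : |A' a - AG a| ≤ 2 * ℓ := by
  have hE := E_ii hA'
  have hdn : ∀ η : ℝ, 0 < η → ∀ (k : ℕ) (a : ℝ), 0 ≤ a →
      ∫ u in (a + k * ℓ)..(a + k * ℓ + η), (A' u - AG u) ≤
      ∫ u in a..(a + η), (A' u - AG u) := fun η hη k a ha =>
    iter_down (G := fun a => ∫ u in a..(a + η), (A' u - AG u)) hℓ
      (fun a ha => shift_down hA' hℓ h1 hη ha) k ha
  refine value_bound hA' h0 hℓ (p := ℓ) (q := 0) (fun a ha => ?_) (fun a ha => ?_) le_rfl hℓ.le ha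
  · obtain ⟨r, k, hr0, hr1, hak⟩ := red_mod hℓ ha
    have h3 := hdn ℓ hℓ k r hr0
    rw [← hak] at h3
    refine h3.trans ?_
    have e1 : ∫ u in r..(r + ℓ), (A' u - AG u) = (∫ u in r..ℓ, (A' u - AG u)) +
        ∫ u in ℓ..(r + ℓ), (A' u - AG u) :=
      (intervalIntegral.integral_add_adjacent_intervals (hE _ _) (hE _ _)).symm
    have e2 : ∫ u in (0 : ℝ)..ℓ, (A' u - AG u) = (∫ u in (0 : ℝ)..r, (A' u - AG u)) +
        ∫ u in r..ℓ, (A' u - AG u) :=
      (intervalIntegral.integral_add_adjacent_intervals (hE _ _) (hE _ _)).symm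
    have h3 : ∫ u in ℓ..(r + ℓ), (A' u - AG u) ≤ ∫ u in (0 : ℝ)..r, (A' u - AG u) := by
      rcases hr0.eq_or_lt with h | h
      · rw [← h]; simp
      · have := hdn r h 1 0 le_rfl
        rw [zero_add, zero_add, Nat.cast_one, one_mul, add_comm ℓ r] at this
        exact this
    have h4 : ∫ u in (0 : ℝ)..ℓ, (A' u - AG u) ≤ ℓ * ℓ := by
      have e := int_lin (2 * ℓ) (-2) 0 ℓ
      have h5 : ∫ u in (0 : ℝ)..(0 + ℓ), (A' u - AG u) ≤
          ∫ u in (0 : ℝ)..(0 + ℓ), (2 * ℓ + (-2) * (u - 0)) := by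
        refine intervalIntegral.integral_mono_on (by linarith) (hE _ _)
          ((by fun_prop : Continuous fun u : ℝ => 2 * ℓ + (-2) * (u - 0)).intervalIntegrable _ _)
          fun x hx => ?_
        have hxℓ : x ≤ ℓ := by linarith [hx.2]
        have h6 := hA' hxℓ
        have h7 := AG_slope hx.1 hxℓ
        rw [AG_pos hx.1] at h7 ⊢
        rw [AG_pos hℓ.le] at h7
        linarith
      rw [e, zero_add] at h5
      nlinarith
    rw [e1]
    linarith
  · rw [zero_mul, neg_zero]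
    have := seq_le (E := fun u => -(A' u - AG u)) (fun x y => (hE x y).neg) (C := C)
      (fun b hb => by
        rw [intervalIntegral.integral_neg, abs_neg]
        exact hC b hb) ha hℓ (fun k => by
        rw [intervalIntegral.integral_neg, intervalIntegral.integral_neg]
        exact neg_le_neg (hdn ℓ hℓ k a ha))
    rw [intervalIntegral.integral_neg] at this
    linarith

end

/-- **one length, no hypothesis on the zeros**: the counting function -/
theorem one_Aa {l : Filter ℝ} (hl : l ≤ atTop) {ℓ s : ℝ} (hℓ : 0 < ℓ) (hs : s = 1 ∨ s = -1)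
    (h1 : Win l ℓ s) (x : ℝ) {ε : ℝ} (hε : 0 < ε) : ∀ᶠ T in l, |Aa T x - AG x| ≤ 2 * ℓ + ε := by
  rcases lt_or_ge x 0 with hx | hx
  · refine Eventually.of_forall fun T => ?_
    rw [Aa_neg T x hx]
    unfold Pool.Agent.Y744.AG
    rw [if_pos hx, sub_self, abs_zero]
    positivity
  obtain ⟨C, hC0, hC⟩ := mean_Aa
  obtain ⟨C0, T0, hT0, hb⟩ := Aa_bd
  have hmono : ∀ T, T0 ≤ T → Monotone (Aa T) := fun T hT => Aa_mono (by linarith)
  have key : {T | |Aa T x - AG x| ≤ 2 * ℓ + ε} ∈ l := by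
    rw [Filter.mem_iff_ultrafilter]
    intro g hg
    have hgt : (g : Filter ℝ) ≤ atTop := hg.trans hl
    have hT : ∀ᶠ T in (g : Filter ℝ), T0 ≤ T := hgt (eventually_ge_atTop _)
    have hT1 : ∀ᶠ T in (g : Filter ℝ), 1 < T := hgt (eventually_gt_atTop _)
    have hex : ∀ y, ∃ L, Tendsto (fun T => Aa T y) (g : Filter ℝ) (𝓝 L) := by
      intro y
      have h1 : ((g.map fun T => Aa T y : Ultrafilter ℝ) : Filter ℝ) ≤
          𝓟 (Set.Icc (-(C0 * (1 + y ^ 2))) (C0 * (1 + y ^ 2))) := by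
        rw [le_principal_iff]
        have h2 : ∀ᶠ T in (g : Filter ℝ), Aa T y ∈
            Set.Icc (-(C0 * (1 + y ^ 2))) (C0 * (1 + y ^ 2)) := by
          filter_upwards [hT] with T hT1
          exact abs_le.1 (hb T hT1 y)
        exact h2
      obtain ⟨L, _, hL⟩ := isCompact_Icc.ultrafilter_le_nhds _ h1
      exact ⟨L, hL⟩
    choose A' hlim using hex
    have hA' : Monotone A' := by
      intro a b hab
      refine le_of_tendsto_of_tendsto (hlim a) (hlim b) ?_
      filter_upwards [hT] with T hT1 using hmono T hT1 hab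
    have h0 : 1 ≤ A' 0 := by
      refine le_of_forall_pos_le_add fun e he => ?_
      have h1 : ∀ᶠ T in (g : Filter ℝ), 1 - e ≤ Aa T 0 := hgt (Aa_diag he)
      have := ge_of_tendsto (hlim 0) h1
      linarith
    have hmean := fun a ha => mean_limit hC g hgt hA' hlim a ha
    have hwin : ∀ a, 0 < a →
        ContinuousAt A' a → 0 ≤ s * (A' (a + ℓ) - A' a - 2 * (gp (a + ℓ) - gp a)) := by
      intro a ha hca
      have := cond_limit (T0 := 2) (W := Ww) (fun T hT a ℓ ha hℓ => Ww_lower (by linarith))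
        (fun T hT a ℓ η ha hℓ hη => Ww_upper (by linarith) hη hℓ) hgt hlim hℓ hs ha
        (C := 0) (c := 1) (fun b hb ε hε => by
          filter_upwards [hg (h1.1 b (lt_of_lt_of_le ha hb) ε hε)] with T hT
          simpa using hT) a le_rfl hca
      simpa using this
    have hm : |A' x - AG x| ≤ 2 * ℓ := by
      rcases hs with rfl | rfl
      · exact one_lower hA' h0 hmean hℓ (fun a ha hc => by linarith [hwin a ha hc]) hx
      · refine one_upper hA' h0 hmean hℓ (fun a ha hc => by linarith [hwin a ha hc]) ?_ hx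
        refine le_of_forall_pos_le_add fun ε hε => ?_
        have h3 : Tendsto (fun T => Aa T ℓ + Aa T 0) (g : Filter ℝ) (𝓝 (A' ℓ + A' 0)) :=
          (hlim ℓ).add (hlim 0)
        refine le_of_tendsto h3 ?_
        filter_upwards [hg (h1.2 rfl (ε / 2) (by positivity)), hT1] with T h4 h5
        have hX := Xf_pos h5
        have e : Aa T ℓ + Aa T 0 = 2 * (PC T (Set.Icc 0 ℓ) / Xf T) := by
          unfold Pool.Agent.Y744.Aa
          rw [PC_abs T hℓ.le]
          field_simp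
          ring
        rw [e]
        linarith
    have h2 : Tendsto (fun T => |Aa T x - AG x|) (g : Filter ℝ) (𝓝 |A' x - AG x|) :=
      ((hlim x).sub_const _).abs
    have h3 : ∀ᶠ T in (g : Filter ℝ), |Aa T x - AG x| < 2 * ℓ + ε :=
      (tendsto_order.1 h2).2 _ (by linarith)
    exact h3.mono fun T hT => le_of_lt hT
  exact key

/-- **one length, no hypothesis on the zeros**: the windows -/
theorem one_Nr {l : Filter ℝ} (hl : l ≤ atTop) {ℓ s : ℝ} (hℓ : 0 < ℓ) (hs : s = 1 ∨ s = -1)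
    (h1 : Win l ℓ s) {α β : ℝ} (hαβ : α < β) {ε : ℝ} (hε : 0 < ε) :
    ∀ᶠ T in l, |Nr T α β - pr α β| ≤ 2 * ℓ + ε :=
  Nr_close hl (fun x ε hε => one_Aa hl hℓ hs h1 x hε) hαβ hε

end Pool.Agent.L5helper12.TW
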