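import Pool.Agent.L5helper12.TW.Edge
import Pool.Agent.Y744.PCR.NTd

set_option autoImplicit false

/-! # Montgomery's theorem for the ordinates up to height `T`, along a filter
(after `Pool.Agent.Y744.PCR.NTb`-`NTd`, without the Riemann hypothesis) -/

open Filter Topology Complex MeasureTheory

namespace Pool.Agent.L5helper12.TW

open H370 TH803TW Pool.Agent.Results.MP_103a5c_nt.BohrSetPairs
open Pool.Agent.Y744 (mz mz_nonneg Zt Zb mem_Zt mem_Zb QS Xf Xf_pos QS_abs_bound QS_far_bound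
  QS_le_abs split_pairs near_bound PP1_Zt_step PP1_anti Q2 QS_split)

/-- **local bound** -/
theorem PP_bd : ∃ C B0 V0 : ℝ, 0 ≤ C ∧ 0 ≤ B0 ∧ 20 ≤ V0 ∧
    (∀ V : ℝ, V0 ≤ V → PP1 (Zb V (2 * V)) mz (fun s => s.im) (Real.log V) ≤ C * (V * Real.log V)) ∧
    (∀ T : ℝ, V0 ≤ T → ∀ Λ : ℝ, Real.log T ≤ Λ →
      PP1 (Zt T) mz (fun s => s.im) Λ ≤ B0 + C * (T * Real.log T)) := by
  obtain ⟨δ, C1, T1, hδ, hδ1, hC1, hT1, hP, -⟩ := blk_pairs
  obtain ⟨V1, hV1, hN⟩ := near_bound
  set V0 : ℝ := max V1 T1 with hV0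
  have hV020 : 20 ≤ V0 := hV1.trans (le_max_left _ _)
  have hblk : ∀ V : ℝ, V0 ≤ V →
      PP1 (Zb V (2 * V)) mz (fun s => s.im) (Real.log V) ≤ C1 * (V * Real.log V) :=
    fun V hV => hP V ((le_max_right _ _).trans hV)
  set B0 : ℝ := (∑ s ∈ Zt (2 * V0), mz s) ^ 2 with hB0
  have hsmall : ∀ T : ℝ, T ≤ 2 * V0 → ∀ Λ : ℝ, PP1 (Zt T) mz (fun s => s.im) Λ ≤ B0 := by
    intro T hT Λ
    refine (PP1_le_sq (Zt T) mz_nonneg Λ).trans ?_
    refine pow_le_pow_left₀ (Finset.sum_nonneg fun s _ => mz_nonneg s) ?_ 2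
    refine Finset.sum_le_sum_of_subset_of_nonneg (fun s hs => ?_) fun s _ _ => mz_nonneg s
    rw [mem_Zt] at hs ⊢
    exact ⟨hs.1, hs.2.1, hs.2.2.1, hs.2.2.2.1.trans hT, hs.2.2.2.2⟩
  have hmain : ∀ n : ℕ, ∀ T : ℝ, V0 ≤ T → T ≤ 2 ^ n * (2 * V0) → ∀ Λ : ℝ, Real.log T ≤ Λ →
      PP1 (Zt T) mz (fun s => s.im) Λ ≤ B0 + (C1 + 1) * (T * Real.log T) := by
    intro n
    induction n with
    | zero =>
      intro T hT hT2 Λ hΛ
      rw [pow_zero, one_mul] at hT2
      have h1 := hsmall T hT2 Λ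
      have h2 : 0 ≤ Real.log T := Real.log_nonneg (by linarith)
      have h3 : 0 ≤ (C1 + 1) * (T * Real.log T) := by
        have : 0 ≤ T := by linarith
        positivity
      linarith
    | succ n ih =>
      intro T hT hT2 Λ hΛ
      have hlT : 0 ≤ Real.log T := Real.log_nonneg (by linarith)
      rcases le_or_gt T (2 * V0) with h | h
      · have h1 := hsmall T h Λ
        have h3 : 0 ≤ (C1 + 1) * (T * Real.log T) := by
          have : 0 ≤ T := by linarith
          positivity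
        linarith
      · set V := T / 2 with hV
        have hVV : V0 ≤ V := by linarith
        have hTV : T = 2 * V := by rw [hV]; ring
        have hlog : Real.log V ≤ Real.log T := Real.log_le_log (by linarith) (by linarith)
        have hlV1 : 1 ≤ Real.log V := by
          rw [Real.le_log_iff_exp_le (by linarith)]
          linarith [Real.exp_one_lt_d9]
        have h1 := ih V hVV (by
          rw [pow_succ] at hT2
          linarith) Λ (hlog.trans hΛ)
        have h2 := PP1_Zt_step (V := V) (by linarith) (Λ := Λ) (by linarith)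
        have h3 := (PP1_anti (x := fun s : ℂ => s.im) (Zb V (2 * V)) mz_nonneg (by linarith)
          (hlog.trans hΛ)).trans (hblk V hVV)
        have h4 := hN V ((le_max_left _ _).trans hVV)
        rw [← hTV] at h2 h3
        have h5 : V ≤ V * Real.log V := by nlinarith
        have h6 : (C1 + 1) * (V * Real.log V) ≤ (C1 + 1) * (V * Real.log T) := by
          have : 0 ≤ V := by linarith
          gcongr
        have h7 : (C1 + 1) * (T * Real.log T) = 2 * ((C1 + 1) * (V * Real.log T)) := by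
          rw [hTV]
          ring_nf
        linarith
  refine ⟨C1 + 1, B0, V0, by positivity, by positivity, hV020, fun V hV => ?_, fun T hT Λ hΛ => ?_⟩
  · refine (hblk V hV).trans ?_
    have h2 : 0 ≤ Real.log V := Real.log_nonneg (by linarith)
    have : 0 ≤ V * Real.log V := mul_nonneg (by linarith) h2
    linarith
  · obtain ⟨n, hn⟩ := pow_unbounded_of_one_lt (T / (2 * V0)) (one_lt_two)
    refine hmain n T hT ?_ Λ hΛ
    rw [div_lt_iff₀ (by linarith)] at hn
    exact hn.le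


section

variable {R : ℝ → ℝ} {κ : ℝ} {f : ℝ → ℝ}

lemma scale_err {ι : Type*} (S : Finset ι) {m x : ι → ℝ} (hm : ∀ s, 0 ≤ m s) {C : ℝ} (hC : 0 ≤ C)
    (hs : ∀ y s, 1 ≤ s → |f (s * y) - f y| ≤ C * (s - 1) / (1 + y ^ 2)) {L s : ℝ} (hL : 0 < L)
    (h1 : 1 ≤ s) :
    |QS S S m x f (s * L) - QS S S m x f L| ≤ 3200 * (C * (s - 1)) * PP1 S m x L := by
  have e : QS S S m x f (s * L) - QS S S m x f L =
      ∑ a ∈ S, ∑ b ∈ S, m a * m b * (f (s * ((x a - x b) * L / (2 * Real.pi))) -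
        f ((x a - x b) * L / (2 * Real.pi))) := by
    unfold QS
    rw [← Finset.sum_sub_distrib]
    refine Finset.sum_congr rfl fun a _ => ?_
    rw [← Finset.sum_sub_distrib]
    refine Finset.sum_congr rfl fun b _ => ?_
    rw [mul_sub]
    congr 3
    ring
  rw [e]
  have hK : 0 ≤ C * (s - 1) := mul_nonneg hC (by linarith)
  have h2 := QS_abs_bound (x := x) S S hm (f := fun y => C * (s - 1) / (1 + y ^ 2))
    (K := C * (s - 1)) (fun y => by rw [abs_of_nonneg (by positivity)]) hL one_pos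
  refine le_trans ?_ (h2.trans (le_of_eq ?_))
  · refine (Finset.abs_sum_le_sum_abs _ _).trans (Finset.sum_le_sum fun a _ =>
      (Finset.abs_sum_le_sum_abs _ _).trans (Finset.sum_le_sum fun b _ => ?_))
    rw [abs_mul, abs_of_nonneg (mul_nonneg (hm a) (hm b))]
    refine mul_le_mul_of_nonneg_left ?_ (mul_nonneg (hm a) (hm b))
    exact (hs _ s h1).trans (le_abs_self _)
  · ring

lemma cross_small (h : T4 R κ f) {η : ℝ} (hη : 0 < η) :
    ∃ V1 : ℝ, 20 ≤ V1 ∧ ∀ V : ℝ, V1 ≤ V → ∀ Λ : ℝ, Real.log V ≤ Λ →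
      |QS (Zt V) (Zb V (2 * V)) mz (fun s => s.im) f Λ| ≤ η * (V * Real.log V) := by
  classical
  obtain ⟨C, B0, V0, hC, hB0, hV0, hblk, hloc⟩ := PP_bd
  obtain ⟨V2, hV2, hnear⟩ := near_bound
  obtain ⟨K, hK, hf⟩ := h.decay1
  set lam : ℝ := 4800 * (K + 1) * (C + 1) / η with hlam
  have hlam0 : 0 < lam := by positivity
  have ev1 : ∀ᶠ V : ℝ in atTop, 4800 * (K + 1) * lam / η ≤ Real.log V :=
    Real.tendsto_log_atTop.eventually_ge_atTop _
  have ev2 : ∀ᶠ V : ℝ in atTop, (9600 * (K + 1) * (2 * C + 1) / η) ^ 2 ≤ Real.log V :=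
    Real.tendsto_log_atTop.eventually_ge_atTop _
  have ev3 : ∀ᶠ V : ℝ in atTop, B0 ≤ V := eventually_ge_atTop _
  obtain ⟨V3, hV3⟩ := (ev1.and (ev2.and ev3)).exists_forall_of_atTop
  refine ⟨max (max V0 V2) V3, hV0.trans ((le_max_left _ _).trans (le_max_left _ _)),
    fun V hV Λ hΛ => ?_⟩
  have hVV0 : V0 ≤ V := ((le_max_left _ _).trans (le_max_left _ _)).trans hV
  have hVV2 : V2 ≤ V := ((le_max_right _ _).trans (le_max_left _ _)).trans hV
  obtain ⟨e1, e2, e3⟩ := hV3 V ((le_max_right _ _).trans hV)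
  have hV20 : 20 ≤ V := hV0.trans hVV0
  have hlV1 : 1 ≤ Real.log V := by
    rw [Real.le_log_iff_exp_le (by linarith)]
    linarith [Real.exp_one_lt_d9]
  have hΛ1 : 1 ≤ Λ := hlV1.trans hΛ
  set Y := V * Real.log V with hY
  have hVY : V ≤ Y := by rw [hY]; nlinarith
  have hY0 : 0 < Y := by linarith
  have hPblk : PP1 (Zb V (2 * V)) mz (fun s => s.im) Λ ≤ C * Y :=
    (PP1_anti (x := fun s : ℂ => s.im) (Zb V (2 * V)) mz_nonneg (by linarith) hΛ).trans
      (hblk V hVV0)
  have hPt := hloc V hVV0 Λ hΛ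
  set A := (Zt V).filter (fun s => V - 1 < s.im) with hA
  set B := (Zt V).filter (fun s => ¬ V - 1 < s.im) with hB
  have hAsum : 2 * (∑ s ∈ A, mz s) ^ 2 ≤ V := by
    refine le_trans ?_ (hnear V hVV2)
    have : ∑ s ∈ A, mz s ≤ ∑ s ∈ Zb (V - 1) (V - 1 + 3), mz s := by
      refine Finset.sum_le_sum_of_subset_of_nonneg (fun s hs => ?_) fun s _ _ => mz_nonneg s
      obtain ⟨h1, h2⟩ := Finset.mem_filter.1 hs
      rw [mem_Zt] at h1
      rw [mem_Zb (by linarith)]
      exact ⟨h1.1, h1.2.1, h2, by linarith [h1.2.2.2.1], h1.2.2.2.2⟩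
    have h0 : 0 ≤ ∑ s ∈ A, mz s := Finset.sum_nonneg fun s _ => mz_nonneg s
    have := pow_le_pow_left₀ h0 this 2
    linarith
  have hPA : PP1 A mz (fun s => s.im) Λ ≤ V / 2 := by
    have := PP1_le_sq A mz_nonneg (x := fun s : ℂ => s.im) Λ
    linarith
  have hPB : PP1 B mz (fun s => s.im) Λ ≤ B0 + C * Y :=
    (PP1_mono (Finset.filter_subset _ _) mz_nonneg Λ).trans hPt
  have n1 := QS_abs_bound (x := fun s : ℂ => s.im) A (Zb V (2 * V)) mz_nonneg hf
    (Λ := Λ) (lam := lam) (by linarith) hlam0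
  have n2 := QS_far_bound (x := fun s : ℂ => s.im) B (Zb V (2 * V)) mz_nonneg hf hΛ1 (by
    intro s hs s' hs'
    obtain ⟨h1, h2⟩ := Finset.mem_filter.1 hs
    rw [mem_Zb (by linarith)] at hs'
    have h3 := hs'.2.2.1
    push Not at h2
    rw [abs_sub_comm]
    refine le_trans ?_ (le_abs_self _)
    linarith)
  have n0 := QS_le_abs (x := fun s : ℂ => s.im) (Zt V) (Zb V (2 * V)) mz_nonneg f Λ
  rw [← Finset.sum_filter_add_sum_filter_not (Zt V) (fun s => V - 1 < s.im)] at n0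
  -- the near part
  have b1 : 1600 * K * (lam * PP1 A mz (fun s => s.im) Λ +
      1 / lam * PP1 (Zb V (2 * V)) mz (fun s => s.im) Λ) ≤ 2 * η / 3 * Y := by
    have c1 : lam * PP1 A mz (fun s => s.im) Λ ≤ lam * V :=
      mul_le_mul_of_nonneg_left (by linarith) hlam0.le
    have c2 : 1600 * K * (lam * V) ≤ η / 3 * Y := by
      rw [div_le_iff₀ hη] at e1
      have : 1600 * K * (lam * V) ≤ 1600 * (K + 1) * (lam * V) := by
        have : 0 ≤ lam * V := by positivity
        nlinarith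
      refine this.trans ?_
      have h3 : 4800 * (K + 1) * lam * V ≤ Real.log V * η * V :=
        mul_le_mul_of_nonneg_right e1 (by linarith)
      rw [hY]
      linarith
    have c3 : 1 / lam * PP1 (Zb V (2 * V)) mz (fun s => s.im) Λ ≤ 1 / lam * (C * Y) :=
      mul_le_mul_of_nonneg_left hPblk (by positivity)
    have c4 : 1600 * K * (1 / lam * (C * Y)) ≤ η / 3 * Y := by
      have h4 : 1600 * K * (1 / lam * (C * Y)) = (1600 * K * C / lam) * Y := by
        field_simp
      rw [h4]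
      refine mul_le_mul_of_nonneg_right ?_ hY0.le
      rw [div_le_iff₀ hlam0, hlam]
      have h5 : η / 3 * (4800 * (K + 1) * (C + 1) / η) = 1600 * ((K + 1) * (C + 1)) := by
        field_simp
        ring
      rw [h5]
      nlinarith
    have hK0 : 0 ≤ 1600 * K := by positivity
    calc 1600 * K * (lam * PP1 A mz (fun s => s.im) Λ +
        1 / lam * PP1 (Zb V (2 * V)) mz (fun s => s.im) Λ) ≤
          1600 * K * (lam * V + 1 / lam * (C * Y)) := by gcongr
      _ = 1600 * K * (lam * V) + 1600 * K * (1 / lam * (C * Y)) := by ring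
      _ ≤ _ := by linarith
  -- the far part
  have b2 : 3200 * K / Real.sqrt Λ * (PP1 B mz (fun s => s.im) Λ +
      PP1 (Zb V (2 * V)) mz (fun s => s.im) Λ) ≤ η / 3 * Y := by
    have hs : 9600 * (K + 1) * (2 * C + 1) / η ≤ Real.sqrt Λ :=
      Real.le_sqrt_of_sq_le (e2.trans hΛ)
    have hs0 : 0 < Real.sqrt Λ := Real.sqrt_pos.2 (by linarith)
    have c1 : PP1 B mz (fun s => s.im) Λ + PP1 (Zb V (2 * V)) mz (fun s => s.im) Λ ≤
        (2 * C + 1) * Y := by nlinarith
    calc 3200 * K / Real.sqrt Λ * (PP1 B mz (fun s => s.im) Λ +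
        PP1 (Zb V (2 * V)) mz (fun s => s.im) Λ) ≤ 3200 * K / Real.sqrt Λ * ((2 * C + 1) * Y) :=
          mul_le_mul_of_nonneg_left c1 (by positivity)
      _ = (3200 * K * (2 * C + 1) / Real.sqrt Λ) * Y := by ring
      _ ≤ η / 3 * Y := by
          refine mul_le_mul_of_nonneg_right ?_ hY0.le
          rw [div_le_iff₀ hs0]
          rw [div_le_iff₀ hη] at hs
          nlinarith
  calc |QS (Zt V) (Zb V (2 * V)) mz (fun s => s.im) f Λ| ≤ _ := n0
    _ ≤ 2 * η / 3 * Y + η / 3 * Y := add_le_add (n1.trans b1) (n2.trans b2)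
    _ = η * Y := by ring

lemma step_lim {l : Filter ℝ} (hl : l ≤ atTop) (h : T4 R κ f)
    (h1 : Tendsto (fun V => QS (Zb V (2 * V)) (Zb V (2 * V)) mz (fun s => s.im) f (Real.log V) /
      Xf V) l (𝓝 (mont R))) {σ : ℝ} (hσ : 0 ≤ σ) :
    Tendsto (fun V => (Q2 f (2 * V) (Real.log V + σ) - Q2 f V (Real.log V + σ)) / Xf V) l
      (𝓝 (mont R)) := by
  obtain ⟨C, B0, V0, hC, hB0, hV0, hblk, hloc⟩ := PP_bd
  obtain ⟨C1, hC1, hs⟩ := h.scale
  -- scale change
  have h2 : Tendsto (fun V => (QS (Zb V (2 * V)) (Zb V (2 * V)) mz (fun s => s.im) f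
      (Real.log V + σ) - QS (Zb V (2 * V)) (Zb V (2 * V)) mz (fun s => s.im) f (Real.log V)) /
      Xf V) l (𝓝 0) := by
    have h3 : Tendsto (fun V : ℝ => 3200 * C1 * σ * C * (2 * Real.pi) * (Real.log V)⁻¹) l
        (𝓝 (3200 * C1 * σ * C * (2 * Real.pi) * 0)) :=
      ((tendsto_inv_atTop_zero.comp Real.tendsto_log_atTop).const_mul _).mono_left hl
    rw [mul_zero] at h3
    refine squeeze_zero_norm' ?_ h3
    filter_upwards [hl (eventually_ge_atTop V0)] with V hV
    have hV20 : 20 ≤ V := hV0.trans hV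
    have hL : 0 < Real.log V := Real.log_pos (by linarith)
    have hX := Xf_pos (V := V) (by linarith)
    have h4 := scale_err (x := fun s : ℂ => s.im) (Zb V (2 * V)) mz_nonneg hC1 hs hL
      (s := 1 + σ / Real.log V) (by
        have : 0 ≤ σ / Real.log V := by positivity
        linarith)
    have e1 : (1 + σ / Real.log V) * Real.log V = Real.log V + σ := by field_simp
    rw [e1] at h4
    rw [Real.norm_eq_abs, abs_div, abs_of_pos hX, div_le_iff₀ hX]
    refine h4.trans ((mul_le_mul_of_nonneg_left (hblk V hV) ?_).trans (le_of_eq ?_))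
    · have : 0 ≤ σ / Real.log V := by positivity
      have h5 : 0 ≤ C1 * (1 + σ / Real.log V - 1) := mul_nonneg hC1 (by linarith)
      linarith
    · unfold Xf
      have hpi := Real.pi_pos
      field_simp
      ring
  -- cross terms
  have h3 : Tendsto (fun V => 2 * QS (Zt V) (Zb V (2 * V)) mz (fun s => s.im) f
      (Real.log V + σ) / Xf V) l (𝓝 0) := by
    refine Tendsto.mono_left ?_ hl
    rw [Metric.tendsto_atTop]
    intro ε hε
    obtain ⟨V1, hV1, h4⟩ := cross_small h (η := ε / 16) (by positivity)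
    refine ⟨V1, fun V hV => ?_⟩
    have hV20 : 20 ≤ V := hV1.trans hV
    have hX := Xf_pos (V := V) (by linarith)
    have h5 := h4 V hV (Real.log V + σ) (by linarith)
    rw [Real.dist_eq, sub_zero, abs_div, abs_of_pos hX, div_lt_iff₀ hX, abs_mul,
      abs_of_pos (by norm_num : (0 : ℝ) < 2)]
    have hY : 0 < V * Real.log V := mul_pos (by linarith) (Real.log_pos (by linarith))
    have h6 : ε / 8 * (V * Real.log V) < ε * Xf V := by
      unfold Xf
      have hpi := Real.pi_lt_d2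
      have hpi0 := Real.pi_pos
      rw [← mul_div_assoc, lt_div_iff₀ (by positivity)]
      have : 0 < ε * (V * Real.log V) := by positivity
      nlinarith
    linarith
  have h4 := (h1.add h2).add h3
  rw [add_zero, add_zero] at h4
  refine h4.congr' ?_
  filter_upwards [hl (eventually_ge_atTop (1 : ℝ))] with V hV
  rw [QS_split h.even hV]
  ring

lemma tele_lim {l : Filter ℝ} (hl : l ≤ atTop) (h : T4 R κ f)
    (hblk : ∀ J : ℕ, Tendsto (fun V => QS (Zb V (2 * V)) (Zb V (2 * V)) mz (fun s => s.im) f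
      (Real.log V) / Xf V) (map (fun T : ℝ => T / 2 ^ (J + 1)) l) (𝓝 (mont R))) (J : ℕ) :
    Tendsto (fun T => (Q2 f T (Real.log T) - Q2 f (T / 2 ^ J) (Real.log T)) / Xf T) l
      (𝓝 (mont R * (1 - 1 / 2 ^ J))) := by
  induction J with
  | zero =>
    simp only [pow_zero, div_one, sub_self, zero_div, mul_zero]
    exact tendsto_const_nhds
  | succ J ih =>
    have ht : Tendsto (fun T : ℝ => T / 2 ^ (J + 1)) l atTop :=
      (tendsto_id.atTop_div_const (by positivity)).mono_left hl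
    have h1 := step_lim (l := map (fun T : ℝ => T / 2 ^ (J + 1)) l) ht h (hblk J)
      (σ := (J + 1) * Real.log 2)
      (mul_nonneg (by positivity) (Real.log_nonneg (by norm_num)))
    have h2 := tendsto_map'_iff.1 h1
    have h3 : Tendsto (fun T : ℝ => Xf (T / 2 ^ (J + 1)) / Xf T) l (𝓝 (1 / 2 ^ (J + 1))) := by
      refine Tendsto.mono_left ?_ hl
      have h4 : Tendsto (fun T : ℝ => 1 / 2 ^ (J + 1) * (1 - (J + 1) * Real.log 2 *
          (Real.log T)⁻¹)) atTop (𝓝 (1 / 2 ^ (J + 1) * (1 - (J + 1) * Real.log 2 * 0))) :=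
        (tendsto_const_nhds.sub ((tendsto_inv_atTop_zero.comp
          Real.tendsto_log_atTop).const_mul _)).const_mul _
      rw [mul_zero, sub_zero, mul_one] at h4
      refine h4.congr' ?_
      filter_upwards [eventually_gt_atTop (1 : ℝ)] with T hT
      have hL : 0 < Real.log T := Real.log_pos hT
      unfold Xf
      rw [Real.log_div (by linarith) (by positivity), Real.log_pow]
      have hpi := Real.pi_pos
      push_cast
      field_simp
    have h4 := ih.add (h2.mul h3)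
    have e : mont R * (1 - 1 / 2 ^ J) + mont R * (1 / 2 ^ (J + 1)) =
        mont R * (1 - 1 / 2 ^ (J + 1)) := by
      rw [pow_succ]
      field_simp
      ring
    rw [e] at h4
    refine h4.congr' ?_
    filter_upwards [hl (eventually_gt_atTop ((2 : ℝ) ^ (J + 1)))] with T hT
    have hT1 : 1 < T := lt_of_le_of_lt (one_le_pow₀ (by norm_num)) hT
    have hV : 1 < T / 2 ^ (J + 1) := by
      rw [lt_div_iff₀ (by positivity)]
      linarith
    have hX := Xf_pos hT1
    have hXV := Xf_pos hV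
    show (Q2 f T (Real.log T) - Q2 f (T / 2 ^ J) (Real.log T)) / Xf T +
      (Q2 f (2 * (T / 2 ^ (J + 1))) (Real.log (T / 2 ^ (J + 1)) + (J + 1) * Real.log 2) -
        Q2 f (T / 2 ^ (J + 1)) (Real.log (T / 2 ^ (J + 1)) + (J + 1) * Real.log 2)) /
        Xf (T / 2 ^ (J + 1)) * (Xf (T / 2 ^ (J + 1)) / Xf T) = _
    have e1 : Real.log (T / 2 ^ (J + 1)) + (J + 1) * Real.log 2 = Real.log T := by
      rw [Real.log_div (by linarith) (by positivity), Real.log_pow]
      push_cast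
      ring
    have e2 : 2 * (T / 2 ^ (J + 1)) = T / 2 ^ J := by
      rw [pow_succ]
      field_simp
    rw [e1, e2]
    field_simp
    ring

/-- **Montgomery's theorem for the zeros up to height `T`** -/
theorem mont_lim0 {l : Filter ℝ} (hl : l ≤ atTop) (h : T4 R κ f)
    (hblk : ∀ J : ℕ, Tendsto (fun V => QS (Zb V (2 * V)) (Zb V (2 * V)) mz (fun s => s.im) f
      (Real.log V) / Xf V) (map (fun T : ℝ => T / 2 ^ (J + 1)) l) (𝓝 (mont R))) :
    Tendsto (fun T => Q2 f T (Real.log T) / Xf T) l (𝓝 (mont R)) := by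
  obtain ⟨C, B0, V0, hC, hB0, hV0, -, hloc⟩ := PP_bd
  obtain ⟨K, hK, hf⟩ := h.decay1
  set c := mont R with hc
  rw [Metric.tendsto_nhds]
  intro ε hε
  set D : ℝ := |c| + 3200 * K * (2 * Real.pi) * (C + 1) with hD
  have hpi := Real.pi_pos
  have hD0 : 0 ≤ D := by positivity
  obtain ⟨J, hJ⟩ := pow_unbounded_of_one_lt (4 * (D + 1) / ε) (one_lt_two)
  have h1 := (Metric.tendsto_nhds.1 (tele_lim hl h hblk J)) (ε / 4) (by positivity)
  have ev2 : ∀ᶠ T : ℝ in atTop, (2 : ℝ) ^ J * V0 ≤ T := eventually_ge_atTop _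
  have ev3 : ∀ᶠ T : ℝ in atTop, (2 : ℝ) ^ J * B0 ≤ T := eventually_ge_atTop _
  filter_upwards [h1, hl ev2, hl ev3] with T a1 a2 a3
  have h2J : (1 : ℝ) ≤ 2 ^ J := one_le_pow₀ (by norm_num)
  have hTV : V0 ≤ T / 2 ^ J := by
    rw [le_div_iff₀ (by positivity)]
    linarith
  have hT20 : 20 ≤ T := by
    have : T / 2 ^ J ≤ T := by
      rw [div_le_iff₀ (by positivity)]
      have : 0 ≤ T := by
        by_contra hc
        push Not at hc
        have : T / 2 ^ J < 0 := div_neg_of_neg_of_pos hc (by positivity)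
        linarith
      nlinarith
    linarith
  have hL1 : 1 ≤ Real.log T := by
    rw [Real.le_log_iff_exp_le (by linarith)]
    linarith [Real.exp_one_lt_d9]
  have hX := Xf_pos (V := T) (by linarith)
  have hlog : Real.log (T / 2 ^ J) ≤ Real.log T := by
    refine Real.log_le_log (by linarith) ?_
    rw [div_le_iff₀ (by positivity)]
    nlinarith
  -- the first block
  have b1 : |Q2 f (T / 2 ^ J) (Real.log T)| ≤
      3200 * K * (B0 + C * (T / 2 ^ J * Real.log (T / 2 ^ J))) := by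
    unfold Q2
    refine (QS_le_abs _ _ mz_nonneg _ _).trans ?_
    refine (QS_abs_bound (x := fun s : ℂ => s.im) _ _ mz_nonneg hf (by linarith) one_pos).trans ?_
    have h3 := hloc (T / 2 ^ J) hTV (Real.log T) hlog
    have h4 : (1 : ℝ) * PP1 (Zt (T / 2 ^ J)) mz (fun s => s.im) (Real.log T) +
        1 / 1 * PP1 (Zt (T / 2 ^ J)) mz (fun s => s.im) (Real.log T) ≤
        2 * (B0 + C * (T / 2 ^ J * Real.log (T / 2 ^ J))) := by
      rw [one_mul, div_one, one_mul]
      linarith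
    have h5 := mul_le_mul_of_nonneg_left h4 (show (0 : ℝ) ≤ 1600 * K by positivity)
    linarith
  have b2 : |Q2 f (T / 2 ^ J) (Real.log T)| / Xf T ≤
      3200 * K * (2 * Real.pi) * (C + 1) / 2 ^ J := by
    rw [div_le_div_iff₀ hX (by positivity)]
    have h3 : B0 ≤ T / 2 ^ J * Real.log T := by
      have : B0 ≤ T / 2 ^ J := by
        rw [le_div_iff₀ (by positivity)]
        linarith
      have h4 : 0 ≤ T / 2 ^ J := by linarith
      nlinarith
    have h4 : C * (T / 2 ^ J * Real.log (T / 2 ^ J)) ≤ C * (T / 2 ^ J * Real.log T) := by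
      have h5 : 0 ≤ T / 2 ^ J := by linarith
      gcongr
    have h5 : |Q2 f (T / 2 ^ J) (Real.log T)| ≤
        3200 * K * ((C + 1) * (T / 2 ^ J * Real.log T)) := by
      refine b1.trans (mul_le_mul_of_nonneg_left ?_ (by positivity))
      linarith
    have h6 : 3200 * K * ((C + 1) * (T / 2 ^ J * Real.log T)) * 2 ^ J =
        3200 * K * (2 * Real.pi) * (C + 1) * Xf T := by
      unfold Xf
      field_simp
    rw [← h6]
    exact mul_le_mul_of_nonneg_right h5 (by positivity)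
  rw [Real.dist_eq] at a1 ⊢
  have e : Q2 f T (Real.log T) / Xf T - c =
      ((Q2 f T (Real.log T) - Q2 f (T / 2 ^ J) (Real.log T)) / Xf T - c * (1 - 1 / 2 ^ J)) +
      (Q2 f (T / 2 ^ J) (Real.log T) / Xf T - c / 2 ^ J) := by
    ring
  rw [e]
  have b3 : |Q2 f (T / 2 ^ J) (Real.log T) / Xf T - c / 2 ^ J| ≤ D / 2 ^ J := by
    refine (abs_sub _ _).trans ?_
    rw [abs_div, abs_div, abs_of_pos hX, abs_of_pos (by positivity : (0 : ℝ) < 2 ^ J), hD,
      add_div, add_comm]
    gcongr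
  have b4 : D / 2 ^ J < ε / 4 := by
    rw [div_lt_iff₀ hε] at hJ
    rw [div_lt_iff₀ (by positivity)]
    linarith
  refine (abs_add_le _ _).trans_lt ?_
  linarith


/-- few zeros off the line -/
def OffS (l : Filter ℝ) : Prop :=
  Tendsto (fun T => (∑ s ∈ Zt T, wo s) / (T * Real.log T)) l (𝓝 0)

lemma Zb_sub_Zt {V T : ℝ} (hV : 1 ≤ V) (h : 2 * V ≤ T) : Zb V (2 * V) ⊆ Zt T := by
  intro s hs
  rw [mem_Zb hV] at hs
  rw [mem_Zt]
  obtain ⟨a1, a2, a3, a4, a5⟩ := hs
  exact ⟨a1, a2, by linarith, by linarith, a5⟩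

/-- the blocks below `T` -/
lemma off_blk {l : Filter ℝ} (hl : l ≤ atTop) (hoff : OffS l) (J : ℕ) :
    Tendsto (fun V => (∑ s ∈ Zb V (2 * V), wo s) / (V * Real.log V))
      (map (fun T : ℝ => T / 2 ^ (J + 1)) l) (𝓝 0) := by
  rw [tendsto_map'_iff]
  have h1 : Tendsto (fun T => 2 ^ (J + 2) * ((∑ s ∈ Zt T, wo s) / (T * Real.log T))) l
      (𝓝 (2 ^ (J + 2) * 0)) := hoff.const_mul _
  rw [mul_zero] at h1
  refine squeeze_zero_norm' ?_ h1
  filter_upwards [hl (eventually_ge_atTop ((4 : ℝ) ^ (J + 1))), hl (eventually_ge_atTop (20 *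
    (2 : ℝ) ^ (J + 1)))] with T hT hT2
  show ‖(∑ s ∈ Zb (T / 2 ^ (J + 1)) (2 * (T / 2 ^ (J + 1))), wo s) /
    (T / 2 ^ (J + 1) * Real.log (T / 2 ^ (J + 1)))‖ ≤ _
  have h2 : (1 : ℝ) ≤ 2 ^ (J + 1) := one_le_pow₀ (by norm_num)
  set V := T / 2 ^ (J + 1) with hV
  have hV20 : 20 ≤ V := by
    rw [hV, le_div_iff₀ (by positivity)]
    exact hT2
  have hTV : T = 2 ^ (J + 1) * V := by rw [hV]; field_simp
  have h2V : 2 * V ≤ T := by
    rw [hTV, pow_succ]
    have : (1 : ℝ) ≤ 2 ^ J := one_le_pow₀ (by norm_num)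
    nlinarith
  have hT0 : 0 < T := by linarith
  have hlT : Real.log T ≤ 2 * Real.log V := by
    have h3 : T ≤ V ^ 2 := by
      have h4 : (2 : ℝ) ^ (J + 1) ≤ V := by
        rw [hV, le_div_iff₀ (by positivity), ← pow_add, ← two_mul, pow_mul]
        norm_num
        exact hT
      rw [hTV, sq]
      exact mul_le_mul_of_nonneg_right h4 (by linarith)
    have h4 := Real.log_le_log hT0 h3
    rw [Real.log_pow] at h4
    push_cast at h4
    exact h4
  have hlV : 0 < Real.log V := Real.log_pos (by linarith)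
  have hlT0 : 0 < Real.log T := Real.log_pos (by linarith)
  have h5 : ∑ s ∈ Zb V (2 * V), wo s ≤ ∑ s ∈ Zt T, wo s :=
    Finset.sum_le_sum_of_subset_of_nonneg (Zb_sub_Zt (by linarith) h2V) fun s _ _ => wo_nonneg s
  have h6 : 0 ≤ ∑ s ∈ Zb V (2 * V), wo s := Finset.sum_nonneg fun s _ => wo_nonneg s
  rw [Real.norm_of_nonneg (by positivity), div_le_iff₀ (by positivity)]
  have h7 : T * Real.log T ≤ 2 ^ (J + 2) * (V * Real.log V) := by
    calc T * Real.log T ≤ (2 ^ (J + 1) * V) * (2 * Real.log V) := by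
          rw [← hTV]
          exact mul_le_mul_of_nonneg_left hlT hT0.le
      _ = _ := by ring
  calc ∑ s ∈ Zb V (2 * V), wo s ≤ ∑ s ∈ Zt T, wo s := h5
    _ = (∑ s ∈ Zt T, wo s) / (T * Real.log T) * (T * Real.log T) := by field_simp
    _ ≤ (∑ s ∈ Zt T, wo s) / (T * Real.log T) * (2 ^ (J + 2) * (V * Real.log V)) := by
        refine mul_le_mul_of_nonneg_left h7 ?_
        have := h6.trans h5
        positivity
    _ = _ := by ring

/-- **Montgomery's theorem for the ordinates**, if almost all zeros are on the line -/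
theorem mont_lim : ∃ δ : ℝ, 0 < δ ∧ δ ≤ 1 ∧ ∀ κ : ℝ, 0 < κ → 3 * κ ≤ δ → ∀ (R f : ℝ → ℝ),
    T4 R κ f → ∀ l : Filter ℝ, l ≤ atTop → OffS l →
      Tendsto (fun T => Q2 f T (Real.log T) / Xf T) l (𝓝 (mont R)) := by
  obtain ⟨δ, hδ, hδ1, hmain⟩ := blk_main
  refine ⟨δ, hδ, hδ1, fun κ hκ hκδ R f h l hl hoff => mont_lim0 hl h fun J => ?_⟩
  have hpi := Real.pi_pos
  have ht : Tendsto (fun T : ℝ => T / 2 ^ (J + 1)) l atTop :=
    (tendsto_id.atTop_div_const (by positivity)).mono_left hl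
  have hm : map (fun T : ℝ => T / 2 ^ (J + 1)) l ≤ atTop := ht
  rw [Metric.tendsto_nhds]
  intro ε hε
  obtain ⟨ρ, hρ, V1, hV1, hb⟩ := hmain κ hκ hκδ R f h (ε / 8) (by positivity)
  have h1 := (Metric.tendsto_nhds.1 (off_blk hl hoff J)) ρ hρ
  filter_upwards [h1, hm (eventually_ge_atTop V1)] with V hV hVV
  have hV20 : 20 ≤ V := hV1.trans hVV
  have hlV : 0 < Real.log V := Real.log_pos (by linarith)
  have hY : 0 < V * Real.log V := by positivity
  have hX := Xf_pos (V := V) (by linarith)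
  rw [Real.dist_eq, sub_zero, abs_lt] at hV
  have h2 := hV.2
  rw [div_lt_iff₀ hY] at h2
  have h3 := hb V hVV h2.le
  rw [Real.dist_eq]
  have e : QS (Zb V (2 * V)) (Zb V (2 * V)) mz (fun s => s.im) f (Real.log V) / Xf V - mont R =
      (QS (Zb V (2 * V)) (Zb V (2 * V)) mz (fun s => s.im) f (Real.log V) - Xf V * mont R) /
        Xf V := by
    field_simp
  rw [e, abs_div, abs_of_pos hX, div_lt_iff₀ hX]
  refine h3.trans_lt ?_
  unfold Pool.Agent.Y744.Xf
  have hpi2 := Real.pi_lt_d2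
  rw [← mul_div_assoc, lt_div_iff₀ (by positivity)]
  have : ε / 8 * (V * Real.log V) * (2 * Real.pi) = ε * (V * Real.log V) * (Real.pi / 4) := by ring
  rw [this]
  have h4 : 0 < ε * (V * Real.log V) := by positivity
  nlinarith

end

end Pool.Agent.L5helper12.TW
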